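import Pool.Agent.LC.Basic

open Filter Topology Set

namespace Pool.Agent.LC

open Classical in
/-- indicator -/
noncomputable def ind (S : Set ℕ) : Phi := fun n => if n ∈ S then 1 else 0

theorem push_ind {j : ℕ → ℕ} (hj : Function.Injective j) (S : Set ℕ) :
    push j (ind S) = ind (j '' S) := by
  classical
  funext n
  by_cases hn : n ∈ range j
  · obtain ⟨l, rfl⟩ := hn
    rw [push_apply hj]
    unfold ind
    by_cases hl : l ∈ S
    · rw [if_pos hl, if_pos (mem_image_of_mem j hl)]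
    · rw [if_neg hl, if_neg (fun h => hl (hj.mem_set_image.1 h))]
  · rw [push_off _ hn]
    unfold ind
    rw [if_neg]
    rintro ⟨l, -, rfl⟩
    exact hn ⟨l, rfl⟩

theorem atom {F : Phi → ℕ → ℝ} {m ε K : ℝ} (hF : Sys F m ε K) (hε : 0 < ε) (C : ℕ)
    (hm : (2 * C + 10) * ε ≤ m / 2) (ι : ℕ → ℕ) (hι : Tendsto ι atTop atTop)
    (h : ∀ e b b' : Phi, ∀ᶠ r in atTop, r ∈ X F m ε 1 e → b (ι r) = b' (ι r) →
        |F b r - F b' r| ≤ C * ε) :
    ∃ (rr nn : ℕ → ℕ) (sg : ℝ), StrictMono rr ∧ Function.Injective nn ∧ (sg = 1 ∨ sg = -1) ∧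
      ∀ R : Set ℕ, ∀ᶠ k in atTop, k ∈ R → m / 2 ≤ sg * F (ind (nn '' R)) (rr k) := by
  classical
  have hCε : 0 ≤ (C : ℝ) * ε := mul_nonneg (Nat.cast_nonneg C) hε.le
  obtain ⟨e, -, he⟩ := hF.lower univ infinite_univ
  set one : Phi := fun _ => 1 with hone
  set two : Phi := fun n => neg3 (one n) with htwo
  have htwo2 : ∀ n, two n = 2 := by
    intro n
    rw [htwo, hone]
    rfl
  have hzero : ∀ᶠ r in atTop, |F (fun _ => 0) r| < ε := by
    have := (Metric.tendsto_nhds.1 hF.zero) ε hε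
    simpa [Real.dist_eq] using this
  have hneg : ∀ᶠ r in atTop, |F two r + F one r| < ε := by
    have := (Metric.tendsto_nhds.1 (hF.neg one)) ε hε
    simpa [Real.dist_eq] using this
  have hbig : ∀ᶠ r in atTop, r ∈ X F m ε 1 e → m - (C + 2) * ε ≤ |F one r| := by
    filter_upwards [h e e (fun _ => 0), h e e one, h e e two, hzero, hneg] with r h0 h1 h2 hz hn hr
    have hr' : m - ε < |F e r| := by
      have := hr
      simp only [X, mem_ofPred_eq, Nat.cast_one, one_mul] at this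
      exact this
    have hcase : e (ι r) = 0 ∨ e (ι r) = 1 ∨ e (ι r) = 2 := by
      generalize e (ι r) = x
      fin_cases x <;> simp
    rcases hcase with hc | hc | hc
    · exfalso
      have h3 := h0 hr hc
      have h4 : |F e r| ≤ |F e r - F (fun _ => 0) r| + |F (fun _ => 0) r| := by
        have := abs_add_le (F e r - F (fun _ => 0) r) (F (fun _ => 0) r)
        simpa using this
      nlinarith
    · have h3 := h1 hr hc
      have h4 : |F e r| ≤ |F e r - F one r| + |F one r| := by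
        have := abs_add_le (F e r - F one r) (F one r)
        simpa using this
      nlinarith
    · have h3 := h2 hr (hc.trans (htwo2 (ι r)).symm)
      have h4 : |F e r| ≤ |F e r - F two r| + |F two r| := by
        have := abs_add_le (F e r - F two r) (F two r)
        simpa using this
      have h5 : |F two r| ≤ |F two r + F one r| + |F one r| := by
        have := abs_sub (F two r + F one r) (F one r)
        simpa using this
      nlinarith
  have heX : ∃ᶠ r in atTop, r ∈ X F m ε 1 e := by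
    refine he.mono ?_
    intro r hr
    simp only [X, mem_ofPred_eq, Nat.cast_one, one_mul]
    exact hr
  have hsg : ∃ sg : ℝ, (sg = 1 ∨ sg = -1) ∧
      ∃ᶠ r in atTop, r ∈ X F m ε 1 e ∧ m - (C + 2) * ε ≤ |F one r| ∧ |F one r| = sg * F one r := by
    have h1 : ∃ᶠ r in atTop, (r ∈ X F m ε 1 e ∧ m - (C + 2) * ε ≤ |F one r| ∧
        |F one r| = 1 * F one r) ∨ (r ∈ X F m ε 1 e ∧ m - (C + 2) * ε ≤ |F one r| ∧
        |F one r| = (-1) * F one r) := by
      refine (heX.and_eventually hbig).mono ?_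
      rintro r ⟨hr, hr2⟩
      rcases le_total 0 (F one r) with h0 | h0
      · exact Or.inl ⟨hr, hr2 hr, by rw [abs_of_nonneg h0, one_mul]⟩
      · exact Or.inr ⟨hr, hr2 hr, by rw [abs_of_nonpos h0, neg_one_mul]⟩
    rw [frequently_or_distrib] at h1
    rcases h1 with h1 | h1
    · exact ⟨1, Or.inl rfl, h1⟩
    · exact ⟨-1, Or.inr rfl, h1⟩
  obtain ⟨sg, hsg1, hfreq⟩ := hsg
  obtain ⟨φ, hφ, hφP⟩ := extraction_of_frequently_atTop hfreq
  obtain ⟨ψ, hψ, hψ'⟩ := strictMono_subseq_of_tendsto_atTop (hι.comp hφ.tendsto_atTop)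
  refine ⟨φ ∘ ψ, ι ∘ φ ∘ ψ, sg, hφ.comp hψ, hψ'.injective, hsg1, ?_⟩
  intro R
  have hev := h e (ind ((ι ∘ φ ∘ ψ) '' R)) one
  filter_upwards [(hφ.comp hψ).tendsto_atTop.eventually hev] with k hk hkR
  obtain ⟨hP1, hP2, hP3⟩ := hφP (ψ k)
  have h1 : (ind ((ι ∘ φ ∘ ψ) '' R)) (ι ((φ ∘ ψ) k)) = one (ι ((φ ∘ ψ) k)) := by
    unfold ind
    rw [if_pos ⟨k, hkR, rfl⟩]
  have h2 := hk hP1 h1
  have h3 := abs_le.1 h2
  have h4 : |F one ((φ ∘ ψ) k)| = sg * F one ((φ ∘ ψ) k) := hP3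
  have h5 : m - (C + 2) * ε ≤ |F one ((φ ∘ ψ) k)| := hP2
  rcases hsg1 with rfl | rfl
  · nlinarith [h3.1, h3.2]
  · nlinarith [h3.1, h3.2]

end Pool.Agent.LC
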