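import Pool.Agent.LC.BasicA

open Filter Topology Set

namespace Pool.Agent.LC

theorem Sys.zero {F : Phi → ℕ → ℝ} {m ε K : ℝ} (hF : Sys F m ε K) :
    Tendsto (F (fun _ => 0)) atTop (𝓝 0) := by
  have h := (hF.add (fun _ => 0) (fun _ => 0) (fun _ => Or.inl rfl)).neg
  have h1 : join (fun _ => 0) (fun _ => 0) = (fun _ => 0 : Phi) := by
    funext n
    simp [join]
  rw [h1] at h
  simpa using h

private lemma neg3_ne {a : Fin 3} (h : neg3 a ≠ 0) : a ≠ 0 := by
  rintro rfl
  exact h rfl

private lemma ev_small {f : ℕ → ℝ} (h : Tendsto f atTop (𝓝 0)) {δ : ℝ} (hδ : 0 < δ) :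
    ∀ᶠ r in atTop, |f r| < δ := by
  rw [Metric.tendsto_nhds] at h
  filter_upwards [h δ hδ] with r hr
  simpa [Real.dist_eq] using hr

/-- (R1) -/
private lemma two_disj {F : Phi → ℕ → ℝ} {m ε K : ℝ} (hF : Sys F m ε K) {e g : Phi}
    (heg : Disj e g) {δ : ℝ} (hδ : 0 < δ) :
    ∀ᶠ r in atTop, |F e r| + |F g r| < m + ε + 2 * δ := by
  have hd : Disj e (fun n => neg3 (g n)) := by
    intro n
    rcases heg n with h | h
    · exact Or.inl h
    · right
      change neg3 (g n) = 0
      rw [h]
      rfl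
  filter_upwards [ev_small (hF.add e g heg) hδ, ev_small (hF.add e _ hd) hδ,
    ev_small (hF.neg g) hδ, hF.upper (join e g), hF.upper (join e (fun n => neg3 (g n)))]
    with r h1 h2 h3 h4 h5
  rw [abs_lt] at h1 h2 h3 h4 h5
  rcases abs_cases (F e r) with ⟨h6, _⟩ | ⟨h6, _⟩ <;> rcases abs_cases (F g r) with ⟨h7, _⟩ | ⟨h7, _⟩ <;>
    rw [h6, h7] <;> linarith [h1.1, h1.2, h2.1, h2.2, h3.1, h3.2, h4.1, h4.2, h5.1, h5.2]

private lemma split (R : Set ℕ) (f : Phi) : join (res R f) (res Rᶜ f) = f := by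
  funext n
  by_cases h : n ∈ R
  · by_cases h0 : f n = 0 <;> simp [join, res, h, h0]
  · simp [join, res, h]

private lemma split_disj (R : Set ℕ) (f : Phi) : Disj (res R f) (res Rᶜ f) := by
  intro n
  by_cases h : n ∈ R
  · right
    simp [res, h]
  · left
    simp [res, h]

/-- (B1) -/
theorem Sys.res_close {F : Phi → ℕ → ℝ} {m ε K : ℝ} (hF : Sys F m ε K) (hε : 0 < ε)
    (R : Set ℕ) (f e : Phi) (t : ℕ) (he : ∀ n, e n ≠ 0 → n ∈ R) :
    ∀ᶠ r in atTop, r ∈ X F m ε t e → |F f r - F (res R f) r| ≤ (t + 2) * ε := by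
  have hd : Disj e (res Rᶜ f) := by
    intro n
    by_cases h : e n = 0
    · exact Or.inl h
    · right
      simp [res, he n h]
  have hδ : 0 < ε / 3 := by positivity
  have h0 := hF.add _ _ (split_disj R f)
  rw [split R f] at h0
  filter_upwards [two_disj hF hd hδ, ev_small h0 hδ] with r h1 h2 h3
  have h3' : m - t * ε < |F e r| := h3
  have h4 : |F f r - F (res R f) r| ≤ |F f r - F (res R f) r - F (res Rᶜ f) r| +
      |F (res Rᶜ f) r| := by
    have := abs_add_le (F f r - F (res R f) r - F (res Rᶜ f) r) (F (res Rᶜ f) r)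
    rwa [sub_add_cancel] at this
  linarith

/-- (B2) -/
theorem Sys.X_up {F : Phi → ℕ → ℝ} {m ε K : ℝ} (hF : Sys F m ε K) (hε : 0 < ε)
    (R : Set ℕ) (f : Phi) (t : ℕ) :
    ∀ᶠ r in atTop, r ∈ X F m ε t (res R f) → r ∈ X F m ε (2 * t + 2) f := by
  have hδ : 0 < ε / 3 := by positivity
  have h0 := hF.add _ _ (split_disj R f)
  rw [split R f] at h0
  filter_upwards [two_disj hF (split_disj R f) hδ, ev_small h0 hδ] with r h1 h2 h3
  have h3' : m - t * ε < |F (res R f) r| := h3
  change m - ((2 * t + 2 : ℕ) : ℝ) * ε < |F f r|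
  push_cast
  have h4 : |F (res R f) r| ≤ |F f r| + |F f r - F (res R f) r - F (res Rᶜ f) r| +
      |F (res Rᶜ f) r| := by
    have e1 : F (res R f) r = F f r - (F f r - F (res R f) r - F (res Rᶜ f) r) -
      F (res Rᶜ f) r := by ring
    calc |F (res R f) r| = |F f r - (F f r - F (res R f) r - F (res Rᶜ f) r) -
        F (res Rᶜ f) r| := by rw [← e1]
      _ ≤ |F f r - (F f r - F (res R f) r - F (res Rᶜ f) r)| + |F (res Rᶜ f) r| := abs_sub _ _
      _ ≤ _ := by
        have := abs_sub (F f r) (F f r - F (res R f) r - F (res Rᶜ f) r)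
        linarith
  nlinarith

/-- (B3) -/
theorem Sys.extend {F : Phi → ℕ → ℝ} {m ε K : ℝ} (hF : Sys F m ε K) {j : ℕ → ℕ}
    (hj : Function.Injective j) (f c : Phi) :
    Tendsto (fun r => F (Function.extend j f c) r - F (push j f) r -
      F (Function.extend j (fun _ => 0) c) r) atTop (𝓝 0) := by
  have hd : Disj (Pool.Agent.LC.push j f) (Function.extend j (fun _ => 0) c) := by
    intro n
    by_cases h : ∃ a, j a = n
    · obtain ⟨a, rfl⟩ := h
      right
      exact hj.extend_apply _ _ _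
    · left
      exact Function.extend_apply' _ _ _ h
  have hjoin : join (Pool.Agent.LC.push j f) (Function.extend j (fun _ => 0) c) =
      Function.extend j f c := by
    funext n
    by_cases h : ∃ a, j a = n
    · obtain ⟨a, rfl⟩ := h
      have h1 : Pool.Agent.LC.push j f (j a) = f a := hj.extend_apply _ _ _
      have h2 : Function.extend j (fun _ => (0 : Fin 3)) c (j a) = 0 := hj.extend_apply _ _ _
      have h3 : Function.extend j f c (j a) = f a := hj.extend_apply _ _ _
      simp only [join, h1, h2, h3]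
      split_ifs with h0
      · exact h0.symm
      · rfl
    · have h1 : Pool.Agent.LC.push j f n = 0 := Function.extend_apply' _ _ _ h
      have h2 : Function.extend j (fun _ => (0 : Fin 3)) c n = c n :=
        Function.extend_apply' _ _ _ h
      have h3 : Function.extend j f c n = c n := Function.extend_apply' _ _ _ h
      simp only [join, h1, h2, h3, if_true]
  have := hF.add _ _ hd
  rwa [hjoin] at this

/-- (B4) -/
theorem Sys.push {F : Phi → ℕ → ℝ} {m ε K : ℝ} (hF : Sys F m ε K) {j : ℕ → ℕ}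
    (hj : Function.Injective j) : Sys (Fp F j) m ε K := by
  have hon : ∀ (f : Phi) (a : ℕ), Pool.Agent.LC.push j f (j a) = f a := fun f a =>
    hj.extend_apply _ _ _
  have hoff : ∀ (f : Phi) (n : ℕ), (¬ ∃ a, j a = n) → Pool.Agent.LC.push j f n = 0 := fun f n h =>
    Function.extend_apply' _ _ _ h
  refine ⟨fun f g hfg => ?_, fun f => ?_, fun f g hfg => ?_, fun f r => hF.bdd _ r,
    fun f => hF.upper _, fun A hA => ?_⟩
  · have hd : Disj (Pool.Agent.LC.push j f) (Pool.Agent.LC.push j g) := by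
      intro n
      by_cases h : ∃ a, j a = n
      · obtain ⟨a, rfl⟩ := h
        rw [hon, hon]
        exact hfg a
      · exact Or.inl (hoff _ _ h)
    have hjoin : join (Pool.Agent.LC.push j f) (Pool.Agent.LC.push j g) =
        Pool.Agent.LC.push j (join f g) := by
      funext n
      by_cases h : ∃ a, j a = n
      · obtain ⟨a, rfl⟩ := h
        rw [hon]
        simp only [join, hon]
      · rw [hoff _ _ h]
        simp only [join, hoff _ _ h, if_true]
    have := hF.add _ _ hd
    rwa [hjoin] at this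
  · have hneg : (fun n => neg3 (Pool.Agent.LC.push j f n)) =
        Pool.Agent.LC.push j (fun n => neg3 (f n)) := by
      funext n
      by_cases h : ∃ a, j a = n
      · obtain ⟨a, rfl⟩ := h
        rw [hon, hon]
      · rw [hoff _ _ h, hoff _ _ h]
        rfl
    have := hF.neg (Pool.Agent.LC.push j f)
    rwa [hneg] at this
  · refine hF.fin _ _ ((hfg.image j).subset fun n hn => ?_)
    by_cases h : ∃ a, j a = n
    · obtain ⟨a, rfl⟩ := h
      refine ⟨a, ?_, rfl⟩
      rw [mem_ofPred_eq, hon, hon] at hn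
      exact hn
    · exact absurd (by rw [hoff _ _ h, hoff _ _ h]) hn
  · obtain ⟨e, he, hfr⟩ := hF.lower (j '' A) (hA.image hj.injOn)
    have hpe : Pool.Agent.LC.push j (fun n => e (j n)) = e := by
      funext n
      by_cases h : ∃ a, j a = n
      · obtain ⟨a, rfl⟩ := h
        rw [hon]
      · rw [hoff _ _ h]
        by_contra hne
        obtain ⟨a, _, ha⟩ := he n (fun h' => hne h'.symm)
        exact h ⟨a, ha⟩
    refine ⟨fun n => e (j n), fun n hn => ?_, ?_⟩
    · obtain ⟨a, ha, haj⟩ := he _ hn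
      rwa [← hj haj]
    · change ∃ᶠ r in atTop, m - ε < |F (Pool.Agent.LC.push j (fun n => e (j n))) r|
      rwa [hpe]

/-- (B5) -/
theorem Desc.push {F : Phi → ℕ → ℝ} {m ε : ℝ} {t C : ℕ} {O : List (Fin 3) → ℕ → ℤ → Set Phi}
    (hO : Desc F m ε t C O) (j : ℕ → ℕ) :
    Desc (Fp F j) m ε t C (fun q r v => {b | Pool.Agent.LC.push j b ∈ O q r v}) := by
  refine ⟨fun q r v => (hO.isOpen q r v).preimage (continuous_push j),
    fun q q' r v h b hb => hO.mono q q' r v h hb, fun e b q0 => ?_, fun e b q => ?_⟩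
  · exact hO.total (Pool.Agent.LC.push j e) (Pool.Agent.LC.push j b) q0
  · exact hO.correct (Pool.Agent.LC.push j e) (Pool.Agent.LC.push j b) q

end Pool.Agent.LC
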