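import Pool.Agent.LC.BasicA

open Filter Topology Set

namespace Pool.Agent.LC

theorem br_eq_iff (x y : ℕ → Bool) (n k : ℕ) :
    br x n = br y k ↔ n = k ∧ ∀ i < n, x i = y i := by
  unfold br
  constructor
  · intro h
    have h1 := Encodable.encode_injective h
    have h2 : n = k := by
      have := congrArg List.length h1
      simpa using this
    subst h2
    have h3 := List.ofFn_injective h1
    exact ⟨rfl, fun i hi => congrFun h3 ⟨i, hi⟩⟩
  · rintro ⟨rfl, h⟩
    congr 2
    funext i
    exact h i i.2

theorem br_injective (x : ℕ → Bool) : Function.Injective (br x) := fun n k h =>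
  ((br_eq_iff x x n k).1 h).1

open Classical in
theorem amalgam {ι : Type*} (x : ι → ℕ → Bool) (f : ι → Phi)
    (hcoh : ∀ i i' n, br (x i) n = br (x i') n → f i n = f i' n) :
    ∃ h : Phi, ∀ i n, h (br (x i) n) = f i n := by
  refine ⟨fun m => if hh : ∃ i n, br (x i) n = m then f hh.choose hh.choose_spec.choose else 0,
    fun i n => ?_⟩
  have hh : ∃ i' n', br (x i') n' = br (x i) n := ⟨i, n, rfl⟩
  simp only [dif_pos hh]
  have h1 := hh.choose_spec.choose_spec
  have h2 : hh.choose_spec.choose = n := ((br_eq_iff _ _ _ _).1 h1).1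
  rw [h2] at h1 ⊢
  exact hcoh _ _ _ h1

open Classical in
theorem amalgam_disj (R : ℕ → Set ℕ) (hR : Pairwise (fun i i' => Disjoint (R i) (R i')))
    (a : ℕ → Phi) (ha : ∀ n l, a n l ≠ 0 → l ∈ R n) : ∃ e : Phi, ∀ n, res (R n) e = a n := by
  refine ⟨fun m => if h : ∃ n, m ∈ R n then a h.choose m else 0, fun n => ?_⟩
  funext m
  simp only [res]
  by_cases hm : m ∈ R n
  · have h : ∃ n, m ∈ R n := ⟨n, hm⟩
    rw [if_pos hm, dif_pos h]
    have h1 : h.choose = n := by
      by_contra hne
      exact (Set.disjoint_left.1 (hR hne)) h.choose_spec hm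
    rw [h1]
  · rw [if_neg hm]
    by_contra h0
    exact hm (ha n m (Ne.symm h0))

/-- The map sending a branch and a function on it to the function on the tree is continuous. -/
theorem continuous_push_br :
    Continuous (fun p : (ℕ → Bool) × Phi => push (br p.1) p.2) := by
  classical
  refine continuous_pi fun m => ?_
  by_cases hm : ∃ l : List Bool, Encodable.encode l = m
  · obtain ⟨l, rfl⟩ := hm
    let φ : (Fin l.length → Bool) × Fin 3 → Fin 3 := fun q => if List.ofFn q.1 = l then q.2 else 0
    have h1 : (fun p : (ℕ → Bool) × Phi => push (br p.1) p.2 (Encodable.encode l))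
        = φ ∘ (fun p : (ℕ → Bool) × Phi => ((fun i : Fin l.length => p.1 i), p.2 l.length)) := by
      funext p
      simp only [φ, Function.comp]
      by_cases h : List.ofFn (fun i : Fin l.length => p.1 i) = l
      · rw [if_pos h]
        have h2 : br p.1 l.length = Encodable.encode l := by unfold br; rw [h]
        rw [← h2]
        exact (br_injective p.1).extend_apply _ _ _
      · rw [if_neg h]
        unfold push
        rw [Function.extend_apply']
        rintro ⟨n, hn⟩
        unfold br at hn
        have h3 := Encodable.encode_injective hn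
        have h4 : n = l.length := by
          have := congrArg List.length h3
          simpa using this
        subst h4
        exact h h3
    rw [h1]
    exact continuous_of_discreteTopology.comp (by fun_prop)
  · have h1 : (fun p : (ℕ → Bool) × Phi => push (br p.1) p.2 m) = fun _ => 0 := by
      funext p
      unfold push
      rw [Function.extend_apply']
      rintro ⟨n, hn⟩
      exact hm ⟨_, hn⟩
    rw [h1]
    exact continuous_const

/-- The set of pairs of distinct branches with functions which agree on the common part. -/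
theorem isOpen_coh :
    IsOpen {p : ((ℕ → Bool) × Phi) × ((ℕ → Bool) × Phi) | p.1.1 ≠ p.2.1 ∧
      ∀ l, br p.1.1 l = br p.2.1 l → p.1.2 l = p.2.2 l} := by
  let A : ℕ → Type := fun N => ((Fin (N + 1) → Bool) × (Fin (N + 1) → Fin 3)) ×
    ((Fin (N + 1) → Bool) × (Fin (N + 1) → Fin 3))
  have heq : {p : ((ℕ → Bool) × Phi) × ((ℕ → Bool) × Phi) | p.1.1 ≠ p.2.1 ∧
      ∀ l, br p.1.1 l = br p.2.1 l → p.1.2 l = p.2.2 l}
      = ⋃ N : ℕ, (fun p : ((ℕ → Bool) × Phi) × ((ℕ → Bool) × Phi) =>
          (((fun i : Fin (N + 1) => p.1.1 i), (fun i : Fin (N + 1) => p.1.2 i)),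
            ((fun i : Fin (N + 1) => p.2.1 i), (fun i : Fin (N + 1) => p.2.2 i)))) ⁻¹'
        {q | q.1.1 (Fin.last N) ≠ q.2.1 (Fin.last N) ∧
          ∀ l : Fin (N + 1), (∀ i : Fin (N + 1), i < l → q.1.1 i = q.2.1 i) →
            q.1.2 l = q.2.2 l} := by
    ext p
    simp only [mem_ofPred_eq, mem_iUnion, mem_preimage, Fin.val_last]
    constructor
    · rintro ⟨hne, h⟩
      obtain ⟨N, hN⟩ := Function.ne_iff.1 hne
      refine ⟨N, hN, fun l hl => h l ((br_eq_iff _ _ _ _).2 ⟨rfl, fun i hi => ?_⟩)⟩
      exact hl ⟨i, lt_trans hi l.2⟩ hi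
    · rintro ⟨N, hN, h⟩
      refine ⟨fun heq => hN (congrFun heq N), fun l hl => ?_⟩
      have h1 := ((br_eq_iff _ _ _ _).1 hl).2
      have h2 : l < N + 1 := by
        by_contra hlt
        exact hN (h1 N (by omega))
      exact h ⟨l, h2⟩ fun i hi => h1 i hi
  rw [heq]
  refine isOpen_iUnion fun N => (isOpen_discrete _).preimage ?_
  fun_prop

end Pool.Agent.LC
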