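import Pool.Agent.LC.BasicA

open Filter Topology Set

namespace Pool.Agent.LC

/-- A weak form of the Kuratowski-Ulam theorem. -/
theorem ku {A B : Type*} [TopologicalSpace A] [TopologicalSpace B] [SecondCountableTopology B]
    (Ω : Set (A × B)) (ho : IsOpen Ω) (hd : Dense Ω) :
    ∀ᶠ a in residual A, ∀ᶠ b in residual B, (a, b) ∈ Ω := by
  have h1 : ∀ V ∈ TopologicalSpace.countableBasis B,
      ∀ᶠ a in residual A, ∃ b ∈ V, (a, b) ∈ Ω := by
    intro V hV
    have hVo : IsOpen V := TopologicalSpace.isOpen_of_mem_countableBasis hV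
    have hVn : V.Nonempty := TopologicalSpace.nonempty_of_mem_countableBasis hV
    refine residual_of_dense_open ?_ ?_
    · have : {a : A | ∃ b ∈ V, (a, b) ∈ Ω} = Prod.fst '' (Ω ∩ (univ ×ˢ V)) := by
        ext a
        constructor
        · rintro ⟨b, hb, hab⟩
          exact ⟨(a, b), ⟨hab, mem_univ _, hb⟩, rfl⟩
        · rintro ⟨⟨a', b⟩, ⟨hab, _, hb⟩, rfl⟩
          exact ⟨b, hb, hab⟩
      rw [this]
      exact isOpenMap_fst _ (ho.inter (isOpen_univ.prod hVo))
    · rw [dense_iff_inter_open]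
      intro W hW hWn
      obtain ⟨⟨a, b⟩, ⟨ha, hb⟩, hab⟩ := dense_iff_inter_open.1 hd (W ×ˢ V) (hW.prod hVo)
        (hWn.prod hVn)
      exact ⟨a, ha, b, hb, hab⟩
  have h2 : ∀ᶠ a in residual A, ∀ V ∈ TopologicalSpace.countableBasis B, ∃ b ∈ V, (a, b) ∈ Ω :=
    (eventually_countable_ball (TopologicalSpace.countable_countableBasis B)).2 h1
  filter_upwards [h2] with a ha
  refine residual_of_dense_open (ho.preimage (Continuous.prodMk_right a)) ?_
  rw [(TopologicalSpace.isBasis_countableBasis B).dense_iff]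
  intro V hV _
  obtain ⟨b, hb, hab⟩ := ha V hV
  exact ⟨b, hb, hab⟩

theorem cyl_open (p : List (Fin 3)) : IsOpen (cyl p) := by
  have : cyl p = (Set.Iio p.length).pi (fun i => {p.getD i 0}) := by
    ext g
    constructor
    · intro h i hi
      rw [mem_singleton_iff, h i hi, List.getD_eq_getElem _ _ hi]
    · intro h i hi
      have := h i hi
      rwa [mem_singleton_iff, List.getD_eq_getElem _ _ hi] at this
  rw [this]
  exact isOpen_set_pi (finite_Iio _) fun _ _ => isOpen_discrete _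

theorem cyl_mono {p q : List (Fin 3)} (h : p <+: q) : cyl q ⊆ cyl p := by
  intro g hg i hi
  rw [hg i (hi.trans_le h.length_le)]
  exact (h.getElem hi).symm

theorem cyl_nonempty (p : List (Fin 3)) : (cyl p).Nonempty :=
  ⟨fun i => p.getD i 0, fun _ hi => List.getD_eq_getElem _ _ hi⟩

private lemma level' {W : Set Phi} (hW : IsOpen W) {x : Phi} (hx : x ∈ W) :
    ∃ M : ℕ, ∀ y : Phi, (∀ n < M, y n = x n) → y ∈ W := by
  obtain ⟨I, u, h1, h2⟩ := isOpen_pi_iff.1 hW x hx
  refine ⟨I.sup id + 1, fun y hy => h2 fun n hn => ?_⟩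
  rw [hy n (Nat.lt_succ_of_le (Finset.le_sup (f := id) hn))]
  exact (h1 n hn).2

/-- every nonempty open subset of a cylinder contains a smaller cylinder -/
theorem exists_cyl_subset {W : Set Phi} (hW : IsOpen W) {p : List (Fin 3)}
    (h : (W ∩ cyl p).Nonempty) : ∃ q, p <+: q ∧ cyl q ⊆ W := by
  obtain ⟨g, hgW, hgp⟩ := h
  obtain ⟨M, hM⟩ := level' hW hgW
  refine ⟨List.ofFn (fun i : Fin (M + p.length) => g i), ?_, fun y hy => hM y fun n hn => ?_⟩
  · rw [List.prefix_iff_eq_take]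
    apply List.ext_getElem
    · simp
    · intro i h1 h2
      rw [List.getElem_take, List.getElem_ofFn]
      exact (hgp i h1).symm
  · have := hy n (by simp; omega)
    rw [this, List.getElem_ofFn]

/-- a residual property holds somewhere in every cylinder -/
theorem exists_mem_cyl {D : Set Phi} (hD : ∀ᶠ g in residual Phi, g ∈ D) (p : List (Fin 3)) :
    ∃ g ∈ cyl p, g ∈ D := by
  obtain ⟨g, h1, h2⟩ := dense_iff_inter_open.1 (dense_of_mem_residual hD) (cyl p) (cyl_open p)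
    (cyl_nonempty p)
  exact ⟨g, h1, h2⟩

/-- if countably many sets cover a residual set, one of them is dense in a cylinder -/
theorem exists_dense_cyl (Γ : ℕ → Set Phi) (hΓ : ∀ᶠ g in residual Phi, ∃ k, g ∈ Γ k)
    (p : List (Fin 3)) : ∃ q, p <+: q ∧ ∃ k, cyl q ⊆ closure (Γ k ∩ cyl q) := by
  by_contra hcon
  push Not at hcon
  have h1 : ∀ k, ∀ᶠ g in residual Phi, g ∈ (closure (Γ k ∩ cyl p))ᶜ := by
    intro k
    refine residual_of_dense_open isClosed_closure.isOpen_compl ?_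
    rw [dense_iff_inter_open]
    intro W hW hWn
    by_cases hWp : (W ∩ cyl p).Nonempty
    · obtain ⟨q, hpq, hqW⟩ := exists_cyl_subset hW hWp
      obtain ⟨g, hgq, hg⟩ := Set.not_subset.1 (hcon q hpq k)
      refine ⟨g, hqW hgq, fun hg' => hg ?_⟩
      rw [mem_closure_iff] at hg' ⊢
      intro o ho hgo
      obtain ⟨y, ⟨hy1, hy2⟩, hy3, hy4⟩ := hg' (o ∩ cyl q) (ho.inter (cyl_open q)) ⟨hgo, hgq⟩
      exact ⟨y, hy1, hy3, hy2⟩
    · obtain ⟨g, hg⟩ := hWn
      refine ⟨g, hg, fun hg' => hWp ?_⟩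
      obtain ⟨y, hy1, hy2, hy3⟩ := mem_closure_iff.1 hg' W hW hg
      exact ⟨y, hy1, hy3⟩
  obtain ⟨g, hgp, hg1, hg2⟩ := exists_mem_cyl
    (D := {g | (∀ k, g ∈ (closure (Γ k ∩ cyl p))ᶜ) ∧ ∃ k, g ∈ Γ k})
    ((eventually_countable_forall.2 h1).and hΓ) p
  obtain ⟨k, hk⟩ := hg2
  exact hg1 k (subset_closure ⟨hk, hgp⟩)

end Pool.Agent.LC
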