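import Pool.Agent.LC.Defs

open Filter Topology Set

namespace Pool.Agent.LC

/-- `F` transported along `j`. -/
noncomputable abbrev Fp (F : Phi → ℕ → ℝ) (j : ℕ → ℕ) : Phi → ℕ → ℝ := fun f => F (push j f)

theorem X_mono (F : Phi → ℕ → ℝ) {m ε : ℝ} (hε : 0 ≤ ε) {t t' : ℕ} (h : t ≤ t') (e : Phi) :
    X F m ε t e ⊆ X F m ε t' e := by
  intro r hr
  simp only [X, Set.mem_ofPred_eq] at hr ⊢
  have h1 : (t : ℝ) ≤ (t' : ℝ) := by exact_mod_cast h
  have h2 : (t : ℝ) * ε ≤ (t' : ℝ) * ε := mul_le_mul_of_nonneg_right h1 hε
  linarith

theorem push_apply {j : ℕ → ℕ} (hj : Function.Injective j) (f : Phi) (n : ℕ) :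
    push j f (j n) = f n := by
  unfold push
  exact hj.extend_apply f _ n

theorem push_off {j : ℕ → ℕ} (f : Phi) {n : ℕ} (hn : n ∉ range j) : push j f n = 0 := by
  unfold push
  rw [Function.extend_apply']
  rintro ⟨a, ha⟩
  exact hn ⟨a, ha⟩

theorem push_push {j j' : ℕ → ℕ} (hj : Function.Injective j) (hj' : Function.Injective j')
    (f : Phi) : push j (push j' f) = push (j ∘ j') f := by
  funext n
  by_cases hn : n ∈ range j
  · obtain ⟨a, rfl⟩ := hn
    rw [push_apply hj]
    by_cases ha : a ∈ range j'
    · obtain ⟨b, rfl⟩ := ha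
      rw [push_apply hj']
      exact (push_apply (hj.comp hj') f b).symm
    · rw [push_off f ha, push_off f]
      rintro ⟨c, hc⟩
      exact ha ⟨c, hj hc⟩
  · rw [push_off _ hn, push_off f]
    rintro ⟨c, hc⟩
    exact hn ⟨j' c, hc⟩

theorem res_range_extend {j : ℕ → ℕ} (hj : Function.Injective j) (f c : Phi) :
    res (range j) (Function.extend j f c) = push j f := by
  funext n
  by_cases hn : n ∈ range j
  · obtain ⟨a, rfl⟩ := hn
    rw [push_apply hj]
    simp only [res, Set.mem_range_self, if_true]
    exact hj.extend_apply f c a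
  · rw [push_off f hn]
    simp only [res, if_neg hn]

theorem res_range_of_eq {j : ℕ → ℕ} (hj : Function.Injective j) (h f : Phi)
    (hh : ∀ n, h (j n) = f n) : res (range j) h = push j f := by
  funext n
  by_cases hn : n ∈ range j
  · obtain ⟨a, rfl⟩ := hn
    rw [push_apply hj]
    simp only [res, Set.mem_range_self, if_true]
    exact hh a
  · rw [push_off f hn]
    simp only [res, if_neg hn]

/-- Restriction to the image of `R` corresponds to restriction to `R`. -/
theorem res_image_extend {j : ℕ → ℕ} (hj : Function.Injective j) (R : Set ℕ) (f c : Phi) :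
    res (j '' R) (Function.extend j f c) = push j (res R f) := by
  funext n
  by_cases hn : n ∈ range j
  · obtain ⟨a, rfl⟩ := hn
    rw [push_apply hj]
    by_cases ha : a ∈ R
    · have h1 : j a ∈ j '' R := ⟨a, ha, rfl⟩
      simp only [res, if_pos h1, if_pos ha]
      exact hj.extend_apply f c a
    · have h1 : j a ∉ j '' R := by
        rintro ⟨b, hb, hb'⟩
        exact ha (hj hb' ▸ hb)
      simp only [res, if_neg h1, if_neg ha]
  · rw [push_off _ hn]
    have hn' : n ∉ j '' R := by
      rintro ⟨a, -, ha⟩
      exact hn ⟨a, ha⟩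
    simp only [res, if_neg hn']

theorem continuous_extend (j : ℕ → ℕ) (c : Phi) :
    Continuous (fun f : Phi => (Function.extend j f c : Phi)) := by
  classical
  refine continuous_pi fun n => ?_
  by_cases hn : ∃ a, j a = n
  · have : (fun f : Phi => Function.extend j f c n) = fun f : Phi => f (Classical.choose hn) := by
      funext f
      unfold Function.extend
      rw [dif_pos hn]
    rw [this]
    exact continuous_apply _
  · have : (fun f : Phi => Function.extend j f c n) = fun _ : Phi => c n := by
      funext f
      exact Function.extend_apply' f c n hn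
    rw [this]
    exact continuous_const

theorem continuous_push (j : ℕ → ℕ) : Continuous (push j) :=
  continuous_extend j (fun _ => 0)

theorem continuous_mix (R : Set ℕ) : Continuous (fun p : Phi × Phi => mix R p.1 p.2) := by
  refine continuous_pi fun n => ?_
  by_cases hn : n ∈ R
  · simp only [mix, if_pos hn]
    exact (continuous_apply n).comp continuous_fst
  · simp only [mix, if_neg hn]
    exact (continuous_apply n).comp continuous_snd

theorem continuous_res (R : Set ℕ) : Continuous (res R) := by
  refine continuous_pi fun n => ?_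
  by_cases hn : n ∈ R
  · simp only [res, if_pos hn]
    exact continuous_apply n
  · simp only [res, if_neg hn]
    exact continuous_const

end Pool.Agent.LC
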