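import Pool.Agent.LC.BetaDefs

/-!
Facts about the Stone-Cech compactification of the natural numbers and its remainder, and the
lifting of bounded operators on the continuous functions on the remainder.
-/

open Filter Topology Set
open scoped BoundedContinuousFunction

namespace Pool.Agent.LC

theorem unit_inj : Function.Injective (stoneCechUnit : ℕ → StoneCech ℕ) := by
  intro a b hab
  have hc : Continuous (fun n : ℕ => decide (n = a)) := continuous_of_discreteTopology
  have := eq_if_stoneCechUnit_eq hc hab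
  simp only [decide_true] at this
  exact (of_decide_eq_true this.symm).symm

/-- the continuous Boolean valued extension of the indicator -/
noncomputable def bext (A : Set ℕ) : StoneCech ℕ → Bool := by
  classical
  exact stoneCechExtend (g := fun n : ℕ => decide (n ∈ A)) continuous_of_discreteTopology

theorem bext_continuous (A : Set ℕ) : Continuous (bext A) := continuous_stoneCechExtend _

theorem bext_unit (A : Set ℕ) (n : ℕ) : bext A (stoneCechUnit n) = true ↔ n ∈ A := by
  classical
  unfold bext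
  rw [stoneCechExtend_stoneCechUnit]
  simp

/-- every open set containing `x` contains units -/
theorem exists_unit {V : Set (StoneCech ℕ)} (hV : IsOpen V) (hne : V.Nonempty) :
    ∃ n : ℕ, stoneCechUnit n ∈ V := by
  obtain ⟨_, hy, n, rfl⟩ := denseRange_stoneCechUnit.inter_open_nonempty V hV hne
  exact ⟨n, hy⟩

theorem mem_clo_of_open {V : Set (StoneCech ℕ)} (hV : IsOpen V) {x : StoneCech ℕ} (hx : x ∈ V) :
    x ∈ clo {n | stoneCechUnit n ∈ V} := by
  rw [clo, mem_closure_iff]
  intro W hW hxW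
  obtain ⟨n, hn⟩ := exists_unit (hV.inter hW) ⟨x, hx, hxW⟩
  exact ⟨stoneCechUnit n, hn.2, n, hn.1, rfl⟩

theorem clo_eq (A : Set ℕ) : clo A = bext A ⁻¹' {true} := by
  apply subset_antisymm
  · refine closure_minimal ?_ ((isClosed_discrete _).preimage (bext_continuous A))
    rintro _ ⟨n, hn, rfl⟩
    exact (bext_unit A n).2 hn
  · intro x hx
    have ho : IsOpen (bext A ⁻¹' {true}) := (isOpen_discrete _).preimage (bext_continuous A)
    have := mem_clo_of_open ho hx
    refine closure_mono ?_ this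
    refine image_mono ?_
    intro n hn
    exact (bext_unit A n).1 hn

theorem clo_isOpen (A : Set ℕ) : IsOpen (clo A) := by
  rw [clo_eq]
  exact (isOpen_discrete _).preimage (bext_continuous A)

theorem clo_isClosed (A : Set ℕ) : IsClosed (clo A) := isClosed_closure

theorem unit_mem_clo {A : Set ℕ} {n : ℕ} : stoneCechUnit n ∈ clo A ↔ n ∈ A := by
  rw [clo_eq]
  exact bext_unit A n

theorem clo_mono {A B : Set ℕ} (h : A ⊆ B) : clo A ⊆ clo B := closure_mono (image_mono h)

theorem clo_inter (A B : Set ℕ) : clo A ∩ clo B = clo (A ∩ B) := by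
  apply subset_antisymm
  · intro x hx
    have := mem_clo_of_open ((clo_isOpen A).inter (clo_isOpen B)) hx
    refine clo_mono ?_ this
    intro n hn
    exact ⟨unit_mem_clo.1 hn.1, unit_mem_clo.1 hn.2⟩
  · exact subset_inter (clo_mono inter_subset_left) (clo_mono inter_subset_right)

theorem clo_univ : clo univ = univ := by
  rw [clo, image_univ]
  exact denseRange_stoneCechUnit.closure_range

theorem clo_union_compl (A : Set ℕ) (x : StoneCech ℕ) : x ∈ clo A ∨ x ∈ clo Aᶜ := by
  have : x ∈ clo univ := by rw [clo_univ]; trivial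
  rw [← union_compl_self A, clo, image_union, closure_union] at this
  exact this

theorem clo_finite {A : Set ℕ} (hA : A.Finite) : clo A = stoneCechUnit '' A :=
  (hA.image _).isClosed.closure_eq

theorem not_mem_clo_of_finite {A : Set ℕ} (hA : A.Finite) {x : StoneCech ℕ} (hx : x ∈ Nstar) :
    x ∉ clo A := by
  rw [clo_finite hA]
  rintro ⟨n, -, rfl⟩
  exact hx ⟨n, rfl⟩

theorem mem_clo_of_cofinite {A : Set ℕ} (hA : Aᶜ.Finite) {x : StoneCech ℕ} (hx : x ∈ Nstar) :
    x ∈ clo A := (clo_union_compl A x).resolve_right (not_mem_clo_of_finite hA hx)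

theorem unit_isOpen (n : ℕ) : IsOpen {(stoneCechUnit n : StoneCech ℕ)} := by
  have := clo_isOpen {n}
  rwa [clo_finite (finite_singleton n), image_singleton] at this

theorem Nstar_isClosed : IsClosed Nstar := by
  rw [Nstar, isClosed_compl_iff, ← iUnion_singleton_eq_range]
  exact isOpen_iUnion unit_isOpen

theorem exists_star {A : Set ℕ} (hA : A.Infinite) : ∃ x ∈ Nstar, x ∈ clo A := by
  by_contra hcon
  push Not at hcon
  have h1 : clo A ⊆ ⋃ n : ℕ, {(stoneCechUnit n : StoneCech ℕ)} := by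
    intro x hx
    by_contra h
    refine hcon x ?_ hx
    rintro ⟨n, rfl⟩
    exact h (mem_iUnion.2 ⟨n, rfl⟩)
  obtain ⟨t, ht⟩ := (clo_isClosed A).isCompact.elim_finite_subcover _ unit_isOpen h1
  refine hA (t.finite_toSet.subset ?_)
  intro n hn
  have h2 := ht (unit_mem_clo.2 hn)
  simp only [mem_iUnion, mem_singleton_iff] at h2
  obtain ⟨k, hk, hk2⟩ := h2
  rw [unit_inj hk2]
  exact hk

/-- A continuous function which is small on a set is small on its closure. -/
theorem le_of_mem_clo {G : C(StoneCech ℕ, ℝ)} {A : Set ℕ} {c a : ℝ}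
    (h : ∀ n ∈ A, |G (stoneCechUnit n) - a| ≤ c) {x : StoneCech ℕ} (hx : x ∈ clo A) :
    |G x - a| ≤ c := by
  have hcl : IsClosed {x | |G x - a| ≤ c} := isClosed_le (by fun_prop) continuous_const
  have hsub : clo A ⊆ {x | |G x - a| ≤ c} := by
    refine closure_minimal ?_ hcl
    rintro _ ⟨n, hn, rfl⟩
    exact h n hn
  exact hsub hx

theorem abs_le_everywhere {G : C(StoneCech ℕ, ℝ)} {c : ℝ}
    (h : ∀ n : ℕ, |G (stoneCechUnit n)| ≤ c) (x : StoneCech ℕ) : |G x| ≤ c := by
  have := le_of_mem_clo (G := G) (A := univ) (a := 0) (c := c) (fun n _ => by simpa using h n)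
    (x := x) (by rw [clo_univ]; trivial)
  simpa using this

/-- extension of a bounded function -/
theorem exists_ext {f : ℕ → ℝ} (hf : Bdd f) :
    ∃ G : C(StoneCech ℕ, ℝ), ∀ n, G (stoneCechUnit n) = f n := by
  obtain ⟨M, hM⟩ := hf
  have hmem : ∀ n, f n ∈ Icc (-M) M := fun n => abs_le.1 (hM n)
  have hc : Continuous (fun n : ℕ => (⟨f n, hmem n⟩ : Icc (-M) M)) :=
    continuous_of_discreteTopology
  refine ⟨⟨fun x => ((stoneCechExtend hc x : Icc (-M) M) : ℝ),
    continuous_subtype_val.comp (continuous_stoneCechExtend hc)⟩, ?_⟩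
  intro n
  change ((stoneCechExtend hc (stoneCechUnit n) : Icc (-M) M) : ℝ) = f n
  rw [stoneCechExtend_stoneCechUnit]

theorem ext_unique {G H : C(StoneCech ℕ, ℝ)}
    (h : ∀ n : ℕ, G (stoneCechUnit n) = H (stoneCechUnit n)) : G = H := by
  ext x
  have := stoneCech_hom_ext G.continuous H.continuous (funext h)
  exact congrFun this x

/-- A continuous function vanishing on the remainder is null along the natural numbers. -/
theorem tendsto_of_zero_on {G : C(StoneCech ℕ, ℝ)} (h : ∀ x ∈ Nstar, G x = 0) :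
    Tendsto (fun n => G (stoneCechUnit n)) atTop (𝓝 0) := by
  rw [Metric.tendsto_nhds]
  intro ε hε
  rw [← Nat.cofinite_eq_atTop]
  change {n : ℕ | ¬ dist (G (stoneCechUnit n)) 0 < ε}.Finite
  by_contra hinf
  obtain ⟨x, hx, hxc⟩ := exists_star hinf
  have h1 : IsClosed {x | ε ≤ |G x|} := isClosed_le continuous_const (by fun_prop)
  have h2 : clo {n : ℕ | ¬ dist (G (stoneCechUnit n)) 0 < ε} ⊆ {x | ε ≤ |G x|} := by
    refine closure_minimal ?_ h1
    rintro _ ⟨n, hn, rfl⟩
    have hn' : ¬ dist (G (stoneCechUnit n)) 0 < ε := hn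
    rw [Real.dist_eq, sub_zero, not_lt] at hn'
    exact hn'
  have h3 : ε ≤ |G x| := h2 hxc
  rw [h x hx, abs_zero] at h3
  linarith

/-- The extension of a null sequence vanishes on the remainder. -/
theorem zero_on_of_tendsto {G : C(StoneCech ℕ, ℝ)}
    (h : Tendsto (fun n => G (stoneCechUnit n)) atTop (𝓝 0)) : ∀ x ∈ Nstar, G x = 0 := by
  intro x hx
  have key : ∀ ε > 0, |G x| ≤ ε := by
    intro ε hε
    have h1 := (Metric.tendsto_nhds.1 h) ε hε
    rw [← Nat.cofinite_eq_atTop] at h1
    have h2 : {n : ℕ | dist (G (stoneCechUnit n)) 0 < ε}ᶜ.Finite := h1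
    have h3 := mem_clo_of_cofinite h2 hx
    have := le_of_mem_clo (G := G) (a := 0) (c := ε) (fun n hn => by
      have hn' : dist (G (stoneCechUnit n)) 0 < ε := hn
      rw [Real.dist_eq] at hn'
      exact hn'.le) h3
    simpa using this
  by_contra hne
  have h1 := key (|G x| / 2) (by positivity)
  have h2 : 0 < |G x| := abs_pos.2 hne
  linarith

theorem rest_apply (G : C(StoneCech ℕ, ℝ)) (x : Nstar) : rest G x = G x.1 := rfl

theorem exists_tietze (k : Nstar →ᵇ ℝ) :
    ∃ H : C(StoneCech ℕ, ℝ), rest H = k ∧ ∀ x, |H x| ≤ ‖k‖ := by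
  obtain ⟨g, hg, hg2⟩ :=
    BoundedContinuousFunction.exists_norm_eq_domRestrict_eq_of_closed k Nstar_isClosed
  refine ⟨g.toContinuousMap, ?_, fun x => ?_⟩
  · ext x
    have := congrArg (fun f : Nstar →ᵇ ℝ => f x) hg2
    exact this
  · rw [← hg]
    exact g.norm_coe_le_norm x

theorem norm_rest_le {G : C(StoneCech ℕ, ℝ)} {M : ℝ} (hM : 0 ≤ M) (h : ∀ x, |G x| ≤ M) :
    ‖rest G‖ ≤ M := by
  rw [BoundedContinuousFunction.norm_le hM]
  intro x
  exact h x.1

/-- Lifting of operators. -/
theorem exists_lift_beta (T : (Nstar →ᵇ ℝ) →L[ℝ] (Nstar →ᵇ ℝ)) :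
    ∃ (L : (ℕ → ℝ) → ℕ → ℝ) (K : ℝ), 0 < K ∧ Lift L K ∧
      ∀ G : C(StoneCech ℕ, ℝ), ∃ H : C(StoneCech ℕ, ℝ), rest H = T (rest G) ∧
        ∀ r, L (fun n => G (stoneCechUnit n)) r = H (stoneCechUnit r) := by
  classical
  have hG : ∀ f : ℕ → ℝ, ∃ G : C(StoneCech ℕ, ℝ), Bdd f → ∀ n, G (stoneCechUnit n) = f n := by
    intro f
    by_cases hf : Bdd f
    · obtain ⟨G, hG⟩ := exists_ext hf
      exact ⟨G, fun _ => hG⟩
    · exact ⟨0, fun h => absurd h hf⟩
  choose E hE using hG
  choose H hH1 hH2 using exists_tietze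
  have hEG : ∀ G : C(StoneCech ℕ, ℝ), E (fun n => G (stoneCechUnit n)) = G := by
    intro G
    apply ext_unique
    apply hE
    obtain ⟨C, hC⟩ := (BoundedContinuousFunction.mkOfCompact G).bounded
    exact ⟨‖BoundedContinuousFunction.mkOfCompact G‖, fun n =>
      (BoundedContinuousFunction.mkOfCompact G).norm_coe_le_norm _⟩
  have hadd : ∀ f g, Bdd f → Bdd g → E (f + g) = E f + E g := by
    intro f g hf hg
    have hfg : Bdd (f + g) := by
      obtain ⟨M, hM⟩ := hf
      obtain ⟨M', hM'⟩ := hg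
      refine ⟨M + M', fun n => ?_⟩
      rw [Pi.add_apply]
      exact (abs_add_le _ _).trans (add_le_add (hM n) (hM' n))
    apply ext_unique
    intro n
    rw [hE _ hfg, ContinuousMap.add_apply, hE _ hf, hE _ hg, Pi.add_apply]
  have hsmul : ∀ (c : ℝ) f, Bdd f → E (c • f) = c • E f := by
    intro c f hf
    have hcf : Bdd (c • f) := by
      obtain ⟨M, hM⟩ := hf
      refine ⟨|c| * M, fun n => ?_⟩
      rw [Pi.smul_apply, smul_eq_mul, abs_mul]
      exact mul_le_mul_of_nonneg_left (hM n) (abs_nonneg c)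
    apply ext_unique
    intro n
    rw [hE _ hcf, ContinuousMap.smul_apply, hE _ hf, Pi.smul_apply]
  have hrest_add : ∀ G G' : C(StoneCech ℕ, ℝ), rest (G + G') = rest G + rest G' := by
    intro G G'
    ext x
    rfl
  have hrest_smul : ∀ (c : ℝ) (G : C(StoneCech ℕ, ℝ)), rest (c • G) = c • rest G := by
    intro c G
    ext x
    rfl
  refine ⟨fun f r => if Bdd f then H (T (rest (E f))) (stoneCechUnit r) else 0, ‖T‖ + 1,
    by positivity, ⟨?_, ?_, ?_, ?_⟩, ?_⟩
  · intro f g hf hg
    have hfg : Bdd (f + g) := by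
      obtain ⟨M, hM⟩ := hf
      obtain ⟨M', hM'⟩ := hg
      refine ⟨M + M', fun n => ?_⟩
      rw [Pi.add_apply]
      exact (abs_add_le _ _).trans (add_le_add (hM n) (hM' n))
    have h0 : ∀ x ∈ Nstar, (H (T (rest (E (f + g)))) - H (T (rest (E f))) -
        H (T (rest (E g)))) x = 0 := by
      intro x hx
      have e1 : rest (H (T (rest (E (f + g))))) ⟨x, hx⟩ =
          rest (H (T (rest (E f)))) ⟨x, hx⟩ + rest (H (T (rest (E g)))) ⟨x, hx⟩ := by
        rw [hH1, hH1, hH1, hadd f g hf hg, hrest_add, map_add]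
        rfl
      rw [rest_apply, rest_apply, rest_apply] at e1
      change H (T (rest (E (f + g)))) x - H (T (rest (E f))) x - H (T (rest (E g))) x = 0
      linarith
    have h1 := tendsto_of_zero_on h0
    refine h1.congr fun r => ?_
    rw [if_pos hf, if_pos hg, if_pos hfg]
    rfl
  · intro c f hf
    have hcf : Bdd (c • f) := by
      obtain ⟨M, hM⟩ := hf
      refine ⟨|c| * M, fun n => ?_⟩
      rw [Pi.smul_apply, smul_eq_mul, abs_mul]
      exact mul_le_mul_of_nonneg_left (hM n) (abs_nonneg c)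
    have h0 : ∀ x ∈ Nstar, (H (T (rest (E (c • f)))) - c • H (T (rest (E f)))) x = 0 := by
      intro x hx
      have e1 : rest (H (T (rest (E (c • f))))) ⟨x, hx⟩ =
          c * rest (H (T (rest (E f)))) ⟨x, hx⟩ := by
        rw [hH1, hH1, hsmul c f hf, hrest_smul, map_smul]
        rfl
      rw [rest_apply, rest_apply] at e1
      change H (T (rest (E (c • f)))) x - c * H (T (rest (E f))) x = 0
      linarith
    have h1 := tendsto_of_zero_on h0
    refine h1.congr fun r => ?_
    rw [if_pos hf, if_pos hcf]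
    rfl
  · intro f hf
    have hbf : Bdd f := by
      obtain ⟨M, hM⟩ := (hf.abs.bddAbove_range)
      exact ⟨M, fun n => hM ⟨n, rfl⟩⟩
    have h0 : ∀ x ∈ Nstar, (E f) x = 0 := by
      apply zero_on_of_tendsto
      refine hf.congr fun n => ?_
      rw [hE _ hbf]
    have h1 : rest (E f) = 0 := by
      ext x
      exact h0 x.1 x.2
    have h2 : ∀ x ∈ Nstar, (H (T (rest (E f)))) x = 0 := by
      intro x hx
      have e1 : rest (H (T (rest (E f)))) ⟨x, hx⟩ = 0 := by
        rw [hH1, h1, map_zero]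
        rfl
      exact e1
    have h3 := tendsto_of_zero_on h2
    refine h3.congr fun r => ?_
    rw [if_pos hbf]
  · intro f M hM hf r
    have hbf : Bdd f := ⟨M, hf⟩
    rw [if_pos hbf]
    refine (hH2 _ _).trans ?_
    have e1 : ‖rest (E f)‖ ≤ M := norm_rest_le hM.le (abs_le_everywhere (fun n => by
      rw [hE _ hbf]
      exact hf n))
    calc ‖T (rest (E f))‖ ≤ ‖T‖ * ‖rest (E f)‖ := T.le_opNorm _
      _ ≤ ‖T‖ * M := by gcongr
      _ ≤ (‖T‖ + 1) * M := by nlinarith
  · intro G
    refine ⟨H (T (rest G)), hH1 _, fun r => ?_⟩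
    have hb : Bdd (fun n => G (stoneCechUnit n)) :=
      ⟨‖BoundedContinuousFunction.mkOfCompact G‖, fun n =>
        (BoundedContinuousFunction.mkOfCompact G).norm_coe_le_norm _⟩
    dsimp only
    rw [if_pos hb, hEG]

end Pool.Agent.LC
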