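import Pool.Agent.LC.Defs

/-!
Definitions on the remainder of the Stone-Cech compactification of the natural numbers.
-/

open Filter Topology Set
open scoped BoundedContinuousFunction

namespace Pool.Agent.LC

/-- The remainder of the Stone-Cech compactification of the natural numbers. -/
def Nstar : Set (StoneCech ℕ) := (range (stoneCechUnit : ℕ → StoneCech ℕ))ᶜ

/-- The closure of a set of natural numbers in the Stone-Cech compactification. -/
def clo (A : Set ℕ) : Set (StoneCech ℕ) := closure ((stoneCechUnit : ℕ → StoneCech ℕ) '' A)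

/-- The restriction of a continuous function on the compactification to the remainder. -/
noncomputable def rest (G : C(StoneCech ℕ, ℝ)) : Nstar →ᵇ ℝ :=
  (BoundedContinuousFunction.mkOfCompact G).compContinuous ⟨Subtype.val, continuous_subtype_val⟩

/-- The clopen subset of the remainder given by a set of natural numbers. -/
def star (A : Set ℕ) : Set Nstar := {x | x.1 ∈ clo A}

/-- A set is c.c.c. over Fin: every uncountable family of pairwise disjoint clopen subsets of the
remainder has only countably many members meeting it. -/
def CccOverFin (F : Set Nstar) : Prop :=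
  ∀ 𝒰 : Set (Set Nstar), ¬ 𝒰.Countable → (∀ U ∈ 𝒰, IsClopen U) →
    (∀ U ∈ 𝒰, ∀ V ∈ 𝒰, U ≠ V → Disjoint U V) → {U ∈ 𝒰 | (U ∩ F).Nonempty}.Countable

/-- A nowhere dense configuration for a bounded operator. -/
structure Config (T : (Nstar →ᵇ ℝ) →L[ℝ] (Nstar →ᵇ ℝ)) (A : Set ℕ) (F : Set Nstar)
    (ψ : F → Nstar) : Prop where
  infinite : A.Infinite
  closed : IsClosed F
  nowhereDense : IsNowhereDense F
  continuous : Continuous ψ
  range_eq : range ψ = star A
  irreducible : ∀ E : Set F, IsClosed E → ψ '' E = star A → E = univ
  comp : ∀ G : C(StoneCech ℕ, ℝ), (∀ n, n ∉ A → G (stoneCechUnit n) = 0) →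
    ∀ x : F, T (rest G) x.1 = rest G (ψ x)

end Pool.Agent.LC
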