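import Mathlib

/-!
Definitions for MP_b00e46_an: under the open colouring axiom every automorphism
of the Banach space of bounded sequences modulo null sequences is somewhere trivial.
-/

open Filter Topology Set

namespace Pool.Agent.LC

/-- Todorcevic open colouring axiom for separable metrizable spaces. -/
def OCA : Prop :=
  ∀ (X : Type) [TopologicalSpace X] [SecondCountableTopology X]
    [TopologicalSpace.MetrizableSpace X] (K : Set (X × X)),
    IsOpen K → (∀ x y, (x, y) ∈ K → (y, x) ∈ K) →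
    (∃ Y : Set X, ¬ Y.Countable ∧ ∀ x ∈ Y, ∀ y ∈ Y, x ≠ y → (x, y) ∈ K) ∨
    (∃ S : ℕ → Set X, (∀ x, ∃ n, x ∈ S n) ∧
      ∀ n, ∀ x ∈ S n, ∀ y ∈ S n, x ≠ y → (x, y) ∉ K)

/-- Three-valued sequences (codes: `0` for `0`, `1` for `1`, `2` for `-1`). -/
abbrev Phi := ℕ → Fin 3

/-- The real value of a code. -/
noncomputable def val : Fin 3 → ℝ := ![0, 1, -1]

/-- The code of the opposite value. -/
def neg3 : Fin 3 → Fin 3 := ![0, 2, 1]

/-- Disjoint supports. -/
def Disj (f g : Phi) : Prop := ∀ n, f n = 0 ∨ g n = 0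

/-- The sum of two functions with disjoint supports. -/
def join (f g : Phi) : Phi := fun n => if f n = 0 then g n else f n

open Classical in
/-- Restriction to a set (zero outside). -/
noncomputable def res (R : Set ℕ) (f : Phi) : Phi := fun n => if n ∈ R then f n else 0

open Classical in
/-- `f` on `R` and `g` outside `R`. -/
noncomputable def mix (R : Set ℕ) (f g : Phi) : Phi := fun n => if n ∈ R then f n else g n

/-- Transport along an injection, zero outside the range. -/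
noncomputable def push (j : ℕ → ℕ) (f : Phi) : Phi := Function.extend j f (fun _ => 0)

/-- The axioms satisfied by (a lifting of) a bounded operator on the space of
bounded sequences modulo null sequences, restricted to three-valued sequences,
after a reduction which makes the norm of all restrictions almost equal to `m`. -/
structure Sys (F : Phi → ℕ → ℝ) (m ε K : ℝ) : Prop where
  add : ∀ f g, Disj f g → Tendsto (fun r => F (join f g) r - F f r - F g r) atTop (𝓝 0)
  neg : ∀ f, Tendsto (fun r => F (fun n => neg3 (f n)) r + F f r) atTop (𝓝 0)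
  fin : ∀ f g : Phi, {n | f n ≠ g n}.Finite → Tendsto (fun r => F f r - F g r) atTop (𝓝 0)
  bdd : ∀ f r, |F f r| ≤ K
  upper : ∀ f, ∀ᶠ r in atTop, |F f r| < m + ε
  lower : ∀ A : Set ℕ, A.Infinite →
    ∃ e : Phi, (∀ n, e n ≠ 0 → n ∈ A) ∧ ∃ᶠ r in atTop, m - ε < |F e r|

/-- The region on which `F e` is large. -/
def X (F : Phi → ℕ → ℝ) (m ε : ℝ) (t : ℕ) (e : Phi) : Set ℕ := {r | m - t * ε < |F e r|}

/-- The basic open set of a finite list. -/
def cyl (p : List (Fin 3)) : Set Phi := {g | ∀ (i : ℕ) (h : i < p.length), g i = p[i]}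

/-- A description of `F b` on the regions `X t e` by open sets. -/
structure Desc (F : Phi → ℕ → ℝ) (m ε : ℝ) (t C : ℕ)
    (O : List (Fin 3) → ℕ → ℤ → Set Phi) : Prop where
  isOpen : ∀ q r v, IsOpen (O q r v)
  mono : ∀ q q' r v, q <+: q' → O q r v ⊆ O q' r v
  total : ∀ e b q0, ∃ q, q0 <+: q ∧ ∃ k, ∀ r ≥ k, r ∈ X F m ε t e → ∃ v, b ∈ O q r v
  correct : ∀ e b q, ∃ k, ∀ r ≥ k, r ∈ X F m ε t e → ∀ v : ℤ, b ∈ O q r v →
    |F b r - v * ε| ≤ C * ε

/-- A region `Θ` containing all `X s e` on which `F b` is described by open sets. -/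
structure Reg (F : Phi → ℕ → ℝ) (m ε : ℝ) (s C : ℕ) (Θ : ℕ → Set (Phi × Phi))
    (O : List (Fin 3) → ℕ → ℤ → Set Phi) : Prop where
  openTh : ∀ r, IsOpen (Θ r)
  openO : ∀ q r v, IsOpen (O q r v)
  mono : ∀ q q' r v, q <+: q' → O q r v ⊆ O q' r v
  main : ∀ e b, ∀ᶠ g in residual Phi,
    (∀ᶠ r in atTop, r ∈ X F m ε s e → (e, g) ∈ Θ r) ∧
    (∀ q, ∃ k, ∀ r ≥ k, (e, g) ∈ Θ r → ∀ v : ℤ, b ∈ O q r v → |F b r - v * ε| ≤ C * ε) ∧
    (∀ q0, ∃ q, q0 <+: q ∧ ∃ k, ∀ r ≥ k, (e, g) ∈ Θ r → ∃ v, b ∈ O q r v)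

/-- The nodes of the branch `x` of the binary tree, coded by natural numbers. -/
def br (x : ℕ → Bool) (n : ℕ) : ℕ := Encodable.encode (List.ofFn (fun i : Fin n => x i))

/-- Bounded real sequences. -/
def Bdd (f : ℕ → ℝ) : Prop := ∃ M : ℝ, ∀ n, |f n| ≤ M

/-- A lifting of a bounded linear operator on bounded sequences modulo null sequences. -/
structure Lift (L : (ℕ → ℝ) → ℕ → ℝ) (K : ℝ) : Prop where
  add : ∀ f g, Bdd f → Bdd g → Tendsto (fun r => L (f + g) r - L f r - L g r) atTop (𝓝 0)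
  smul : ∀ (c : ℝ) f, Bdd f → Tendsto (fun r => L (c • f) r - c * L f r) atTop (𝓝 0)
  zero : ∀ f, Tendsto f atTop (𝓝 0) → Tendsto (L f) atTop (𝓝 0)
  bdd : ∀ f (M : ℝ), 0 < M → (∀ n, |f n| ≤ M) → ∀ r, |L f r| ≤ K * M

/-- The space of bounded real sequences. -/
abbrev Linf := lp (fun _ : ℕ => ℝ) ⊤

/-- The subspace of null sequences. -/
def c0 : Submodule ℝ Linf where
  carrier := {f | Tendsto (fun n => f n) atTop (𝓝 0)}
  add_mem' := by
    intro f g hf hg
    simpa using hf.add hg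
  zero_mem' := by simp
  smul_mem' := by
    intro c f hf
    simpa using hf.const_mul c

/-- The quotient space. -/
abbrev Q := Linf ⧸ c0

/-- `T` is somewhere trivial: for some infinite `A`, `B`, a bijection `σ : B → A` and a real
`c ≠ 0`, for every bounded `f` supported in `A` the restriction to `B` of `T [f]` is the class
of `c f ∘ σ`. -/
def SomewhereTrivial (T : Q → Q) : Prop :=
  ∃ (A B : Set ℕ), A.Infinite ∧ B.Infinite ∧ ∃ (σ : B ≃ A) (c : ℝ), c ≠ 0 ∧
    ∀ f : Linf, (∀ n, n ∉ A → f n = 0) → ∀ g : Linf, T (Submodule.Quotient.mk f) =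
      Submodule.Quotient.mk g →
      Tendsto (fun b : B => g b - c * f (σ b)) cofinite (𝓝 0)

end Pool.Agent.LC
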