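import Pool.Agent.LC.Defs

open Filter Topology Set

namespace Pool.Agent.LC

/-- A bounded sequence as an element of the space of bounded sequences. -/
private noncomputable def toL (f : ℕ → ℝ) (h : Bdd f) : Linf :=
  ⟨f, memℓp_infty (by
    obtain ⟨M, hM⟩ := h
    refine ⟨M, ?_⟩
    rintro _ ⟨n, rfl⟩
    simpa [Real.norm_eq_abs] using hM n)⟩

private theorem toL_apply (f : ℕ → ℝ) (h : Bdd f) (n : ℕ) : toL f h n = f n := rfl

private theorem abs_apply_le (v : Linf) (n : ℕ) : |v n| ≤ ‖v‖ := by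
  have := lp.norm_apply_le_norm (p := ⊤) (by simp) v n
  simpa [Real.norm_eq_abs] using this

private theorem bdd_coe (v : Linf) : Bdd (fun n => v n) := ⟨‖v‖, abs_apply_le v⟩

private theorem toL_coe (v : Linf) (h : Bdd (fun n => v n)) : toL (fun n => v n) h = v := by
  ext n
  rfl

private theorem mk_eq_iff (u v : Linf) :
    (Submodule.Quotient.mk u : Q) = Submodule.Quotient.mk v ↔
      Tendsto (fun n => u n - v n) atTop (𝓝 0) := by
  rw [Submodule.Quotient.eq]
  rfl

private theorem norm_mk_le_of_eventually (v : Linf) {c : ℝ} (hc : 0 ≤ c)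
    (h : ∀ᶠ r in atTop, |v r| ≤ c) : ‖(Submodule.Quotient.mk v : Q)‖ ≤ c := by
  obtain ⟨N, hN⟩ := eventually_atTop.1 h
  have hb : Bdd (fun n => if n < N then 0 else v n) := by
    refine ⟨‖v‖, fun n => ?_⟩
    dsimp only
    split_ifs
    · simp
    · exact abs_apply_le v n
  have h1 : (Submodule.Quotient.mk v : Q) = Submodule.Quotient.mk (toL _ hb) := by
    rw [mk_eq_iff]
    refine tendsto_const_nhds.congr' ?_
    filter_upwards [eventually_ge_atTop N] with n hn
    rw [toL_apply, if_neg (not_lt.2 hn), sub_self]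
  rw [h1]
  refine (Submodule.Quotient.norm_mk_le _ _).trans ?_
  refine lp.norm_le_of_forall_le hc fun n => ?_
  rw [toL_apply, Real.norm_eq_abs]
  split_ifs with hn
  · simpa using hc
  · exact hN n (not_lt.1 hn)

private theorem le_norm_mk (v : Linf) {c : ℝ} (h : ∃ᶠ r in atTop, c ≤ |v r|) :
    c ≤ ‖(Submodule.Quotient.mk v : Q)‖ := by
  refine le_of_forall_pos_le_add fun ε hε => ?_
  obtain ⟨m, hm1, hm2⟩ := Submodule.Quotient.norm_mk_lt (Submodule.Quotient.mk v : Q) (half_pos hε)
  rw [mk_eq_iff] at hm1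
  have h2 : ∀ᶠ n in atTop, |m n - v n| < ε / 2 := by
    have := hm1.eventually (Metric.ball_mem_nhds (0 : ℝ) (half_pos hε))
    filter_upwards [this] with n hn
    simpa [Real.dist_eq] using hn
  obtain ⟨n, hn1, hn2⟩ := (h.and_eventually h2).exists
  have h3 := abs_apply_le m n
  have h4 : |v n| ≤ |m n| + |m n - v n| := by
    have := abs_sub_abs_le_abs_sub (v n) (m n)
    rw [abs_sub_comm (v n)] at this
    linarith
  linarith

/-- Every bounded below operator has a lifting. -/
theorem exists_lift (T : Q →L[ℝ] Q) {δ : ℝ} (hδ : 0 < δ) (hT : ∀ x, δ * ‖x‖ ≤ ‖T x‖) :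
    ∃ (L : (ℕ → ℝ) → ℕ → ℝ) (K c : ℝ), 0 < K ∧ 0 < c ∧ Lift L K ∧
      (∀ A : Set ℕ, A.Infinite → ∃ᶠ r in atTop, c ≤ |L (A.indicator 1) r|) ∧
      ∀ f g : Linf, T (Submodule.Quotient.mk f) = Submodule.Quotient.mk g →
        Tendsto (fun r => g r - L (fun n => f n) r) atTop (𝓝 0) := by
  classical
  have hK : 0 < ‖T‖ + 1 := by positivity
  have key : ∀ u : Linf, ∃ g : Linf, (Submodule.Quotient.mk g : Q) =
      T (Submodule.Quotient.mk u) ∧ ‖g‖ ≤ (‖T‖ + 1) * ‖u‖ := by
    intro u
    rcases eq_or_ne u 0 with rfl | hu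
    · refine ⟨0, ?_, by simp⟩
      rw [Submodule.Quotient.mk_zero, map_zero]
    · obtain ⟨g, hg1, hg2⟩ := Submodule.Quotient.norm_mk_lt (T (Submodule.Quotient.mk u))
        (norm_pos_iff.2 hu)
      refine ⟨g, hg1, hg2.le.trans ?_⟩
      have h1 := T.le_opNorm (Submodule.Quotient.mk u)
      have h2 : ‖(Submodule.Quotient.mk u : Q)‖ ≤ ‖u‖ := Submodule.Quotient.norm_mk_le _ _
      have h3 := mul_le_mul_of_nonneg_left h2 (norm_nonneg T)
      linarith
  choose g hg1 hg2 using key
  have hLb : ∀ f (h : Bdd f), (if h : Bdd f then (fun r => g (toL f h) r) else 0 : ℕ → ℝ) =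
      fun r => g (toL f h) r := fun f h => dif_pos h
  refine ⟨fun f => if h : Bdd f then (fun r => g (toL f h) r) else 0, ‖T‖ + 1, δ / 2, hK,
    half_pos hδ, ⟨?_, ?_, ?_, ?_⟩, ?_, ?_⟩
  · intro f f' hf hf'
    have hs : Bdd (f + f') := by
      obtain ⟨M, hM⟩ := hf
      obtain ⟨M', hM'⟩ := hf'
      exact ⟨M + M', fun n => (abs_add_le _ _).trans (add_le_add (hM n) (hM' n))⟩
    simp only [hLb _ hs, hLb _ hf, hLb _ hf']
    have h1 : (Submodule.Quotient.mk (g (toL _ hs)) : Q) =
        Submodule.Quotient.mk (g (toL f hf) + g (toL f' hf')) := by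
      rw [Submodule.Quotient.mk_add, hg1, hg1, hg1, ← map_add, ← Submodule.Quotient.mk_add]
      rfl
    rw [mk_eq_iff] at h1
    refine h1.congr fun n => ?_
    simp only [lp.coeFn_add, Pi.add_apply]
    ring
  · intro c f hf
    have hs : Bdd (c • f) := by
      obtain ⟨M, hM⟩ := hf
      refine ⟨|c| * M, fun n => ?_⟩
      rw [Pi.smul_apply, smul_eq_mul, abs_mul]
      exact mul_le_mul_of_nonneg_left (hM n) (abs_nonneg _)
    simp only [hLb _ hs, hLb _ hf]
    have h1 : (Submodule.Quotient.mk (g (toL _ hs)) : Q) =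
        Submodule.Quotient.mk (c • g (toL f hf)) := by
      rw [Submodule.Quotient.mk_smul, hg1, hg1, ← map_smul, ← Submodule.Quotient.mk_smul]
      rfl
    rw [mk_eq_iff] at h1
    refine h1.congr fun n => ?_
    simp only [lp.coeFn_smul, Pi.smul_apply, smul_eq_mul]
  · intro f hf
    have hb : Bdd f := by
      obtain ⟨M, hM⟩ := hf.bddAbove_range
      obtain ⟨M', hM'⟩ := hf.bddBelow_range
      refine ⟨max M (-M'), fun n => abs_le.2 ⟨?_, ?_⟩⟩
      · have := hM' ⟨n, rfl⟩
        have := le_max_right M (-M')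
        linarith
      · exact (hM ⟨n, rfl⟩).trans (le_max_left _ _)
    dsimp only
    rw [hLb _ hb]
    have h0 : (Submodule.Quotient.mk (toL f hb) : Q) = 0 := by
      rw [Submodule.Quotient.mk_eq_zero]
      exact hf
    have h1 : (Submodule.Quotient.mk (g (toL f hb)) : Q) = Submodule.Quotient.mk 0 := by
      rw [hg1, h0, map_zero, Submodule.Quotient.mk_zero]
    rw [mk_eq_iff] at h1
    refine h1.congr fun n => ?_
    simp
  · intro f M hM hf r
    have hb : Bdd f := ⟨M, hf⟩
    dsimp only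
    rw [hLb _ hb]
    refine (abs_apply_le _ _).trans ((hg2 _).trans (mul_le_mul_of_nonneg_left ?_ hK.le))
    exact lp.norm_le_of_forall_le hM.le fun n => by
      rw [toL_apply, Real.norm_eq_abs]
      exact hf n
  · intro A hA
    have hb : Bdd (A.indicator (1 : ℕ → ℝ)) := by
      refine ⟨1, fun n => ?_⟩
      by_cases hn : n ∈ A <;> simp [hn]
    dsimp only
    rw [hLb _ hb]
    by_contra hcon
    rw [not_frequently] at hcon
    have h1 : ‖(Submodule.Quotient.mk (g (toL _ hb)) : Q)‖ ≤ δ / 2 := by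
      refine norm_mk_le_of_eventually _ (half_pos hδ).le ?_
      filter_upwards [hcon] with r hr
      exact (not_le.1 hr).le
    rw [hg1] at h1
    have h2 := hT (Submodule.Quotient.mk (toL _ hb))
    have h3 : (1 : ℝ) ≤ ‖(Submodule.Quotient.mk (toL _ hb) : Q)‖ := by
      refine le_norm_mk _ ?_
      refine (Nat.frequently_atTop_iff_infinite.2 hA).mono fun n hn => ?_
      rw [toL_apply, indicator_of_mem hn]
      simp
    nlinarith
  · intro f f' hff
    have hb : Bdd (fun n => f n) := bdd_coe f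
    dsimp only
    rw [hLb _ hb]
    have h1 : (Submodule.Quotient.mk f' : Q) = Submodule.Quotient.mk (g (toL _ hb)) := by
      rw [hg1, toL_coe, hff]
    rw [mk_eq_iff] at h1
    exact h1

end Pool.Agent.LC
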