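import Pool.Agent.LC.Basic

open Filter Topology Set

namespace Pool.Agent.LC

private theorem abs_val_le (x : Fin 3) : |val x| ≤ 1 := by
  fin_cases x <;> simp [val]

private theorem val_neg3 (x : Fin 3) : val (neg3 x) = -val x := by
  fin_cases x <;> simp [val, neg3]

private theorem val_zero : val 0 = 0 := by simp [val]

private theorem bdd_val (f : Phi) : Bdd (fun n => val (f n)) := ⟨1, fun n => abs_val_le _⟩

private theorem push_at {j : ℕ → ℕ} (hj : Function.Injective j) (f : Phi) (n : ℕ) :
    push j f (j n) = f n := hj.extend_apply f _ n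

private theorem push_out {j : ℕ → ℕ} (f : Phi) {n : ℕ} (hn : ¬ ∃ k, j k = n) :
    push j f n = 0 := Function.extend_apply' f _ n hn

/-- The reduction to a system. -/
theorem exists_sys {L : (ℕ → ℝ) → ℕ → ℝ} {K c : ℝ} (hL : Lift L K) (hK : 0 < K) (hc : 0 < c)
    (hlow : ∀ A : Set ℕ, A.Infinite → ∃ᶠ r in atTop, c ≤ |L (A.indicator 1) r|) :
    ∃ m : ℝ, 0 < m ∧ ∀ ε > 0, ∃ j : ℕ → ℕ, Function.Injective j ∧
      Sys (Fp (fun f => L (fun n => val (f n))) j) m ε K := by
  classical
  set F0 : Phi → ℕ → ℝ := fun f => L (fun n => val (f n)) with hF0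
  set S : Set ℝ := {x | ∃ A : Set ℕ, A.Infinite ∧
    ∀ e : Phi, (∀ n, e n ≠ 0 → n ∈ A) → ∀ᶠ r in atTop, |F0 e r| < x} with hS
  have hbd : ∀ f r, |F0 f r| ≤ K := by
    intro f r
    have := hL.bdd (fun n => val (f n)) 1 one_pos (fun n => abs_val_le _) r
    rwa [mul_one] at this
  have hne : S.Nonempty :=
    ⟨K + 1, univ, infinite_univ, fun e _ => Eventually.of_forall fun r => by
      have := hbd e r
      linarith⟩
  have hlb : ∀ x ∈ S, c ≤ x := by
    rintro x ⟨A, hA, hx⟩
    have h1 := hx (fun n => if n ∈ A then 1 else 0) (fun n hn => by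
      by_contra h
      exact hn (if_neg h))
    have h2 : F0 (fun n => if n ∈ A then 1 else 0) = L (A.indicator 1) := by
      rw [hF0]
      dsimp only
      congr 1
      ext n
      by_cases hn : n ∈ A
      · simp [hn, val]
      · simp [hn, val]
    rw [h2] at h1
    obtain ⟨r, hr1, hr2⟩ := ((hlow A hA).and_eventually h1).exists
    linarith
  have hm : c ≤ sInf S := le_csInf hne hlb
  refine ⟨sInf S, hc.trans_le hm, fun ε hε => ?_⟩
  obtain ⟨x, ⟨A, hA, hx⟩, hxm⟩ := exists_lt_of_csInf_lt hne (show sInf S < sInf S + ε by linarith)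
  have hAinf : Infinite A := hA.to_subtype
  set j : ℕ → ℕ := Nat.nth (· ∈ A) with hj
  have hjinj : Function.Injective j := Nat.nth_injective hA
  have hjA : ∀ n, j n ∈ A := fun n => Nat.nth_mem_of_infinite hA n
  refine ⟨j, hjinj, ⟨?_, ?_, ?_, ?_, ?_, ?_⟩⟩
  · intro f g hfg
    have h1 : (fun n => val (push j (join f g) n)) =
        (fun n => val (push j f n)) + fun n => val (push j g n) := by
      funext n
      rw [Pi.add_apply]
      by_cases hn : ∃ k, j k = n
      · obtain ⟨k, rfl⟩ := hn
        rw [push_at hjinj, push_at hjinj, push_at hjinj, join]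
        rcases hfg k with h | h
        · rw [if_pos h, h, val_zero, zero_add]
        · by_cases h' : f k = 0
          · rw [if_pos h', h', val_zero, zero_add]
          · rw [if_neg h', h, val_zero, add_zero]
      · rw [push_out _ hn, push_out _ hn, push_out _ hn, val_zero, add_zero]
    have h2 := hL.add _ _ (bdd_val (push j f)) (bdd_val (push j g))
    rw [← h1] at h2
    exact h2
  · intro f
    have h1 : (fun n => val (push j (fun n => neg3 (f n)) n)) =
        (-1 : ℝ) • fun n => val (push j f n) := by
      funext n
      rw [Pi.smul_apply, smul_eq_mul, neg_one_mul]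
      by_cases hn : ∃ k, j k = n
      · obtain ⟨k, rfl⟩ := hn
        rw [push_at hjinj, push_at hjinj, val_neg3]
      · rw [push_out _ hn, push_out _ hn, val_zero, neg_zero]
    have h2 := hL.smul (-1) _ (bdd_val (push j f))
    rw [← h1] at h2
    refine h2.congr fun r => ?_
    show _ = L (fun n => val (push j (fun n => neg3 (f n)) n)) r + L (fun n => val (push j f n)) r
    ring
  · intro f g hfg
    set a : ℕ → ℝ := fun n => val (push j f n) with ha
    set b : ℕ → ℝ := fun n => val (push j g n) with hb
    have h0 : Tendsto (a - b) atTop (𝓝 0) := by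
      have hfin : {n | a n ≠ b n}.Finite := by
        refine (hfg.image j).subset fun n hn => ?_
        by_cases hn' : ∃ k, j k = n
        · obtain ⟨k, rfl⟩ := hn'
          refine ⟨k, fun h => hn ?_, rfl⟩
          rw [ha, hb]
          dsimp only
          rw [push_at hjinj, push_at hjinj, h]
        · exact absurd (by rw [ha, hb]; dsimp only; rw [push_out _ hn', push_out _ hn']) hn
      refine tendsto_const_nhds.congr' ?_
      have h1 : ∀ᶠ n in cofinite, n ∉ {n | a n ≠ b n} := hfin.eventually_cofinite_notMem
      rw [Nat.cofinite_eq_atTop] at h1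
      filter_upwards [h1] with n hn
      rw [Pi.sub_apply, not_not.1 hn, sub_self]
    have h1 := hL.zero _ h0
    have hab : Bdd (a - b) := by
      refine ⟨2, fun n => ?_⟩
      have e1 := abs_val_le (push j f n)
      have e2 := abs_val_le (push j g n)
      have e3 := abs_sub (a n) (b n)
      rw [Pi.sub_apply]
      calc |a n - b n| ≤ |a n| + |b n| := e3
        _ ≤ 2 := by
          rw [ha, hb]
          dsimp only
          linarith
    have h2 := hL.add b (a - b) (bdd_val _) hab
    rw [add_sub_cancel] at h2
    have h3 := h2.add h1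
    rw [add_zero] at h3
    refine h3.congr fun r => ?_
    show _ = L a r - L b r
    ring
  · intro f r
    exact hbd _ _
  · intro f
    have h1 := hx (push j f) (fun n hn => by
      by_contra h
      refine hn (push_out _ ?_)
      rintro ⟨k, rfl⟩
      exact h (hjA k))
    filter_upwards [h1] with r hr
    exact hr.trans hxm
  · intro B hB
    by_contra hcon
    push Not at hcon
    have hmem : sInf S - ε / 2 ∈ S := by
      refine ⟨j '' B, hB.image hjinj.injOn, fun e he => ?_⟩
      have h1 : push j (fun n => e (j n)) = e := by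
        funext n
        by_cases hn : ∃ k, j k = n
        · obtain ⟨k, rfl⟩ := hn
          rw [push_at hjinj]
        · rw [push_out _ hn]
          by_contra h
          obtain ⟨k, -, hk⟩ := he n (Ne.symm h)
          exact hn ⟨k, hk⟩
      have h2 := hcon (fun n => e (j n)) (fun n hn => by
        obtain ⟨k, hk, hk2⟩ := he _ hn
        rwa [← hjinj hk2])
      dsimp only [Fp] at h2
      rw [h1] at h2
      filter_upwards [h2] with r hr
      linarith
    have h3 := csInf_le ⟨c, hlb⟩ hmem
    linarith

end Pool.Agent.LC
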