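import Pool.Agent.LC.Basic

open Filter Topology Set

namespace Pool.Agent.LC.OcaAux

/-- a countable set of branches is not everything -/
theorem exists_branch_not_mem {C : Set (ℕ → Bool)} (hC : C.Countable) : ∃ x, x ∉ C := by
  rcases C.eq_empty_or_nonempty with rfl | hne
  · exact ⟨fun _ => true, fun h => h⟩
  · obtain ⟨f, rfl⟩ := hC.exists_eq_range hne
    refine ⟨fun n => !(f n n), ?_⟩
    rintro ⟨n, hn⟩
    have := congrFun hn n
    simp at this

/-- functions agreeing with a given function on the common part of two distinct branches -/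
theorem isOpen_agree {x y : ℕ → Bool} (h : x ≠ y) (g : Phi) :
    IsOpen {f : Phi | ∀ l, br x l = br y l → f l = g l} := by
  obtain ⟨N, hN⟩ := Function.ne_iff.1 h
  have hfin : {l | br x l = br y l}.Finite := by
    refine (Set.finite_le_nat N).subset fun l hl => ?_
    have h1 := ((br_eq_iff x y l l).1 hl).2
    by_contra hlt
    exact hN (h1 N (not_le.1 hlt))
  have heq : {f : Phi | ∀ l, br x l = br y l → f l = g l}
      = ⋂ l ∈ {l | br x l = br y l}, {f : Phi | f l = g l} := by
    ext f; simp
  rw [heq]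
  refine hfin.isOpen_biInter fun l _ => ?_
  have : {f : Phi | f l = g l} = (fun f : Phi => f l) ⁻¹' {g l} := rfl
  rw [this]
  exact (isOpen_discrete _).preimage (continuous_apply l)

/-- an open set contains all functions with the same first values -/
theorem exists_level {W : Set Phi} (hW : IsOpen W) {f : Phi} (hf : f ∈ W) :
    ∃ l0 : ℕ, ∀ f' : Phi, (∀ l < l0, f' l = f l) → f' ∈ W := by
  obtain ⟨I, u, hu, hs⟩ := isOpen_pi_iff.1 hW f hf
  refine ⟨I.sup id + 1, fun f' hf' => hs fun l hl => ?_⟩
  have h1 : l < I.sup id + 1 := Nat.lt_succ_of_le (Finset.le_sup (f := id) hl)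
  rw [hf' l h1]
  exact (hu l hl).2

theorem isOpen_level (f : Phi) (l0 : ℕ) : IsOpen {f' : Phi | ∀ l < l0, f' l = f l} := by
  have heq : {f' : Phi | ∀ l < l0, f' l = f l}
      = ⋂ l ∈ {l | l < l0}, {f' : Phi | f' l = f l} := by
    ext f'; simp
  rw [heq]
  refine (Set.finite_lt_nat l0).isOpen_biInter fun l _ => ?_
  have : {f' : Phi | f' l = f l} = (fun f' : Phi => f' l) ⁻¹' {f l} := rfl
  rw [this]
  exact (isOpen_discrete _).preimage (continuous_apply l)

/-- generic points do not lie in the boundary of an open set -/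
theorem closure_imp (A : Set Phi) (hA : IsOpen A) :
    ∀ᶠ f in residual Phi, f ∈ closure A → f ∈ A := by
  have h1 : {f | f ∈ closure A → f ∈ A} = (closure A)ᶜ ∪ A := by
    ext f; simp [imp_iff_not_or]
  have h2 : ((closure A)ᶜ ∪ A) ∈ residual Phi := by
    refine residual_of_dense_open (isClosed_closure.isOpen_compl.union hA) ?_
    rw [dense_iff_closure_eq, closure_union, eq_univ_iff_forall]
    intro f
    by_cases hf : f ∈ closure A
    · exact Or.inr hf
    · exact Or.inl (subset_closure hf)
  show {f | f ∈ closure A → f ∈ A} ∈ residual Phi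
  rw [h1]; exact h2

/-- countable dense subsets for the topology induced by a map into a second countable space -/
theorem exists_dense_sub {Y T : Type*} [TopologicalSpace T] [SecondCountableTopology T]
    (G : Y → T) (S : Set Y) : ∃ D ⊆ S, D.Countable ∧ ∀ p ∈ S, ∀ W : Set T, IsOpen W → G p ∈ W →
      ∃ d ∈ D, G d ∈ W := by
  classical
  let B := TopologicalSpace.countableBasis T
  have hB := TopologicalSpace.isBasis_countableBasis T
  have hBc : B.Countable := TopologicalSpace.countable_countableBasis T
  let pick : (V : Set T) → Set Y := fun V =>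
    if h : (S ∩ G ⁻¹' V).Nonempty then {h.some} else ∅
  refine ⟨⋃ V ∈ B, pick V, ?_, ?_, ?_⟩
  · refine iUnion₂_subset fun V _ => ?_
    by_cases h : (S ∩ G ⁻¹' V).Nonempty
    · simp only [pick, dif_pos h, singleton_subset_iff]
      exact h.some_mem.1
    · simp only [pick, dif_neg h, empty_subset]
  · refine hBc.biUnion fun V _ => ?_
    by_cases h : (S ∩ G ⁻¹' V).Nonempty
    · simp only [pick, dif_pos h, countable_singleton]
    · simp only [pick, dif_neg h, countable_empty]
  · intro p hp W hW hpW
    obtain ⟨V, hVB, hpV, hVW⟩ := hB.exists_subset_of_mem_open hpW hW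
    have h : (S ∩ G ⁻¹' V).Nonempty := ⟨p, hp, hpV⟩
    refine ⟨h.some, ?_, hVW h.some_mem.2⟩
    refine mem_iUnion₂.2 ⟨V, hVB, ?_⟩
    simp only [pick, dif_pos h, mem_singleton_iff]

theorem floor_close {ε : ℝ} (hε : 0 < ε) (y : ℝ) : |y - (⌊y / ε⌋ : ℤ) * ε| ≤ ε := by
  have h1 := Int.floor_le (y / ε)
  have h2 := Int.lt_floor_add_one (y / ε)
  rw [le_div_iff₀ hε] at h1
  rw [div_lt_iff₀ hε] at h2
  rw [abs_le]
  constructor <;> nlinarith

end Pool.Agent.LC.OcaAux
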