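import Pool.Agent.LC.Oca2Cover
import Pool.Agent.LC.OcaAux

open Filter Topology Set

namespace Pool.Agent.LC

open OcaAux

open Classical in
theorem oca2 (hO : OCA) {F : Phi → ℕ → ℝ} {m ε K : ℝ} (hF : Sys F m ε K) (hε : 0 < ε)
    (s t C tb : ℕ) (hs : 2 * s + 2 ≤ t) (hC : 1 ≤ C) (htb : s + 2 * C ≤ tb)
    (O : List (Fin 3) → ℕ → ℤ → Set Phi) (hD : Desc F m ε t C O) :
    ∃ j : ℕ → ℕ, Function.Injective j ∧ ∃ Th : ℕ → ℕ → Set Phi,
      (∀ n r, IsOpen (Th n r)) ∧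
      ∀ᶠ e in residual Phi, ∃ n k, (∀ r ≥ k, r ∈ X F m ε s (push j e) → e ∈ Th n r) ∧
        ∀ r, e ∈ Th n r → r ∈ X F m ε tb (push j e) := by
  choose S hS hhom using fun q => oca2_cover hO hF hε s t C hs hC O hD q
  let G : ((ℕ → Bool) × Phi) → ((ℕ → Bool) × Phi) × (ℕ → ℝ) := fun p =>
    (p, F (push (br p.1) p.2))
  -- the pieces
  let P : List (Fin 3) × ℕ × ℕ → Set ((ℕ → Bool) × Phi) := fun a =>
    {p | p ∈ S a.1 a.2.2 ∧ ∀ r ≥ a.2.1, r ∈ X F m ε s (push (br p.1) p.2) →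
      ∃ v, push (br p.1) p.2 ∈ O a.1 r v}
  choose D hDS hDc hDd using fun a => exists_dense_sub G (P a)
  obtain ⟨z0, hz0⟩ := exists_branch_not_mem
    (countable_iUnion fun a => (hDc a).image Prod.fst)
  have hne : ∀ a, ∀ d ∈ D a, z0 ≠ d.1 := fun a d hd h =>
    hz0 (mem_iUnion.2 ⟨a, ⟨d, hd, h.symm⟩⟩)
  let Th : List (Fin 3) × ℕ × ℕ → ℕ → Set Phi := fun a r =>
    {e1 | ∃ d ∈ D a, ∃ v, (∀ l, br z0 l = br d.1 l → e1 l = d.2 l) ∧
      push (br z0) e1 ∈ O a.1 r v ∧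
      (a.2.1 ≤ r ∧ r ∈ X F m ε s (push (br d.1) d.2) ∧ push (br d.1) d.2 ∈ O a.1 r v)}
  have hTh : ∀ a r, IsOpen (Th a r) := fun a r => by
    have heq : Th a r = ⋃ d ∈ D a, ⋃ v, {e1 | (∀ l, br z0 l = br d.1 l → e1 l = d.2 l)} ∩
        (push (br z0) ⁻¹' (O a.1 r v) ∩
        {_e | a.2.1 ≤ r ∧ r ∈ X F m ε s (push (br d.1) d.2) ∧ push (br d.1) d.2 ∈ O a.1 r v}) := by
      ext f
      simp only [Th, mem_ofPred_eq, mem_iUnion, mem_inter_iff, exists_prop, mem_preimage]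
    rw [heq]
    exact isOpen_biUnion fun d hd => isOpen_iUnion fun v =>
      (isOpen_agree (hne a d hd) d.2).inter
        (((hD.isOpen _ _ _).preimage (continuous_push _)).inter isOpen_const)
  obtain ⟨dec, hdec⟩ := exists_surjective_nat (List (Fin 3) × ℕ × ℕ)
  refine ⟨br z0, br_injective z0, fun n => Th (dec n), fun n r => hTh _ r, ?_⟩
  have hres : ∀ᶠ e in residual Phi, ∀ a r, e ∈ closure (Th a r) → e ∈ Th a r :=
    eventually_countable_forall.2 fun a => eventually_countable_forall.2 fun r =>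
      closure_imp _ (hTh a r)
  have hst : s ≤ t := by omega
  filter_upwards [hres] with e he
  -- the piece containing the point
  obtain ⟨q, -, k, hk⟩ := hD.total (push (br z0) e) (push (br z0) e) []
  obtain ⟨l, hl⟩ := hS q (z0, e)
  obtain ⟨n, hn⟩ := hdec (q, k, l)
  have hPe : (z0, e) ∈ P (q, k, l) := ⟨hl, fun r hr hrX => hk r hr (X_mono F hε.le hst _ hrX)⟩
  refine ⟨n, k, fun r hr hrX => ?_, fun r hr => ?_⟩
  · show e ∈ Th (dec n) r
    rw [hn]
    refine he (q, k, l) r ?_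
    obtain ⟨v, hv⟩ := hPe.2 r hr hrX
    rw [mem_closure_iff]
    intro W hW heW
    obtain ⟨l1, hl1⟩ := exists_level hW heW
    have hO2 : IsOpen (push (br z0) ⁻¹' (O q r v)) :=
      (hD.isOpen _ _ _).preimage (continuous_push _)
    obtain ⟨l2, hl2⟩ := exists_level hO2 (show e ∈ push (br z0) ⁻¹' (O q r v) from hv)
    let W2 : Set (((ℕ → Bool) × Phi) × (ℕ → ℝ)) :=
      {p | (∀ l' < max l1 l2, p.1.2 l' = e l') ∧ push (br p.1.1) p.1.2 ∈ O q r v ∧
        m - s * ε < |p.2 r|}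
    have hW2 : IsOpen W2 := by
      have h1 : IsOpen {p : ((ℕ → Bool) × Phi) × (ℕ → ℝ) |
          ∀ l' < max l1 l2, p.1.2 l' = e l'} :=
        (isOpen_level e (max l1 l2)).preimage
          (f := fun p : ((ℕ → Bool) × Phi) × (ℕ → ℝ) => p.1.2) (by fun_prop)
      have h2 : IsOpen {p : ((ℕ → Bool) × Phi) × (ℕ → ℝ) |
          push (br p.1.1) p.1.2 ∈ O q r v} :=
        (hD.isOpen q r v).preimage (continuous_push_br.comp continuous_fst)
      have h3 : IsOpen {p : ((ℕ → Bool) × Phi) × (ℕ → ℝ) | m - s * ε < |p.2 r|} :=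
        isOpen_lt continuous_const (by fun_prop)
      exact h1.inter (h2.inter h3)
    obtain ⟨d, hd, hdW⟩ := hDd (q, k, l) (z0, e) hPe W2 hW2 ⟨fun _ _ => rfl, hv, hrX⟩
    let e1 : Phi := fun l' => if br z0 l' = br d.1 l' then d.2 l' else e l'
    have he1 : ∀ l' < max l1 l2, e1 l' = e l' := fun l' hl' => by
      simp only [e1]
      split_ifs with h
      · exact hdW.1 l' hl'
      · rfl
    refine ⟨e1, hl1 e1 fun l' hl' => he1 l' (lt_of_lt_of_le hl' (le_max_left _ _)), d, hd, v, ?_,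
      hl2 e1 fun l' hl' => he1 l' (lt_of_lt_of_le hl' (le_max_right _ _)), hr, hdW.2.2, hdW.2.1⟩
    intro l' hl'
    simp only [e1, if_pos hl']
  · have hr' : e ∈ Th (q, k, l) r := by
      have : e ∈ Th (dec n) r := hr
      rwa [hn] at this
    obtain ⟨d, hd, v, hag, hv0, -, hrd, hvd⟩ := hr'
    have h1 := hhom q l d (hDS _ hd).1 (z0, e) hl (hne _ d hd).symm
      (fun l' hl' => (hag l' hl'.symm).symm) r v hrd hvd hv0
    have h2 : m - s * ε < |F (push (br d.1) d.2) r| := hrd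
    have h3 : |F (push (br d.1) d.2) r| ≤ |F (push (br z0) e) r| +
        |F (push (br d.1) d.2) r - F (push (br z0) e) r| := by
      have := abs_add_le (F (push (br z0) e) r)
        (F (push (br d.1) d.2) r - F (push (br z0) e) r)
      simpa using this
    show m - tb * ε < |F (push (br z0) e) r|
    have h4 : ((s : ℝ) + 2 * C) * ε ≤ tb * ε := by
      apply mul_le_mul_of_nonneg_right _ hε.le
      exact_mod_cast htb
    nlinarith [h1, h2, h3, h4]

end Pool.Agent.LC
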