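import Pool.Agent.LC.Basic

open Filter Topology Set

namespace Pool.Agent.LC

/-- Basic clopen sets: all coordinates below `N` outside the finite set `Fr` are prescribed. -/
def pbox (Fr : Finset ℕ) (N : ℕ) (c : Phi) : Set Phi := {g | ∀ l < N, l ∉ Fr → g l = c l}

theorem exists_level {U : Set Phi} (hU : IsOpen U) {g : Phi} (hg : g ∈ U) :
    ∃ N : ℕ, ∀ h : Phi, (∀ l < N, h l = g l) → h ∈ U := by
  obtain ⟨I, u, hu, hsub⟩ := isOpen_pi_iff.1 hU g hg
  refine ⟨I.sup id + 1, fun h hh => hsub ?_⟩
  intro a ha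
  have h1 : a ≤ I.sup id := Finset.le_sup (f := id) ha
  rw [hh a (by omega)]
  exact (hu a ha).2

theorem isOpen_pbox (Fr : Finset ℕ) (N : ℕ) (c : Phi) : IsOpen (pbox Fr N c) := by
  have : pbox Fr N c = ⋂ l ∈ (Finset.range N).filter (fun l => l ∉ Fr), {g : Phi | g l = c l} := by
    ext g
    simp only [pbox, mem_ofPred_eq, mem_iInter, Finset.mem_filter, Finset.mem_range]
    exact ⟨fun h l hl => h l hl.1 hl.2, fun h l hl hl' => h l ⟨hl, hl'⟩⟩
  rw [this]
  refine isOpen_biInter_finset fun l _ => ?_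
  have hc : Continuous (fun g : Phi => g l) := continuous_apply l
  exact (isOpen_discrete ({c l} : Set (Fin 3))).preimage hc

/-- Extension of a finite assignment by zero. -/
def extz (Fr : Finset ℕ) (z : Fr → Fin 3) : Phi := fun l => if h : l ∈ Fr then z ⟨l, h⟩ else 0

theorem residual_add {U : Set Phi} (hU : U ∈ residual Phi) (Fr : Finset ℕ) :
    ∀ᶠ g in residual Phi, ∀ z : Fr → Fin 3, (g + extz Fr z : Phi) ∈ U := by
  rw [eventually_all]
  intro z
  have hc : Continuous (fun g : Phi => g + extz Fr z) := by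
    refine continuous_pi fun l => ?_
    exact (continuous_of_discreteTopology (f := fun t : Fin 3 => t + extz Fr z l)).comp
      (continuous_apply l)
  have hc' : Continuous (fun g : Phi => g - extz Fr z) := by
    refine continuous_pi fun l => ?_
    exact (continuous_of_discreteTopology (f := fun t : Fin 3 => t - extz Fr z l)).comp
      (continuous_apply l)
  let e : Phi ≃ₜ Phi :=
    { toFun := fun g => g + extz Fr z
      invFun := fun g => g - extz Fr z
      left_inv := fun g => by funext l; simp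
      right_inv := fun g => by funext l; simp
      continuous_toFun := hc
      continuous_invFun := hc' }
  exact (tendsto_residual_of_isOpenMap e.continuous e.isOpenMap).eventually hU

theorem pbox_step {U : Set Phi} (hUo : IsOpen U) (hUd : Dense U) (Fr : Finset ℕ) (N : ℕ) (c : Phi) :
    ∃ (N' : ℕ) (c' : Phi), N ≤ N' ∧ c' ∈ pbox Fr N c ∧ pbox Fr N' c' ⊆ U := by
  have hres := residual_add (residual_of_dense_open hUo hUd) Fr
  obtain ⟨g', hg', hg'2⟩ := (dense_of_mem_residual hres).inter_open_nonempty (pbox Fr N c)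
    (isOpen_pbox Fr N c) ⟨c, fun l _ _ => rfl⟩
  have hlev : ∀ z : Fr → Fin 3, ∃ M : ℕ, ∀ h : Phi, (∀ l < M, h l = (g' + extz Fr z) l) → h ∈ U :=
    fun z => exists_level hUo (hg'2 z)
  choose M hM using hlev
  refine ⟨max N (Finset.univ.sup M), g', le_max_left _ _, hg', ?_⟩
  intro h hh
  refine hM (fun l => h l - g' l) h ?_
  intro l hl
  have hle : M (fun l => h l - g' l) ≤ Finset.univ.sup M := Finset.le_sup (Finset.mem_univ _)
  by_cases hlF : l ∈ Fr
  · simp [extz, hlF]
  · have := hh l (lt_of_lt_of_le hl (hle.trans (le_max_right _ _))) hlF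
    simp [extz, hlF, this]

/-- Pattern lemma. -/
theorem pattern (D W : Set Phi) (hW : IsOpen W) (hWne : W.Nonempty)
    (hD : ∀ᶠ g in residual Phi, g ∈ W → g ∈ D) (S : ℕ → Set ℕ) (hS : ∀ i, (S i).Infinite) :
    ∃ (E : Set ℕ) (c : Phi), (∀ i, (S i \ E).Infinite) ∧ ∀ g, mix E c g ∈ D := by
  obtain ⟨T, hTo, hTd, hTc, hTs⟩ := mem_residual_iff.1 hD
  -- an enumeration of open dense sets
  have hU : ∃ U : ℕ → Set Phi, (∀ n, IsOpen (U n)) ∧ (∀ n, Dense (U n)) ∧
      ∀ g, (∀ n, g ∈ U n) → g ∈ W → g ∈ D := by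
    have hc : (insert univ T).Countable := hTc.insert _
    obtain ⟨U, hU⟩ := hc.exists_eq_range (insert_nonempty _ _)
    refine ⟨U, fun n => ?_, fun n => ?_, fun g hg hgW => ?_⟩
    · have : U n ∈ insert univ T := hU ▸ mem_range_self n
      rcases this with h | h
      · rw [h]; exact isOpen_univ
      · exact hTo _ h
    · have : U n ∈ insert univ T := hU ▸ mem_range_self n
      rcases this with h | h
      · rw [h]; exact dense_univ
      · exact hTd _ h
    · refine hTs ?_ hgW
      intro t ht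
      have : t ∈ range U := hU ▸ mem_insert_of_mem _ ht
      obtain ⟨n, rfl⟩ := this
      exact hg n
  obtain ⟨U, hUo, hUd, hUD⟩ := hU
  obtain ⟨g0, hg0⟩ := hWne
  obtain ⟨N0, hN0⟩ := exists_level hW hg0
  -- the step
  have hstep : ∀ (j : ℕ) (s : Finset ℕ × ℕ × Phi), ∃ (s' : Finset ℕ × ℕ × Phi) (a : ℕ),
      a ∈ S (Nat.unpair j).1 ∧ s.2.1 ≤ a ∧ a < s'.2.1 ∧ s'.1 = insert a s.1 ∧
      (∀ l < s.2.1, l ∉ s.1 → s'.2.2 l = s.2.2 l) ∧ pbox s.1 s'.2.1 s'.2.2 ⊆ U j ∧
      pbox s'.1 s'.2.1 s'.2.2 ⊆ U j := by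
    rintro j ⟨Fr, N, c⟩
    obtain ⟨N', c', hN, hc', hsub⟩ := pbox_step (hUo j) (hUd j) Fr N c
    obtain ⟨a, haS, haN⟩ := (hS (Nat.unpair j).1).exists_gt N'
    refine ⟨(insert a Fr, a + 1, c'), a, haS, by simp only; omega, by simp only; omega, rfl, hc',
      ?_, ?_⟩
    · exact fun g hg => hsub fun l hl hlF => hg l (by simp only; omega) hlF
    · refine fun g hg => hsub fun l hl hlF => hg l (by simp only; omega) ?_
      simp only [Finset.mem_insert, not_or]
      exact ⟨by omega, hlF⟩
  choose nx a haS haN haN' hFr hc hsub hsub' using hstep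
  let st : ℕ → Finset ℕ × ℕ × Phi := fun n => Nat.rec (∅, N0, g0) (fun j s => nx j s) n
  have st0 : st 0 = (∅, N0, g0) := rfl
  have stS : ∀ j, st (j + 1) = nx j (st j) := fun j => rfl
  have hNlt : ∀ j, (st j).2.1 < (st (j + 1)).2.1 := by
    intro j
    rw [stS]
    exact lt_of_le_of_lt (haN j (st j)) (haN' j (st j))
  have hNmono : StrictMono (fun j => (st j).2.1) := strictMono_nat_of_lt_succ hNlt
  have hNge : ∀ j, j ≤ (st j).2.1 := fun j => hNmono.le_apply
  have hFrmono : Monotone (fun j => (st j).1) := by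
    refine monotone_nat_of_le_succ fun j => ?_
    simp only [stS, hFr]
    exact Finset.subset_insert _ _
  -- free coordinates below a level are present at that stage
  have hfree : ∀ j k l, l < (st j).2.1 → l ∉ (st j).1 → l ∉ (st (j + k)).1 := by
    intro j k l hl hlF
    induction k with
    | zero => exact hlF
    | succ k ih =>
      rw [← add_assoc, stS, hFr, Finset.mem_insert, not_or]
      refine ⟨?_, ih⟩
      have h1 := haN (j + k) (st (j + k))
      have h2 : (st j).2.1 ≤ (st (j + k)).2.1 := hNmono.monotone (Nat.le_add_right j k)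
      omega
  have hfree' : ∀ j l, l < (st j).2.1 → l ∉ (st j).1 → ∀ k, l ∉ (st k).1 := by
    intro j l hl hlF k
    rcases le_total j k with h | h
    · obtain ⟨d, rfl⟩ := Nat.exists_eq_add_of_le h
      exact hfree j d l hl hlF
    · exact fun hk => hlF (hFrmono h hk)
  have hcst : ∀ j k l, l < (st j).2.1 → l ∉ (st j).1 → (st (j + k)).2.2 l = (st j).2.2 l := by
    intro j k l hl hlF
    induction k with
    | zero => rfl
    | succ k ih =>
      rw [← add_assoc, stS, hc (j + k) (st (j + k)) l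
        (lt_of_lt_of_le hl (hNmono.monotone (Nat.le_add_right j k))) (hfree j k l hl hlF), ih]
  refine ⟨{l | ∀ k, l ∉ (st k).1}, fun l => (st (l + 1)).2.2 l, fun i => ?_, fun g => ?_⟩
  · refine Set.infinite_of_forall_exists_gt fun M => ?_
    refine ⟨a (Nat.pair i (M + 1)) (st (Nat.pair i (M + 1))), ⟨?_, ?_⟩, ?_⟩
    · have := haS (Nat.pair i (M + 1)) (st (Nat.pair i (M + 1)))
      rwa [Nat.unpair_pair] at this
    · simp only [mem_ofPred_eq, not_forall, not_not]
      refine ⟨Nat.pair i (M + 1) + 1, ?_⟩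
      rw [stS, hFr]
      exact Finset.mem_insert_self _ _
    · have h1 := haN (Nat.pair i (M + 1)) (st (Nat.pair i (M + 1)))
      have h2 := hNge (Nat.pair i (M + 1))
      have h3 := Nat.right_le_pair i (M + 1)
      omega
  · have key : ∀ j l, l < (st j).2.1 → l ∉ (st j).1 →
        mix {l | ∀ k, l ∉ (st k).1} (fun l => (st (l + 1)).2.2 l) g l = (st j).2.2 l := by
      intro j l hl hlF
      have hE : l ∈ {l | ∀ k, l ∉ (st k).1} := hfree' j l hl hlF
      have h1 : mix {l | ∀ k, l ∉ (st k).1} (fun l => (st (l + 1)).2.2 l) g l =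
          (st (l + 1)).2.2 l := by
        simp only [mix]
        rw [if_pos hE]
      rw [h1]
      have hl1 : l < (st (l + 1)).2.1 := lt_of_lt_of_le (Nat.lt_succ_self l) (hNge (l + 1))
      rcases le_total j (l + 1) with h | h
      · obtain ⟨d, hd⟩ := Nat.exists_eq_add_of_le h
        rw [hd]
        exact hcst j d l hl hlF
      · obtain ⟨d, hd⟩ := Nat.exists_eq_add_of_le h
        rw [hd]
        exact (hcst (l + 1) d l hl1 (hE (l + 1))).symm
    refine hUD _ (fun n => ?_) ?_
    · have := hsub' n (st n)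
      rw [← stS] at this
      exact this fun l hl hlF => key (n + 1) l hl hlF
    · refine hN0 _ fun l hl => ?_
      exact key 0 l hl (by simp [st0])

theorem pattern_inj (D : Set Phi) (hD : D ∈ residual Phi) :
    ∃ j : ℕ → ℕ, StrictMono j ∧ ∃ c : Phi, ∀ f : Phi, (Function.extend j f c : Phi) ∈ D := by
  obtain ⟨E, c, hE, hg⟩ := pattern D univ isOpen_univ univ_nonempty
    (by filter_upwards [hD] with g hg _ using hg) (fun _ => univ) (fun _ => infinite_univ)
  have hinf : (Eᶜ).Infinite := by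
    have := hE 0
    rwa [← compl_eq_univ_sdiff] at this
  classical
  have : Infinite (Eᶜ : Set ℕ) := hinf.to_subtype
  refine ⟨Nat.orderEmbeddingOfSet Eᶜ, (Nat.orderEmbeddingOfSet Eᶜ).strictMono, c, fun f => ?_⟩
  have h := hg (Function.extend (Nat.orderEmbeddingOfSet Eᶜ) f c)
  have heq : mix E c (Function.extend (Nat.orderEmbeddingOfSet Eᶜ) f c) =
      Function.extend (Nat.orderEmbeddingOfSet Eᶜ) f c := by
    funext l
    simp only [mix]
    split_ifs with hl
    · rw [Function.extend_apply']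
      rintro ⟨n, hn⟩
      have hr : (Nat.orderEmbeddingOfSet Eᶜ) n ∈ range (Nat.orderEmbeddingOfSet Eᶜ) :=
        mem_range_self n
      rw [Nat.orderEmbeddingOfSet_range] at hr
      rw [hn] at hr
      exact hr hl
    · rfl
  rwa [heq] at h

end Pool.Agent.LC
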