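import Pool.Agent.LC.Basic
import Pool.Agent.LC.Pattern

open Filter Topology Set

namespace Pool.Agent.LC

theorem stage1_floor {ε : ℝ} (hε : 0 < ε) (y : ℝ) : |y - (⌊y / ε⌋ : ℤ) * ε| ≤ ε := by
  have h1 := Int.floor_le (y / ε)
  have h2 := Int.lt_floor_add_one (y / ε)
  rw [le_div_iff₀ hε] at h1
  rw [div_lt_iff₀ hε] at h2
  rw [abs_le]
  constructor <;> nlinarith

theorem stage1 {F : Phi → ℕ → ℝ} {m ε K : ℝ} (hF : Sys F m ε K) (hε : 0 < ε)
    (t : Fin 2 → ℕ) (j : ℕ → ℕ) (hj : Function.Injective j)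
    (U : ℕ → Fin 2 → ℕ → ℤ → Set Phi) (hU : ∀ n i r v, IsOpen (U n i r v))
    (h : ∀ᶠ f in residual Phi, ∀ e, ∃ n, ∀ i, ∀ r ∈ X F m ε (t i) (push j e),
        (∃ v, f ∈ U n i r v) ∧
        ∀ v : ℤ, f ∈ U n i r v → |F (push j f) r - v * ε| ≤ (2 * t i + 5) * ε) :
    ∃ j' : ℕ → ℕ, Function.Injective j' ∧ ∃ U' : ℕ → Fin 2 → ℕ → ℤ → Set Phi,
      (∀ n i r v, IsOpen (U' n i r v)) ∧
      ∀ f e, ∃ n k, ∀ i, ∀ r ≥ k, r ∈ X (Fp F j') m ε (t i) e →
        (∃ v, f ∈ U' n i r v) ∧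
        ∀ v : ℤ, f ∈ U' n i r v → |Fp F j' f r - v * ε| ≤ (2 * t i + 7) * ε := by
  obtain ⟨j0, hj0m, c, hc⟩ := pattern_inj _ h
  have hj0 : Function.Injective j0 := hj0m.injective
  let w : ℕ → ℤ := fun r => ⌊F (push j (Function.extend j0 (fun _ => 0) c)) r / ε⌋
  refine ⟨j ∘ j0, hj.comp hj0,
    fun n i r v => {f | (Function.extend j0 f c : Phi) ∈ U n i r (v + w r)},
    fun n i r v => (hU n i r (v + w r)).preimage (continuous_extend j0 c), fun f e => ?_⟩
  obtain ⟨n, hn⟩ := hc f (push j0 e)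
  have hB3 := Sys.extend (hF.push hj) hj0 f c
  have hev : ∀ᶠ r in atTop, |Fp F j (Function.extend j0 f c) r - Fp F j (push j0 f) r -
      Fp F j (Function.extend j0 (fun _ => 0) c) r| < ε := by
    have := hB3.abs
    rw [abs_zero] at this
    exact (tendsto_order.1 this).2 ε hε
  obtain ⟨k, hk⟩ := eventually_atTop.1 hev
  refine ⟨n, k, fun i r hr hrX => ?_⟩
  have hrX' : r ∈ X F m ε (t i) (push j (push j0 e)) := by
    rw [push_push hj hj0]; exact hrX
  obtain ⟨⟨v, hv⟩, hall⟩ := hn i r hrX'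
  refine ⟨⟨v - w r, ?_⟩, fun v' hv' => ?_⟩
  · show (Function.extend j0 f c : Phi) ∈ U n i r (v - w r + w r)
    rw [sub_add_cancel]; exact hv
  · have h1 := hall (v' + w r) hv'
    have h2 := (hk r hr).le
    have h3 := stage1_floor hε (F (push j (Function.extend j0 (fun _ => 0) c)) r)
    have h4 : Fp F (j ∘ j0) f r = F (push j (push j0 f)) r := by
      rw [push_push hj hj0]
    rw [h4]
    set b := F (push j (Function.extend j0 f c)) r with hb
    set a := F (push j (push j0 f)) r with ha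
    set z := F (push j (Function.extend j0 (fun _ => 0) c)) r with hz
    have h5 : |b - a - z| ≤ ε := h2
    have h6 : |z - (w r : ℤ) * ε| ≤ ε := h3
    have h7 : a - v' * ε = (b - ((v' + w r : ℤ) : ℝ) * ε) + (-(b - a - z)) +
        (-(z - (w r : ℤ) * ε)) := by
      push_cast; ring
    rw [h7]
    calc |(b - ((v' + w r : ℤ) : ℝ) * ε) + (-(b - a - z)) + (-(z - (w r : ℤ) * ε))|
        ≤ |b - ((v' + w r : ℤ) : ℝ) * ε| + |-(b - a - z)| + |-(z - (w r : ℤ) * ε)| :=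
          abs_add_three _ _ _
      _ ≤ (2 * t i + 5) * ε + ε + ε := by
          rw [abs_neg, abs_neg]
          exact add_le_add (add_le_add h1 h5) h6
      _ = (2 * t i + 7) * ε := by ring

end Pool.Agent.LC
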