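import Pool.Agent.LC.SI

open Filter Topology Set

namespace Pool.Agent.LC

private theorem res_mix_self (R : Set ℕ) (b w : Phi) : res R (mix R b w) = res R b := by
  funext n
  simp only [res, mix]
  split_ifs <;> rfl

private theorem res_of_supp (R : Set ℕ) (b : Phi) (h : ∀ n, b n ≠ 0 → n ∈ R) : res R b = b := by
  funext n
  simp only [res]
  split_ifs with hn
  · rfl
  · by_contra h'
    exact hn (h n (fun h0 => h' h0.symm))

private theorem push_supp {j : ℕ → ℕ} {R : Set ℕ} (hj : ∀ n, j n ∈ R) (b : Phi) :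
    ∀ n, push j b n ≠ 0 → n ∈ R := by
  intro n hn
  by_contra hR
  apply hn
  apply push_off
  rintro ⟨k, rfl⟩
  exact hR (hj k)

theorem stage2 {F : Phi → ℕ → ℝ} {m ε K : ℝ} (hF : Sys F m ε K) (hε : 0 < ε)
    (t t' : Fin 2 → ℕ) (ht : ∀ i, 2 * t' i + 2 ≤ t i)
    (U : ℕ → Fin 2 → ℕ → ℤ → Set Phi) (hU : ∀ n i r v, IsOpen (U n i r v))
    (h : ∀ f e, ∃ n k, ∀ i, ∀ r ≥ k, r ∈ X F m ε (t i) e →
        (∃ v, f ∈ U n i r v) ∧
        ∀ v : ℤ, f ∈ U n i r v → |F f r - v * ε| ≤ (2 * t i + 7) * ε) :
    ∃ j : ℕ → ℕ, Function.Injective j ∧ ∃ UU : Fin 2 → ℕ → ℤ → Set (Phi × Phi),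
      (∀ i r v, IsOpen (UU i r v)) ∧
      ∀ e b, ∀ᶠ g in residual Phi, ∃ k, ∀ i, ∀ r ≥ k, r ∈ X (Fp F j) m ε (t' i) e →
        (∃ v, (b, g) ∈ UU i r v) ∧
        ∀ v : ℤ, (b, g) ∈ UU i r v → |Fp F j b r - v * ε| ≤ (2 * t i + t' i + 9 : ℕ) * ε := by
  obtain ⟨n, R, Z, u, hR, -, -, hmain⟩ := single_index
    (fun n R f a => ∃ k : ℕ, ∀ i, ∀ r ≥ k, r ∈ X F m ε (t' i) a → (∃ v, f ∈ U n i r v) ∧
      ∀ v : ℤ, f ∈ U n i r v → |F (res R f) r - v * ε| ≤ (2 * t i + t' i + 9 : ℕ) * ε)
    (by
      intro n R Z u b a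
      have hc : Continuous (fun g : Phi => mix R b (mix Z g u)) :=
        (continuous_mix R).comp (continuous_const.prodMk
          ((continuous_mix Z).comp (continuous_id.prodMk continuous_const)))
      have ho : ∀ i r v, BaireMeasurableSet {g : Phi | mix R b (mix Z g u) ∈ U n i r v} :=
        fun i r v => ((hU n i r v).preimage hc).baireMeasurableSet
      simp only [res_mix_self]
      rw [Set.setOf_exists]
      refine BaireMeasurableSet.iUnion fun k => ?_
      rw [Set.setOf_forall]
      refine BaireMeasurableSet.iInter fun i => ?_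
      rw [Set.setOf_forall]
      refine BaireMeasurableSet.iInter fun r => ?_
      by_cases h1 : r ≥ k
      · by_cases h2 : r ∈ X F m ε (t' i) a
        · simp only [h1, h2, forall_true_left]
          rw [Set.setOf_and]
          refine BaireMeasurableSet.inter ?_ ?_
          · rw [Set.setOf_exists]
            exact BaireMeasurableSet.iUnion fun v => ho i r v
          · rw [Set.setOf_forall]
            refine BaireMeasurableSet.iInter fun v => ?_
            by_cases h3 : |F (res R b) r - v * ε| ≤ (2 * t i + t' i + 9 : ℕ) * ε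
            · simp only [h3, implies_true, Set.setOf_true]
              exact isOpen_univ.baireMeasurableSet
            · simp only [h3, imp_false]
              exact (ho i r v).compl
        · simp only [h2, false_imp_iff, implies_true, Set.setOf_true]
          exact isOpen_univ.baireMeasurableSet
      · simp only [h1, false_imp_iff, Set.setOf_true]
        exact isOpen_univ.baireMeasurableSet)
    (by
      intro f R a hinf hdisj ha
      obtain ⟨e, he⟩ := amalgam_disj R hdisj a ha
      obtain ⟨n, k, hk⟩ := h f e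
      refine ⟨n, ?_⟩
      have h1 : ∀ᶠ r in atTop, ∀ i, r ∈ X F m ε (t' i) (res (R n) e) →
          r ∈ X F m ε (2 * t' i + 2) e := by
        rw [eventually_all]
        exact fun i => hF.X_up hε (R n) e (t' i)
      have h2 : ∀ᶠ r in atTop, ∀ i, r ∈ X F m ε (t' i) (a n) →
          |F f r - F (res (R n) f) r| ≤ (t' i + 2) * ε := by
        rw [eventually_all]
        exact fun i => hF.res_close hε (R n) f (a n) (t' i) (ha n)
      obtain ⟨k', hk'⟩ := eventually_atTop.1 ((h1.and h2).and (eventually_ge_atTop k))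
      refine ⟨k', fun i r hr hX => ?_⟩
      obtain ⟨⟨q1, q2⟩, q3⟩ := hk' r hr
      have hX' : r ∈ X F m ε (t i) e := by
        have := q1 i (by rw [he n]; exact hX)
        exact X_mono F hε.le (ht i) e this
      obtain ⟨p1, p2⟩ := hk i r q3 hX'
      refine ⟨p1, fun v hv => ?_⟩
      have e1 := p2 v hv
      have e2 := q2 i hX
      have : F (res (R n) f) r - v * ε = (F f r - v * ε) - (F f r - F (res (R n) f) r) := by ring
      rw [this]
      refine (abs_sub _ _).trans ?_
      push_cast
      nlinarith)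
  obtain ⟨j0⟩ : Nonempty (ℕ ↪ R) := ⟨hR.natEmbedding⟩
  set j : ℕ → ℕ := fun l => (j0 l : ℕ) with hj
  have hjR : ∀ l, j l ∈ R := fun l => (j0 l).2
  have hinj : Function.Injective j := fun x y hxy => j0.injective (Subtype.ext hxy)
  refine ⟨j, hinj, fun i r v => {p | mix R (push j p.1) (mix Z p.2 u) ∈ U n i r v}, ?_, ?_⟩
  · intro i r v
    have hc : Continuous (fun p : Phi × Phi => mix R (push j p.1) (mix Z p.2 u)) :=
      (continuous_mix R).comp (((continuous_push j).comp continuous_fst).prodMk
        ((continuous_mix Z).comp (continuous_snd.prodMk continuous_const)))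
    exact (hU n i r v).preimage hc
  · intro e b
    filter_upwards [hmain (push j b) (push j e) (push_supp hjR e)] with g hg
    obtain ⟨k, hk⟩ := hg
    refine ⟨k, fun i r hr hX => ?_⟩
    obtain ⟨p1, p2⟩ := hk i r hr hX
    refine ⟨p1, fun v hv => ?_⟩
    have := p2 v hv
    rw [res_mix_self, res_of_supp R _ (push_supp hjR b)] at this
    exact this

end Pool.Agent.LC
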