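import Pool.Agent.LC.Pattern

open Filter Topology Set

namespace Pool.Agent.LC

theorem cyl_closed (p : List (Fin 3)) : IsClosed (cyl p) := by
  have : cyl p = ⋂ (i : ℕ) (h : i < p.length), {g : Phi | g i = p[i]} := by
    ext g
    simp [cyl]
  rw [this]
  refine isClosed_iInter fun i => isClosed_iInter fun h => ?_
  exact isClosed_eq (continuous_apply i) continuous_const

/-- An open set which is dense in a cylinder contains almost all points of it. -/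
theorem residual_of_dense_in_cyl (q : List (Fin 3)) (G : Set Phi) (hG : IsOpen G)
    (h : ∀ q', q <+: q' → ∃ g ∈ cyl q', g ∈ G) :
    ∀ᶠ g in residual Phi, g ∈ cyl q → g ∈ G := by
  have ho : IsOpen (G ∪ (cyl q)ᶜ) := hG.union (cyl_closed q).isOpen_compl
  have hd : Dense (G ∪ (cyl q)ᶜ) := by
    rw [dense_iff_inter_open]
    intro W hW hWne
    by_cases hc : (W ∩ cyl q).Nonempty
    · obtain ⟨q', hq', hsub⟩ := exists_cyl_subset hW hc
      obtain ⟨g, hg, hgG⟩ := h q' hq'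
      exact ⟨g, hsub hg, Or.inl hgG⟩
    · obtain ⟨g, hg⟩ := hWne
      refine ⟨g, hg, Or.inr ?_⟩
      intro hgq
      exact hc ⟨g, hg, hgq⟩
  filter_upwards [residual_of_dense_open ho hd] with g hg hgq
  rcases hg with hg | hg
  · exact hg
  · exact absurd hgq hg

/-- The sets of the category quantifier. -/
def OOset (C : ℕ) (UU : ℕ → ℤ → Set (Phi × Phi)) (q : List (Fin 3)) (r : ℕ) (v : ℤ) : Set Phi :=
  {b | ∀ q', q <+: q' → ∃ g ∈ cyl q', ∃ v' : ℤ, |v' - v| ≤ (C : ℤ) + 1 ∧ (b, g) ∈ UU r v'}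

theorem OOset_mono (C : ℕ) (UU : ℕ → ℤ → Set (Phi × Phi)) {q q' : List (Fin 3)} (h : q <+: q')
    (r : ℕ) (v : ℤ) : OOset C UU q r v ⊆ OOset C UU q' r v :=
  fun _ hb q'' hq'' => hb q'' (h.trans hq'')

theorem OOset_baire (C : ℕ) (UU : ℕ → ℤ → Set (Phi × Phi)) (hU : ∀ r v, IsOpen (UU r v))
    (q : List (Fin 3)) (r : ℕ) (v : ℤ) : BaireMeasurableSet (OOset C UU q r v) := by
  have : OOset C UU q r v = ⋂ q' : {q' : List (Fin 3) // q <+: q'},
      {b | ∃ g ∈ cyl q'.1, ∃ v' : ℤ, |v' - v| ≤ (C : ℤ) + 1 ∧ (b, g) ∈ UU r v'} := by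
    ext b
    simp [OOset]
  rw [this]
  refine BaireMeasurableSet.iInter fun q' => IsOpen.baireMeasurableSet ?_
  have h2 : {b : Phi | ∃ g ∈ cyl q'.1, ∃ v' : ℤ, |v' - v| ≤ (C : ℤ) + 1 ∧ (b, g) ∈ UU r v'} =
      ⋃ g ∈ cyl q'.1, ⋃ v' : ℤ, ⋃ _ : |v' - v| ≤ (C : ℤ) + 1, {b | (b, g) ∈ UU r v'} := by
    ext b
    simp
  rw [h2]
  refine isOpen_biUnion fun g _ => isOpen_iUnion fun v' => isOpen_iUnion fun _ => ?_
  exact (hU r v').preimage (by fun_prop : Continuous (fun b : Phi => (b, g)))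

theorem stage3_floor_close {ε x : ℝ} (hε : 0 < ε) : |x - ⌊x / ε⌋ * ε| ≤ ε := by
  have h1 := Int.floor_le (x / ε)
  have h2 := Int.lt_floor_add_one (x / ε)
  have h3 : x / ε * ε = x := by field_simp
  have h4 : (⌊x / ε⌋ : ℝ) * ε ≤ x := by
    calc (⌊x / ε⌋ : ℝ) * ε ≤ x / ε * ε := by gcongr
      _ = x := h3
  have h5 : x ≤ ((⌊x / ε⌋ : ℝ) + 1) * ε := by
    calc x = x / ε * ε := h3.symm
      _ ≤ ((⌊x / ε⌋ : ℝ) + 1) * ε := by gcongr
  rw [abs_le]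
  constructor <;> nlinarith

theorem stage3_int_close {ε : ℝ} (hε : 0 < ε) {C : ℕ} {x : ℝ} {v v' : ℤ} (h1 : |x - v' * ε| ≤ C * ε)
    (h2 : |x - v * ε| ≤ ε) : |v' - v| ≤ (C : ℤ) + 1 := by
  have h3 : |((v' : ℝ) - v) * ε| ≤ (C + 1) * ε := by
    have : ((v' : ℝ) - v) * ε = (x - v * ε) - (x - v' * ε) := by ring
    rw [this]
    calc |(x - v * ε) - (x - v' * ε)| ≤ |x - v * ε| + |x - v' * ε| := abs_sub _ _
      _ ≤ ε + C * ε := by linarith
      _ = (C + 1) * ε := by ring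
  rw [abs_mul, abs_of_pos hε] at h3
  have h4 : |(v' : ℝ) - v| ≤ C + 1 := le_of_mul_le_mul_right h3 hε
  exact_mod_cast h4

theorem stage3_total {F : Phi → ℕ → ℝ} {m ε : ℝ} (hε : 0 < ε)
    (t C : ℕ) (UU : ℕ → ℤ → Set (Phi × Phi)) (e b : Phi)
    (h : ∀ᶠ g in residual Phi, ∃ k, ∀ r ≥ k, r ∈ X F m ε t e →
        (∃ v, (b, g) ∈ UU r v) ∧
        ∀ v : ℤ, (b, g) ∈ UU r v → |F b r - v * ε| ≤ C * ε) (q0 : List (Fin 3)) :
    ∃ q, q0 <+: q ∧ ∃ k, ∀ r ≥ k, r ∈ X F m ε t e → b ∈ OOset C UU q r ⌊F b r / ε⌋ := by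
  obtain ⟨q, hq, k, hk⟩ := exists_dense_cyl
    (fun k => {g | ∀ r ≥ k, r ∈ X F m ε t e →
        (∃ v, (b, g) ∈ UU r v) ∧
        ∀ v : ℤ, (b, g) ∈ UU r v → |F b r - v * ε| ≤ C * ε}) h q0
  refine ⟨q, hq, k, ?_⟩
  intro r hr hX q' hq'
  obtain ⟨g0, hg0⟩ := cyl_nonempty q'
  have h1 := hk (cyl_mono hq' hg0)
  rw [mem_closure_iff] at h1
  obtain ⟨g, hg1, hg2, -⟩ := h1 (cyl q') (cyl_open q') hg0
  obtain ⟨⟨v', hv'⟩, h3⟩ := hg2 r hr hX
  exact ⟨g, hg1, v', stage3_int_close hε (h3 v' hv') (stage3_floor_close hε), hv'⟩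

theorem stage3_correct {F : Phi → ℕ → ℝ} {m ε : ℝ} (hε : 0 < ε)
    (t C : ℕ) (UU : ℕ → ℤ → Set (Phi × Phi)) (hU : ∀ r v, IsOpen (UU r v)) (e b : Phi)
    (h : ∀ᶠ g in residual Phi, ∃ k, ∀ r ≥ k, r ∈ X F m ε t e →
        (∃ v, (b, g) ∈ UU r v) ∧
        ∀ v : ℤ, (b, g) ∈ UU r v → |F b r - v * ε| ≤ C * ε) (q : List (Fin 3)) :
    ∃ k, ∀ r ≥ k, r ∈ X F m ε t e → ∀ v : ℤ, b ∈ OOset C UU q r v →
      |F b r - v * ε| ≤ (2 * C + 1) * ε := by
  have h1 : ∀ᶠ g in residual Phi, ∀ rv : ℕ × ℤ, b ∈ OOset C UU q rv.1 rv.2 → g ∈ cyl q →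
      ∃ v' : ℤ, |v' - rv.2| ≤ (C : ℤ) + 1 ∧ (b, g) ∈ UU rv.1 v' := by
    rw [eventually_countable_forall]
    rintro ⟨r, v⟩
    by_cases hb : b ∈ OOset C UU q r v
    · have hopen : IsOpen {g : Phi | ∃ v' : ℤ, |v' - v| ≤ (C : ℤ) + 1 ∧ (b, g) ∈ UU r v'} := by
        have h2 : {g : Phi | ∃ v' : ℤ, |v' - v| ≤ (C : ℤ) + 1 ∧ (b, g) ∈ UU r v'} =
            ⋃ v' : ℤ, ⋃ _ : |v' - v| ≤ (C : ℤ) + 1, {g | (b, g) ∈ UU r v'} := by
          ext g
          simp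
        rw [h2]
        refine isOpen_iUnion fun v' => isOpen_iUnion fun _ => ?_
        exact (hU r v').preimage (by fun_prop : Continuous (fun g : Phi => (b, g)))
      have h3 := residual_of_dense_in_cyl q _ hopen (fun q' hq' => by
        obtain ⟨g, hg, hg2⟩ := hb q' hq'
        exact ⟨g, hg, hg2⟩)
      filter_upwards [h3] with g hg _ hgq
      exact hg hgq
    · exact Eventually.of_forall fun g hb' => absurd hb' hb
  obtain ⟨g, hgq, hg1, k, hk⟩ := exists_mem_cyl (D := {g | (∀ rv : ℕ × ℤ,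
    b ∈ OOset C UU q rv.1 rv.2 → g ∈ cyl q →
      ∃ v' : ℤ, |v' - rv.2| ≤ (C : ℤ) + 1 ∧ (b, g) ∈ UU rv.1 v') ∧ ∃ k, ∀ r ≥ k,
        r ∈ X F m ε t e → (∃ v, (b, g) ∈ UU r v) ∧
        ∀ v : ℤ, (b, g) ∈ UU r v → |F b r - v * ε| ≤ C * ε}) (h1.and h) q
  refine ⟨k, ?_⟩
  intro r hr hX v hb
  obtain ⟨v', hv', hU'⟩ := hg1 (r, v) hb hgq
  have h4 := (hk r hr hX).2 v' hU'
  have h5 : |(v' : ℝ) - v| ≤ C + 1 := by exact_mod_cast hv'
  have h6 : |((v' : ℝ) - v) * ε| ≤ (C + 1) * ε := by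
    rw [abs_mul, abs_of_pos hε]
    gcongr
  have h7 : F b r - v * ε = (F b r - v' * ε) + ((v' : ℝ) - v) * ε := by ring
  rw [h7]
  calc |(F b r - v' * ε) + ((v' : ℝ) - v) * ε| ≤ |F b r - v' * ε| + |((v' : ℝ) - v) * ε| :=
        abs_add_le _ _
    _ ≤ C * ε + (C + 1) * ε := by linarith
    _ = (2 * C + 1) * ε := by ring

theorem stage3 {F : Phi → ℕ → ℝ} {m ε K : ℝ} (hF : Sys F m ε K) (hε : 0 < ε)
    (t C : Fin 2 → ℕ) (UU : Fin 2 → ℕ → ℤ → Set (Phi × Phi))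
    (hU : ∀ i r v, IsOpen (UU i r v))
    (h : ∀ e b, ∀ᶠ g in residual Phi, ∃ k, ∀ i, ∀ r ≥ k, r ∈ X F m ε (t i) e →
        (∃ v, (b, g) ∈ UU i r v) ∧
        ∀ v : ℤ, (b, g) ∈ UU i r v → |F b r - v * ε| ≤ C i * ε) :
    ∃ j : ℕ → ℕ, Function.Injective j ∧ ∃ O : Fin 2 → List (Fin 3) → ℕ → ℤ → Set Phi,
      ∀ i, Desc (Fp F j) m ε (t i) (2 * C i + 3) (O i) := by
  have h' : ∀ i e b, ∀ᶠ g in residual Phi, ∃ k, ∀ r ≥ k, r ∈ X F m ε (t i) e →
        (∃ v, (b, g) ∈ UU i r v) ∧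
        ∀ v : ℤ, (b, g) ∈ UU i r v → |F b r - v * ε| ≤ C i * ε := by
    intro i e b
    filter_upwards [h e b] with g hg
    obtain ⟨k, hk⟩ := hg
    exact ⟨k, hk i⟩
  have hex : ∀ i q r v, ∃ u : Set Phi, IsOpen u ∧
      ∀ᶠ b in residual Phi, b ∈ OOset (C i) (UU i) q r v ↔ b ∈ u := by
    intro i q r v
    obtain ⟨u, hu, huu⟩ := (OOset_baire (C i) (UU i) (hU i) q r v).residualEq_isOpen
    exact ⟨u, hu, eventuallyEq_set.1 huu⟩
  choose u huo hu using hex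
  have hD : {b : Phi | ∀ x : Fin 2 × List (Fin 3) × ℕ × ℤ,
      b ∈ OOset (C x.1) (UU x.1) x.2.1 x.2.2.1 x.2.2.2 ↔ b ∈ u x.1 x.2.1 x.2.2.1 x.2.2.2} ∈
      residual Phi := by
    refine eventually_countable_forall.2 fun x => ?_
    exact hu x.1 x.2.1 x.2.2.1 x.2.2.2
  obtain ⟨j, hj, c, hc⟩ := pattern_inj _ hD
  have hc' : ∀ (f : Phi) i q r v, (Function.extend j f c : Phi) ∈ OOset (C i) (UU i) q r v ↔
      (Function.extend j f c : Phi) ∈ u i q r v := fun f i q r v => hc f (i, q, r, v)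
  have hinj := hj.injective
  let w : ℕ → ℤ := fun r => ⌊F (Function.extend j (fun _ => 0) c) r / ε⌋
  refine ⟨j, hinj, fun i q r v => {b | (Function.extend j b c : Phi) ∈ u i q r (v + w r)}, ?_⟩
  intro i
  refine ⟨?_, ?_, ?_, ?_⟩
  · intro q r v
    exact (huo i q r (v + w r)).preimage (continuous_extend j c)
  · intro q q' r v hqq b hb
    change (Function.extend j b c : Phi) ∈ u i q' r (v + w r)
    rw [← hc']
    exact OOset_mono _ _ hqq _ _ ((hc' _ _ _ _ _).2 hb)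
  · intro e b q0
    obtain ⟨q, hq, k, hk⟩ := stage3_total hε (t i) (C i) (UU i) (push j e)
      (Function.extend j b c) (h' i _ _) q0
    refine ⟨q, hq, k, ?_⟩
    intro r hr hX
    refine ⟨⌊F (Function.extend j b c) r / ε⌋ - w r, ?_⟩
    change (Function.extend j b c : Phi) ∈ u i q r (⌊F (Function.extend j b c) r / ε⌋ - w r + w r)
    rw [sub_add_cancel, ← hc']
    exact hk r hr hX
  · intro e b q
    obtain ⟨k, hk⟩ := stage3_correct hε (t i) (C i) (UU i) (hU i) (push j e)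
      (Function.extend j b c) (h' i _ _) q
    have h1 := hF.extend hinj b c
    have h2 : ∀ᶠ r in atTop, |F (Function.extend j b c) r - F (push j b) r -
      F (Function.extend j (fun _ => 0) c) r| < ε := by
      have := h1.abs
      rw [abs_zero] at this
      exact this.eventually (gt_mem_nhds hε)
    obtain ⟨k2, hk2⟩ := eventually_atTop.1 h2
    refine ⟨max k k2, ?_⟩
    intro r hr hX v hv
    have h3 := hk r (le_trans (le_max_left _ _) hr) hX (v + w r) ((hc' _ _ _ _ _).2 hv)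
    have h4 := (hk2 r (le_trans (le_max_right _ _) hr)).le
    have h5 : |F (Function.extend j (fun _ => 0) c) r - w r * ε| ≤ ε := stage3_floor_close hε
    have h6 : Fp F j b r - v * ε = (F (Function.extend j b c) r - ((v + w r : ℤ) : ℝ) * ε) -
        (F (Function.extend j b c) r - F (push j b) r -
          F (Function.extend j (fun _ => 0) c) r) -
        (F (Function.extend j (fun _ => 0) c) r - w r * ε) := by
      push_cast
      ring
    rw [h6]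
    push_cast at h3 ⊢
    rw [abs_le] at *
    constructor <;> nlinarith [h3.1, h3.2, h4.1, h4.2, h5.1, h5.2]

end Pool.Agent.LC
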