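import Pool.Agent.LC.SI

open Filter Topology Set

namespace Pool.Agent.LC

namespace St5

/-- `mix R b x` restricted to `R` is `b` restricted to `R` -/
theorem res_mix_self (R : Set ℕ) (b x : Phi) : res R (mix R b x) = res R b := by
  classical
  funext l
  simp only [res, mix]
  split_ifs <;> rfl

theorem res_push_range {jR : ℕ → ℕ} {R : Set ℕ} (hjR : range jR = R) (e : Phi) :
    res R (push jR e) = push jR e := by
  classical
  funext l
  simp only [res]
  split_ifs with h
  · rfl
  · exact (push_off e (by rw [hjR]; exact h)).symm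

/-- A constant condition is Baire measurable. -/
theorem baire_const {α : Type*} [TopologicalSpace α] (p : Prop) :
    BaireMeasurableSet {_g : α | p} := by
  by_cases h : p
  · have : {_g : α | p} = univ := by ext; simp [h]
    rw [this]
    exact isOpen_univ.baireMeasurableSet
  · have : {_g : α | p} = ∅ := by ext; simp [h]
    rw [this]
    exact isOpen_empty.baireMeasurableSet

theorem baire_imp {α : Type*} [TopologicalSpace α] {p q : α → Prop}
    (hp : BaireMeasurableSet {g | p g}) (hq : BaireMeasurableSet {g | q g}) :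
    BaireMeasurableSet {g | p g → q g} := by
  have : {g | p g → q g} = {g | p g}ᶜ ∪ {g | q g} := by
    ext g; simp [imp_iff_not_or]
  rw [this]
  exact hp.compl.union hq

theorem baire_and {α : Type*} [TopologicalSpace α] {p q : α → Prop}
    (hp : BaireMeasurableSet {g | p g}) (hq : BaireMeasurableSet {g | q g}) :
    BaireMeasurableSet {g | p g ∧ q g} := by
  have : {g | p g ∧ q g} = {g | p g} ∩ {g | q g} := by
    ext g; simp
  rw [this]
  exact hp.inter hq

theorem baire_forall {α ι : Type*} [TopologicalSpace α] [Countable ι] {p : ι → α → Prop}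
    (hp : ∀ i, BaireMeasurableSet {g | p i g}) :
    BaireMeasurableSet {g | ∀ i, p i g} := by
  have : {g | ∀ i, p i g} = ⋂ i, {g | p i g} := by
    ext g; simp
  rw [this]
  exact BaireMeasurableSet.iInter hp

theorem baire_exists {α ι : Type*} [TopologicalSpace α] [Countable ι] {p : ι → α → Prop}
    (hp : ∀ i, BaireMeasurableSet {g | p i g}) :
    BaireMeasurableSet {g | ∃ i, p i g} := by
  have : {g | ∃ i, p i g} = ⋃ i, {g | p i g} := by
    ext g; simp
  rw [this]
  exact BaireMeasurableSet.iUnion hp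

end St5

open St5

theorem stage5 {F : Phi → ℕ → ℝ} {m ε K : ℝ} (hF : Sys F m ε K) (hε : 0 < ε)
    (s s' tb Cb : ℕ) (hs : 2 * s' + 2 ≤ s) (O : List (Fin 3) → ℕ → ℤ → Set Phi)
    (hD : Desc F m ε tb Cb O)
    (j : ℕ → ℕ) (hj : Function.Injective j) (Th : ℕ → ℕ → Set Phi)
    (hTh : ∀ n r, IsOpen (Th n r))
    (h : ∀ᶠ e in residual Phi, ∃ n k, (∀ r ≥ k, r ∈ X F m ε s (push j e) → e ∈ Th n r) ∧
        ∀ r, e ∈ Th n r → r ∈ X F m ε tb (push j e)) :
    ∃ j' : ℕ → ℕ, Function.Injective j' ∧
      ∃ (Θ : ℕ → Set (Phi × Phi)) (O' : List (Fin 3) → ℕ → ℤ → Set Phi),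
        Reg (Fp F j') m ε s' Cb Θ O' := by
  classical
  obtain ⟨j0, hj0m, c, hc⟩ := pattern_inj _ h
  have hj0 : Function.Injective j0 := hj0m.injective
  have hJ : Function.Injective (j ∘ j0) := hj.comp hj0
  let Th' : ℕ → ℕ → Set Phi := fun n r => {f | (Function.extend j0 f c : Phi) ∈ Th n r}
  have hTh' : ∀ n r, IsOpen (Th' n r) := fun n r => (hTh n r).preimage (continuous_extend j0 c)
  -- restriction of the big function
  have hres : ∀ (R : Set ℕ) (f : Phi),
      res ((j ∘ j0) '' R) (push j (Function.extend j0 f c)) = push (j ∘ j0) (res R f) := by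
    intro R f
    have h1 : res (j '' (j0 '' R)) (push j (Function.extend j0 f c))
        = push j (res (j0 '' R) (Function.extend j0 f c)) :=
      res_image_extend hj (j0 '' R) (Function.extend j0 f c) (fun _ => 0)
    rw [image_comp, h1, res_image_extend hj0, push_push hj hj0]
  let Good : ℕ → Set ℕ → Phi → Phi → Prop := fun n R f a =>
    (∃ k, ∀ r, k ≤ r → r ∈ X F m ε s' (push (j ∘ j0) (res R f)) → f ∈ Th' n r) ∧
    (∀ q, ∃ k, ∀ r, k ≤ r → f ∈ Th' n r → ∀ v : ℤ, push (j ∘ j0) a ∈ O q r v →
      |F (push (j ∘ j0) a) r - v * ε| ≤ Cb * ε) ∧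
    (∀ q0 : List (Fin 3), ∃ q, q0 <+: q ∧ ∃ k, ∀ r, k ≤ r → f ∈ Th' n r →
      ∃ v, push (j ∘ j0) a ∈ O q r v)
  have hB : ∀ n R Z u b a, BaireMeasurableSet {g : Phi | Good n R (mix R b (mix Z g u)) a} := by
    intro n R Z u b a
    have hV : ∀ r, BaireMeasurableSet {g : Phi | mix R b (mix Z g u) ∈ Th' n r} := fun r => by
      have hcont : Continuous (fun g : Phi => mix R b (mix Z g u)) := by
        have h1 : Continuous (fun g : Phi => mix Z g u) :=
          (continuous_mix Z).comp (continuous_id.prodMk continuous_const)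
        exact (continuous_mix R).comp (continuous_const.prodMk h1)
      exact ((hTh' n r).preimage hcont).baireMeasurableSet
    refine baire_and ?_ (baire_and ?_ ?_)
    · refine baire_exists fun k => baire_forall fun r => baire_imp (baire_const _)
        (baire_imp ?_ (hV r))
      simp only [res_mix_self]
      exact baire_const _
    · exact baire_forall fun q => baire_exists fun k => baire_forall fun r =>
        baire_imp (baire_const _) (baire_imp (hV r) (baire_const _))
    · exact baire_forall fun q0 => baire_exists fun q => baire_and (baire_const _)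
        (baire_exists fun k => baire_forall fun r =>
          baire_imp (baire_const _) (baire_imp (hV r) (baire_const _)))
  have hT : ∀ (f : Phi) (R : ℕ → Set ℕ) (a : ℕ → Phi), (∀ n, (R n).Infinite) →
      Pairwise (fun i i' => Disjoint (R i) (R i')) → (∀ n l, a n l ≠ 0 → l ∈ R n) →
      ∃ n, Good n (R n) f (a n) := by
    intro f R a _ _ _
    obtain ⟨n, k, h1, h2⟩ := hc f
    refine ⟨n, ?_, fun q => ?_, fun q0 => ?_⟩
    · have hup := hF.X_up hε ((j ∘ j0) '' (R n)) (push j (Function.extend j0 f c)) s'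
      obtain ⟨k2, hk2⟩ := eventually_atTop.1 hup
      refine ⟨max k k2, fun r hr hrX => ?_⟩
      refine h1 r (le_trans (le_max_left _ _) hr) ?_
      refine X_mono F hε.le hs _ (hk2 r (le_trans (le_max_right _ _) hr) ?_)
      rw [hres]; exact hrX
    · obtain ⟨k2, hk2⟩ := hD.correct (push j (Function.extend j0 f c)) (push (j ∘ j0) (a n)) q
      exact ⟨k2, fun r hr hf => hk2 r hr (h2 r hf)⟩
    · obtain ⟨q, hq, k2, hk2⟩ :=
        hD.total (push j (Function.extend j0 f c)) (push (j ∘ j0) (a n)) q0
      exact ⟨q, hq, k2, fun r hr hf => hk2 r hr (h2 r hf)⟩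
  obtain ⟨n, R, Z, u, hR, -, -, hmain⟩ := single_index Good hB hT
  have : Infinite R := hR.to_subtype
  let jR : ℕ → ℕ := Nat.orderEmbeddingOfSet R
  have hjR : range jR = R := Nat.orderEmbeddingOfSet_range R
  have hjRi : Function.Injective jR := (Nat.orderEmbeddingOfSet R).injective
  refine ⟨(j ∘ j0) ∘ jR, hJ.comp hjRi,
    fun r => {p | mix R (push jR p.1) (mix Z p.2 u) ∈ Th' n r},
    fun q r v => {b | push ((j ∘ j0) ∘ jR) b ∈ O q r v}, ?_, ?_, ?_, ?_⟩
  · intro r
    have hcont : Continuous (fun p : Phi × Phi => mix R (push jR p.1) (mix Z p.2 u)) := by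
      have h1 : Continuous (fun p : Phi × Phi => mix Z p.2 u) :=
        (continuous_mix Z).comp (continuous_snd.prodMk continuous_const)
      exact (continuous_mix R).comp (((continuous_push jR).comp continuous_fst).prodMk h1)
    exact (hTh' n r).preimage hcont
  · intro q r v
    exact (hD.isOpen q r v).preimage (continuous_push _)
  · intro q q' r v hq b hb
    exact hD.mono q q' r v hq hb
  · intro e b
    have hsupp : ∀ l, push jR b l ≠ 0 → l ∈ R := by
      intro l hl
      by_contra hlR
      exact hl (push_off b (by rw [hjR]; exact hlR))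
    filter_upwards [hmain (push jR e) (push jR b) hsupp] with g hg
    obtain ⟨⟨k, hk⟩, hg2, hg3⟩ := hg
    simp only [res_mix_self, res_push_range hjR, push_push hJ hjRi] at hk hg2 hg3
    refine ⟨eventually_atTop.2 ⟨k, fun r hr hrX => hk r hr hrX⟩, fun q => ?_, fun q0 => ?_⟩
    · obtain ⟨k2, hk2⟩ := hg2 q
      exact ⟨k2, fun r hr hΘ v hv => hk2 r hr hΘ v hv⟩
    · obtain ⟨q, hq, k2, hk2⟩ := hg3 q0
      exact ⟨q, hq, k2, fun r hr hΘ => hk2 r hr hΘ⟩

end Pool.Agent.LC
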