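import Pool.Agent.LC.Fusion

open Filter Topology Set

namespace Pool.Agent.LC

private lemma exists_block (k : ℕ → ℕ) (hk : StrictMono k) (hk0 : k 0 = 0) :
    ∃ ι : ℕ → ℕ, Tendsto ι atTop atTop ∧ ∀ r, k (ι r) ≤ r ∧ r < k (ι r + 1) := by
  classical
  have hblock : ∀ r, ∃ i, k i ≤ r ∧ r < k (i + 1) := by
    intro r
    refine ⟨Nat.findGreatest (fun i => k i ≤ r) r, ?_, ?_⟩
    · exact Nat.findGreatest_spec (P := fun i => k i ≤ r) (Nat.zero_le r) (by simp [hk0])
    · by_contra hcon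
      push Not at hcon
      have h1 : Nat.findGreatest (fun i => k i ≤ r) r + 1 ≤ r :=
        le_trans (hk.id_le _) hcon
      have h2 := Nat.findGreatest_is_greatest (P := fun i => k i ≤ r)
        (Nat.lt_succ_self (Nat.findGreatest (fun i => k i ≤ r) r)) h1
      exact h2 hcon
  choose ι h1 h2 using hblock
  refine ⟨ι, ?_, fun r => ⟨h1 r, h2 r⟩⟩
  rw [tendsto_atTop_atTop]
  intro N
  refine ⟨k N, fun r hr => ?_⟩
  by_contra hcon
  push Not at hcon
  have h3 : k (ι r + 1) ≤ k N := hk.monotone hcon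
  have h4 := h2 r
  omega

theorem stage6 {F : Phi → ℕ → ℝ} {m ε K : ℝ} (hF : Sys F m ε K) (hε : 0 < ε)
    {C : ℕ} {Θ : ℕ → Set (Phi × Phi)} {O : List (Fin 3) → ℕ → ℤ → Set Phi}
    (hR : Reg F m ε 4 C Θ O) :
    ∃ j : ℕ → ℕ, Function.Injective j ∧ ∃ ι : ℕ → ℕ, Tendsto ι atTop atTop ∧
      ∀ e b b' : Phi, ∀ᶠ r in atTop, r ∈ X (Fp F j) m ε 1 e → b (ι r) = b' (ι r) →
        |Fp F j b r - Fp F j b' r| ≤ (4 * C + 3 : ℕ) * ε := by
  classical
  obtain ⟨j, k, ce, cb, hj, hk, hk0, hA, hB⟩ := fusion hF hε hR (⌈K / ε⌉ + C)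
  have hji := hj.injective
  obtain ⟨ι, hι, hkι⟩ := exists_block k hk hk0
  refine ⟨j, hji, ι, hι, ?_⟩
  intro e b b'
  by_contra hcon
  have hfreq : ∃ᶠ r in atTop, r ∈ X (Fp F j) m ε 1 e ∧ b (ι r) = b' (ι r) ∧
      ((4 * C + 3 : ℕ) : ℝ) * ε < |Fp F j b r - Fp F j b' r| := by
    rw [Filter.not_eventually] at hcon
    refine hcon.mono ?_
    intro r hr
    push Not at hr
    exact ⟨hr.1, hr.2.1, hr.2.2⟩
  set B : Set ℕ := {r | r ∈ X (Fp F j) m ε 1 e ∧ b (ι r) = b' (ι r) ∧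
      ((4 * C + 3 : ℕ) : ℝ) * ε < |Fp F j b r - Fp F j b' r|} with hBdef
  set e1 : Phi := Function.extend j e ce with he1
  set b1 : Phi := Function.extend j b cb with hb1
  set b2 : Phi := Function.extend j b' cb with hb2
  -- the choice of the conditions
  choose p' hp' hp'' using hA
  -- the dense open sets
  let G : List (Fin 3) → ℕ → Set Phi := fun q M =>
    {g | ∃ r, ∃ (_ : r ∈ B) (_ : M ≤ r) (p : List (Fin 3)) (hq : Encodable.encode q < ι r)
      (hp : Encodable.encode p < ι r), g ∈ cyl (p' (ι r) q p hq hp e)}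
  have hGo : ∀ q M, IsOpen (G q M) := by
    intro q M
    rw [isOpen_iff_forall_mem_open]
    rintro g ⟨r, hr, hM, p, hq, hp, hg⟩
    exact ⟨_, fun g' hg' => ⟨r, hr, hM, p, hq, hp, hg'⟩, cyl_open _, hg⟩
  have hGd : ∀ q M, Dense (G q M) := by
    intro q M
    rw [dense_iff_inter_open]
    intro U hU hUne
    obtain ⟨g0, hg0⟩ := hUne
    obtain ⟨p, -, hpU⟩ := exists_cyl_subset hU (p := [])
      ⟨g0, hg0, fun i h => absurd h (by simp)⟩
    have h1 : ∀ᶠ r in atTop, max (Encodable.encode q) (Encodable.encode p) + 1 ≤ ι r :=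
      hι.eventually_ge_atTop _
    have h2 := hfreq.and_eventually (h1.and (eventually_ge_atTop M))
    obtain ⟨r, hr, hr1, hr2⟩ := h2.exists
    have hq : Encodable.encode q < ι r := by
      have := le_max_left (Encodable.encode q) (Encodable.encode p)
      omega
    have hp : Encodable.encode p < ι r := by
      have := le_max_right (Encodable.encode q) (Encodable.encode p)
      omega
    obtain ⟨g, hg⟩ := cyl_nonempty (p' (ι r) q p hq hp e)
    exact ⟨g, hpU (cyl_mono (hp' (ι r) q p hq hp e) hg), r, hr, hr2, p, hq, hp, hg⟩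
  have hGr : ∀ᶠ g in residual Phi, ∀ q M, g ∈ G q M := by
    rw [eventually_countable_forall]
    intro q
    rw [eventually_countable_forall]
    intro M
    exact residual_of_dense_open (hGo q M) (hGd q M)
  obtain ⟨g, -, hg1, hg2, hg3⟩ := exists_mem_cyl
    ((hR.main e1 b1).and ((hR.main e1 b2).and hGr)) []
  obtain ⟨hα, hβ1, hδ1⟩ := hg1
  obtain ⟨-, hβ2, hδ2⟩ := hg2
  obtain ⟨q1, -, k1, hq1⟩ := hδ1 []
  obtain ⟨q2, hq12, k2, hq2⟩ := hδ2 q1
  obtain ⟨k3, hk3⟩ := hβ1 q2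
  obtain ⟨k4, hk4⟩ := hβ2 q2
  have hup := hF.X_up hε (range j) e1 1
  rw [he1, res_range_extend hji, ← he1] at hup
  have hcl1 := hF.extend hji b cb
  have hcl2 := hF.extend hji b' cb
  have hcl1' : ∀ᶠ r in atTop, |F b1 r - F (push j b) r -
      F (Function.extend j (fun _ => 0) cb) r| < ε := by
    have := (Metric.tendsto_nhds.1 hcl1) ε hε
    simpa [Real.dist_eq] using this
  have hcl2' : ∀ᶠ r in atTop, |F b2 r - F (push j b') r -
      F (Function.extend j (fun _ => 0) cb) r| < ε := by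
    have := (Metric.tendsto_nhds.1 hcl2) ε hε
    simpa [Real.dist_eq] using this
  obtain ⟨M, hM⟩ := Filter.eventually_atTop.1 (hα.and (hup.and (hcl1'.and hcl2')))
  obtain ⟨r, hrB, hrM, p, hq, hp, hgr⟩ := hg3 q2 (max M (max (max k1 k2) (max k3 k4)))
  have hrM' : M ≤ r := le_trans (le_max_left _ _) hrM
  have hrk : max (max k1 k2) (max k3 k4) ≤ r := le_trans (le_max_right _ _) hrM
  have hrk1 : k1 ≤ r := le_trans (le_trans (le_max_left _ _) (le_max_left _ _)) hrk
  have hrk2 : k2 ≤ r := le_trans (le_trans (le_max_right _ _) (le_max_left _ _)) hrk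
  have hrk3 : k3 ≤ r := le_trans (le_trans (le_max_left _ _) (le_max_right _ _)) hrk
  have hrk4 : k4 ≤ r := le_trans (le_trans (le_max_right _ _) (le_max_right _ _)) hrk
  obtain ⟨hMα, hMup, hM1, hM2⟩ := hM r hrM'
  obtain ⟨hrX, hbb, hbig⟩ := hrB
  have hX4 : r ∈ X F m ε 4 e1 := hMup hrX
  have hΘ : (e1, g) ∈ Θ r := hMα hX4
  obtain ⟨v, hv⟩ := hq1 r hrk1 hΘ
  have hv2 : b1 ∈ O q2 r v := hR.mono q1 q2 r v hq12 hv
  obtain ⟨v', hv'⟩ := hq2 r hrk2 hΘ
  have hb1v := hk3 r hrk3 hΘ v hv2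
  have hb2v := hk4 r hrk4 hΘ v' hv'
  -- bound on v'
  have hV : |v'| ≤ ⌈K / ε⌉ + C := by
    have h1 : |(v' : ℝ)| * ε ≤ K + C * ε := by
      have h2 : |(v' : ℝ) * ε| ≤ |F b2 r| + |F b2 r - v' * ε| := by
        have := abs_sub_abs_le_abs_sub ((v' : ℝ) * ε) (F b2 r)
        rw [abs_sub_comm ((v' : ℝ) * ε) (F b2 r)] at this
        linarith
      rw [abs_mul, abs_of_pos hε] at h2
      have := hF.bdd b2 r
      linarith
    have h3 : |(v' : ℝ)| ≤ K / ε + C := by
      have h4 : K + C * ε = (K / ε + C) * ε := by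
        field_simp
      rw [h4] at h1
      exact le_of_mul_le_mul_right h1 hε
    have h5 : (|v'| : ℝ) ≤ ((⌈K / ε⌉ + C : ℤ) : ℝ) := by
      push_cast
      have := Int.le_ceil (K / ε)
      linarith
    exact_mod_cast h5
  -- the changed function
  set bs : Phi := Function.extend j (fun l => if l < ι r then b' l else b l) cb with hbs
  have hjapp : ∀ (f c : Phi) (l : ℕ), (Function.extend j f c : Phi) (j l) = f l :=
    fun f c l => hji.extend_apply f c l
  have hjoff : ∀ (f c : Phi) (n : ℕ), n ∉ range j → (Function.extend j f c : Phi) n = c n := by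
    intro f c n hn
    exact Function.extend_apply' f c n (fun ⟨a, ha⟩ => hn ⟨a, ha⟩)
  have hbsO : bs ∈ O q2 r v' := by
    refine hB (ι r) q2 hq r (hkι r).2 v' hV b2 bs (hjoff _ _) (hjoff _ _) ?_ hv'
    intro l hl
    rw [hb2, hbs, hjapp, hjapp]
    by_cases h : l < ι r
    · rw [if_pos h]
    · rw [if_neg h]
      have : l = ι r := by omega
      rw [this, hbb]
  have hvv : |v - v'| ≤ 2 * C + 1 := by
    refine hp'' (ι r) q2 p hq hp e e1 b1 bs g (hjoff _ _) (fun l _ => hjapp _ _ l) (hjoff _ _) ?_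
      hgr r (hkι r).1 hΘ v v' hv2 hbsO
    intro n hn
    by_cases hnr : n ∈ range j
    · obtain ⟨l, rfl⟩ := hnr
      have hl : ¬ l < ι r := fun h => hn ⟨l, h, rfl⟩
      rw [hb1, hbs, hjapp, hjapp, if_neg hl]
    · rw [hb1, hbs, hjoff _ _ n hnr, hjoff _ _ n hnr]
  have hvvR : |(v : ℝ) - v'| ≤ 2 * C + 1 := by exact_mod_cast hvv
  have hvvε : |(v : ℝ) * ε - v' * ε| ≤ (2 * C + 1) * ε := by
    rw [← sub_mul, abs_mul, abs_of_pos hε]
    exact mul_le_mul_of_nonneg_right hvvR hε.le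
  have hfin : |Fp F j b r - Fp F j b' r| ≤ (4 * C + 3 : ℕ) * ε := by
    have e0 : Fp F j b r - Fp F j b' r =
        -(F b1 r - F (push j b) r - F (Function.extend j (fun _ => 0) cb) r) +
        (F b2 r - F (push j b') r - F (Function.extend j (fun _ => 0) cb) r) +
        (F b1 r - v * ε) + (v * ε - v' * ε) + -(F b2 r - v' * ε) := by
      change F (push j b) r - F (push j b') r = _
      ring
    rw [e0]
    have a1 := abs_le.1 hM1.le
    have a2 := abs_le.1 hM2.le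
    have a3 := abs_le.1 hb1v
    have a4 := abs_le.1 hvvε
    have a5 := abs_le.1 hb2v
    have hcast : ((4 * C + 3 : ℕ) : ℝ) * ε = ε + ε + C * ε + (2 * C + 1) * ε + C * ε := by
      push_cast
      ring
    rw [hcast, abs_le]
    constructor <;> linarith [a1.1, a1.2, a2.1, a2.2, a3.1, a3.2, a4.1, a4.2, a5.1, a5.2]
  exact absurd hfin (not_le.2 hbig)

end Pool.Agent.LC
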