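import Pool.Agent.LC.StepZB

open Filter Topology Set

namespace Pool.Agent.LC

/-- The diagonal case. -/
theorem stepZ_diag {S : (ℕ → ℝ) → ℕ → ℝ} {K : ℝ} (hS : Lift S K) (hK : 0 < K) (κ : ℝ)
    (hκ : 0 < κ)
    (hat : ∀ R : Set ℕ, ∀ᶠ k in atTop, k ∈ R → κ ≤ S (R.indicator 1) k) :
    ∃ B : Set ℕ, B.Infinite ∧ ∃ c : ℝ, c ≠ 0 ∧ ∀ f, Bdd f → (∀ n, f n ≠ 0 → n ∈ B) →
      Tendsto (fun k => S f k - c * f k) (atTop ⊓ 𝓟 B) (𝓝 0) := by
  have hex : ∀ (n : ℕ) (B0 : Set ℕ), ∃ (B : Set ℕ) (c : ℝ), B0.Infinite →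
      (B ⊆ B0 ∧ B.Infinite ∧ κ ≤ c ∧ ∀ f : ℕ → ℝ, (∀ n, |f n| ≤ 1) → (∀ n, f n ≠ 0 → n ∈ B) →
        ∀ᶠ k in atTop, k ∈ B → |S f k - c * f k| ≤ 1 / ((n : ℝ) + 1)) := by
    intro n B0
    by_cases h : B0.Infinite
    · obtain ⟨B, hB, hBi, c, hc, h'⟩ := z_near hS hK κ hat B0 h (1 / ((n : ℝ) + 1))
        (by positivity)
      exact ⟨B, c, fun _ => ⟨hB, hBi, hc, h'⟩⟩
    · exact ⟨∅, 0, fun h' => absurd h' h⟩
  choose nb nc hn using hex
  let Bs : ℕ → Set ℕ := fun i => Nat.rec Set.univ (fun i s => nb i s) i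
  have hBs : ∀ i, Bs (i + 1) = nb i (Bs i) := fun i => rfl
  have hinf : ∀ i, (Bs i).Infinite := by
    intro i
    induction i with
    | zero => exact Set.infinite_univ
    | succ i ih =>
      rw [hBs]
      exact (hn i (Bs i) ih).2.1
  let cs : ℕ → ℝ := fun i => nc i (Bs i)
  have hsub : ∀ i, Bs (i + 1) ⊆ Bs i := fun i => (hn i (Bs i) (hinf i)).1
  have hcs : ∀ i, κ ≤ cs i := fun i => (hn i (Bs i) (hinf i)).2.2.1
  have hprop : ∀ i, ∀ f : ℕ → ℝ, (∀ n, |f n| ≤ 1) → (∀ n, f n ≠ 0 → n ∈ Bs (i + 1)) →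
        ∀ᶠ k in atTop, k ∈ Bs (i + 1) → |S f k - cs i * f k| ≤ 1 / ((i : ℝ) + 1) :=
    fun i => (hn i (Bs i) (hinf i)).2.2.2
  have hanti : Antitone Bs := antitone_nat_of_succ_le hsub
  have hcomp : ∀ n m, n ≤ m → |cs n - cs m| ≤ 1 / ((n : ℝ) + 1) + 1 / ((m : ℝ) + 1) := by
    intro n m hnm
    have h1 : ∀ k, |(Bs (m + 1)).indicator (1 : ℕ → ℝ) k| ≤ 1 := by
      intro k
      by_cases hk : k ∈ Bs (m + 1)
      · simp [Set.indicator_of_mem hk]
      · simp [Set.indicator_of_notMem hk]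
    have h2 : ∀ k, (Bs (m + 1)).indicator (1 : ℕ → ℝ) k ≠ 0 → k ∈ Bs (m + 1) := by
      intro k hk
      exact Set.mem_of_indicator_ne_zero hk
    have h3 : ∀ k, (Bs (m + 1)).indicator (1 : ℕ → ℝ) k ≠ 0 → k ∈ Bs (n + 1) := by
      intro k hk
      exact hanti (Nat.succ_le_succ hnm) (h2 k hk)
    have e1 := hprop m _ h1 h2
    have e2 := hprop n _ h1 h3
    obtain ⟨N, hN⟩ := (e1.and e2).exists_forall_of_atTop
    obtain ⟨k, hk, hkN⟩ := (hinf (m + 1)).exists_gt N
    obtain ⟨a1, a2⟩ := hN k hkN.le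
    have b1 := a1 hk
    have b2 := a2 (hanti (Nat.succ_le_succ hnm) hk)
    have hk1 : (Bs (m + 1)).indicator (1 : ℕ → ℝ) k = 1 := by
      rw [Set.indicator_of_mem hk]
      rfl
    rw [hk1, mul_one] at b1 b2
    have : cs n - cs m = (S ((Bs (m + 1)).indicator 1) k - cs m) -
        (S ((Bs (m + 1)).indicator 1) k - cs n) := by ring
    rw [this]
    calc _ ≤ |S ((Bs (m + 1)).indicator 1) k - cs m| + |S ((Bs (m + 1)).indicator 1) k - cs n| :=
          abs_sub _ _
      _ ≤ _ := by linarith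
  have hcau : CauchySeq cs := by
    apply cauchySeq_of_le_tendsto_0 (fun N : ℕ => 2 / ((N : ℝ) + 1))
    · intro n m N hn hm
      have key : ∀ n m : ℕ, N ≤ n → N ≤ m → n ≤ m → dist (cs n) (cs m) ≤ 2 / ((N : ℝ) + 1) := by
        intro n m hn hm hnm
        rw [Real.dist_eq]
        refine le_trans (hcomp n m hnm) ?_
        have h1 : (1 : ℝ) / ((n : ℝ) + 1) ≤ 1 / ((N : ℝ) + 1) := by
          apply one_div_le_one_div_of_le (by positivity)
          have : (N : ℝ) ≤ n := by exact_mod_cast hn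
          linarith
        have h2 : (1 : ℝ) / ((m : ℝ) + 1) ≤ 1 / ((N : ℝ) + 1) := by
          apply one_div_le_one_div_of_le (by positivity)
          have : (N : ℝ) ≤ m := by exact_mod_cast hm
          linarith
        calc _ ≤ 1 / ((N : ℝ) + 1) + 1 / ((N : ℝ) + 1) := add_le_add h1 h2
          _ = _ := by ring
      rcases le_total n m with h | h
      · exact key n m hn hm h
      · rw [dist_comm]
        exact key m n hm hn h
    · have := tendsto_one_div_add_atTop_nhds_zero_nat (𝕜 := ℝ)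
      have h2 := this.const_mul 2
      rw [mul_zero] at h2
      refine h2.congr fun N => ?_
      ring
  obtain ⟨c, hc⟩ := cauchySeq_tendsto_of_complete hcau
  have hcκ : κ ≤ c := ge_of_tendsto' hc hcs
  -- the diagonal set
  have hx : ∀ (n a : ℕ), ∃ b, b ∈ Bs (n + 1) ∧ a < b := fun n a => by
    obtain ⟨b, hb, hab⟩ := (hinf (n + 1)).exists_gt a
    exact ⟨b, hb, hab⟩
  choose nx hnx1 hnx2 using hx
  let x : ℕ → ℕ := fun i => Nat.rec 0 (fun i s => nx i s) i
  have hx1 : ∀ i, x (i + 1) = nx i (x i) := fun i => rfl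
  have hxmono : StrictMono x := by
    apply strictMono_nat_of_lt_succ
    intro i
    rw [hx1]
    exact hnx2 _ _
  have hxmem : ∀ i, x i ∈ Bs i := by
    intro i
    cases i with
    | zero => exact Set.mem_univ _
    | succ i =>
      rw [hx1]
      exact hnx1 _ _
  have hfin : ∀ n, (range x \ Bs n).Finite := by
    intro n
    apply ((Set.finite_lt_nat n).image x).subset
    rintro _ ⟨⟨i, rfl⟩, hi⟩
    refine ⟨i, ?_, rfl⟩
    by_contra h
    exact hi (hanti (not_lt.mp h) (hxmem i))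
  refine ⟨range x, Set.infinite_range_of_injective hxmono.injective, c, by linarith, ?_⟩
  intro f hf hsupp
  obtain ⟨M0, hM0⟩ := hf
  set M : ℝ := |M0| + 1 with hM
  have hMpos : 0 < M := by positivity
  have hfM : ∀ n, |f n| ≤ M := fun n => by
    have := hM0 n
    have h2 := le_abs_self M0
    linarith
  rw [Metric.tendsto_nhds]
  intro η hη
  obtain ⟨n, hn1, hn2⟩ : ∃ n : ℕ, 1 / ((n : ℝ) + 1) < η / (4 * M) ∧ |cs n - c| < η / (4 * M) := by
    have h1 := (tendsto_one_div_add_atTop_nhds_zero_nat (𝕜 := ℝ)).eventually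
      (gt_mem_nhds (show (0 : ℝ) < η / (4 * M) by positivity))
    have h2 := (Metric.tendsto_nhds.mp hc) (η / (4 * M)) (by positivity)
    obtain ⟨n, hn⟩ := (h1.and h2).exists
    exact ⟨n, hn.1, hn.2⟩
  set g : ℕ → ℝ := (Bs (n + 1)).indicator (fun k => f k / M) with hg
  have hg1 : ∀ k, |g k| ≤ 1 := by
    intro k
    by_cases hk : k ∈ Bs (n + 1)
    · rw [hg, Set.indicator_of_mem hk, abs_div, abs_of_pos hMpos]
      exact (div_le_one hMpos).mpr (hfM k)
    · rw [hg, Set.indicator_of_notMem hk]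
      simp
  have hg2 : ∀ k, g k ≠ 0 → k ∈ Bs (n + 1) := fun k hk => Set.mem_of_indicator_ne_zero hk
  have hgb : Bdd g := ⟨1, hg1⟩
  classical
  set h : ℕ → ℝ := fun k => if k ∈ range x \ Bs (n + 1) then f k else 0 with hh
  have hh0 : Tendsto h atTop (𝓝 0) := by
    apply tendsto_const_nhds.congr'
    obtain ⟨N, hN⟩ := (hfin (n + 1)).bddAbove
    filter_upwards [eventually_gt_atTop N] with k hk
    rw [hh]
    simp only
    rw [if_neg]
    intro hk'
    have := hN hk'
    omega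
  have hhb : Bdd h := by
    refine ⟨M, fun k => ?_⟩
    rw [hh]
    simp only
    split_ifs
    · exact hfM k
    · simpa using hMpos.le
  have hfeq : f = M • g + h := by
    funext k
    simp only [Pi.add_apply, Pi.smul_apply, smul_eq_mul]
    by_cases hk : k ∈ Bs (n + 1)
    · have h1 : g k = f k / M := by rw [hg, Set.indicator_of_mem hk]
      have h2 : h k = 0 := by
        rw [hh]
        simp only
        rw [if_neg]
        exact fun h' => h'.2 hk
      rw [h1, h2, add_zero]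
      field_simp
    · have h1 : g k = 0 := by rw [hg, Set.indicator_of_notMem hk]
      rw [h1, mul_zero, zero_add]
      by_cases hk2 : k ∈ range x
      · rw [hh]
        simp only
        rw [if_pos ⟨hk2, hk⟩]
      · rw [hh]
        simp only
        rw [if_neg (fun h' => hk2 h'.1)]
        by_contra h3
        exact hk2 (hsupp k h3)
  have hMg : Bdd (M • g) := by
    refine ⟨M, fun k => ?_⟩
    simp only [Pi.smul_apply, smul_eq_mul, abs_mul, abs_of_pos hMpos]
    have := hg1 k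
    nlinarith
  have t1 := hS.add (M • g) h hMg hhb
  rw [← hfeq] at t1
  have t2 := hS.smul M g hgb
  have t3 := hS.zero h hh0
  have t4 := (t1.add t2).add t3
  rw [add_zero, add_zero] at t4
  have t5 := (Metric.tendsto_nhds.mp t4) (η / 4) (by positivity)
  have t6 := hprop n g hg1 hg2
  obtain ⟨N, hN⟩ := (hfin (n + 1)).bddAbove
  rw [eventually_inf_principal]
  filter_upwards [t5, t6, eventually_gt_atTop N] with k a1 a2 a3 hkB
  have hkn : k ∈ Bs (n + 1) := by
    by_contra hcon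
    have := hN ⟨hkB, hcon⟩
    omega
  have a4 := a2 hkn
  have hgk : g k = f k / M := by rw [hg, Set.indicator_of_mem hkn]
  rw [Real.dist_eq, sub_zero] at a1 ⊢
  have hfk : f k = M * g k := by
    rw [hgk]
    field_simp
  have e1 : S f k - c * f k = (S f k - S (M • g) k - S h k + (S (M • g) k - M * S g k) + S h k)
      + M * (S g k - cs n * g k) + M * ((cs n - c) * g k) := by
    rw [hfk]
    ring
  rw [e1]
  have e2 : |M * (S g k - cs n * g k)| < η / 4 := by
    rw [abs_mul, abs_of_pos hMpos]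
    calc M * |S g k - cs n * g k| ≤ M * (1 / ((n : ℝ) + 1)) :=
          mul_le_mul_of_nonneg_left a4 hMpos.le
      _ < M * (η / (4 * M)) := mul_lt_mul_of_pos_left hn1 hMpos
      _ = η / 4 := by field_simp
  have e3 : |M * ((cs n - c) * g k)| < η / 4 := by
    rw [abs_mul, abs_of_pos hMpos, abs_mul]
    calc M * (|cs n - c| * |g k|) ≤ M * (|cs n - c| * 1) := by
          apply mul_le_mul_of_nonneg_left _ hMpos.le
          exact mul_le_mul_of_nonneg_left (hg1 k) (abs_nonneg _)
      _ = M * |cs n - c| := by ring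
      _ < M * (η / (4 * M)) := mul_lt_mul_of_pos_left hn2 hMpos
      _ = η / 4 := by field_simp
  calc _ ≤ |S f k - S (M • g) k - S h k + (S (M • g) k - M * S g k) + S h k| +
        |M * (S g k - cs n * g k)| + |M * ((cs n - c) * g k)| := abs_add_three _ _ _
    _ < η := by linarith

theorem extend_bdd {nn : ℕ → ℕ} (hnn : Function.Injective nn) {f : ℕ → ℝ} {M : ℝ} (hM : 0 ≤ M)
    (hf : ∀ n, |f n| ≤ M) : ∀ n, |Function.extend nn f 0 n| ≤ M := by
  intro n
  by_cases h : ∃ k, nn k = n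
  · obtain ⟨k, rfl⟩ := h
    rw [hnn.extend_apply]
    exact hf k
  · rw [Function.extend_apply' _ _ _ h]
    simpa using hM

theorem extend_indicator {nn : ℕ → ℕ} (hnn : Function.Injective nn) (R : Set ℕ) :
    Function.extend nn (R.indicator (1 : ℕ → ℝ)) 0 = (nn '' R).indicator 1 := by
  funext n
  by_cases h : ∃ k, nn k = n
  · obtain ⟨k, rfl⟩ := h
    rw [hnn.extend_apply]
    by_cases hk : k ∈ R
    · rw [Set.indicator_of_mem hk, Set.indicator_of_mem (Set.mem_image_of_mem nn hk)]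
      rfl
    · rw [Set.indicator_of_notMem hk, Set.indicator_of_notMem]
      rintro ⟨l, hl, hlk⟩
      exact hk (hnn hlk ▸ hl)
  · rw [Function.extend_apply' _ _ _ h, Set.indicator_of_notMem]
    · rfl
    · rintro ⟨l, _, hl⟩
      exact h ⟨l, hl⟩

theorem lift_transport {L : (ℕ → ℝ) → ℕ → ℝ} {K : ℝ} (hL : Lift L K) (rr nn : ℕ → ℕ)
    (hrr : StrictMono rr) (hnn : Function.Injective nn) (sg : ℝ) (hsg : sg = 1 ∨ sg = -1) :
    Lift (fun f k => sg * L (Function.extend nn f 0) (rr k)) K := by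
  have habs : |sg| = 1 := by
    rcases hsg with rfl | rfl
    · simp
    · simp
  have hB : ∀ f : ℕ → ℝ, Bdd f → Bdd (Function.extend nn f 0) := by
    rintro f ⟨M, hM⟩
    exact ⟨M, extend_bdd hnn (le_trans (abs_nonneg _) (hM 0)) hM⟩
  refine ⟨?_, ?_, ?_, ?_⟩
  · intro f g hf hg
    have h1 := (hL.add _ _ (hB f hf) (hB g hg)).comp hrr.tendsto_atTop
    have h2 := h1.const_mul sg
    rw [mul_zero] at h2
    refine h2.congr fun k => ?_
    have h3 : Function.extend nn (f + g) 0 = Function.extend nn f 0 + Function.extend nn g 0 := by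
      funext n
      by_cases h : ∃ k, nn k = n
      · obtain ⟨k, rfl⟩ := h
        simp only [Pi.add_apply, hnn.extend_apply]
      · simp only [Pi.add_apply, Function.extend_apply' _ _ _ h, Pi.zero_apply, add_zero]
    simp only [Function.comp_apply]
    rw [h3]
    ring
  · intro c f hf
    have h1 := (hL.smul c _ (hB f hf)).comp hrr.tendsto_atTop
    have h2 := h1.const_mul sg
    rw [mul_zero] at h2
    refine h2.congr fun k => ?_
    have h3 : Function.extend nn (c • f) 0 = c • Function.extend nn f 0 := by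
      funext n
      by_cases h : ∃ k, nn k = n
      · obtain ⟨k, rfl⟩ := h
        simp only [Pi.smul_apply, hnn.extend_apply]
      · simp only [Pi.smul_apply, Function.extend_apply' _ _ _ h, Pi.zero_apply, smul_zero]
    simp only [Function.comp_apply]
    rw [h3]
    ring
  · intro f hf
    have h0 : Tendsto (Function.extend nn f 0) atTop (𝓝 0) := by
      rw [Metric.tendsto_nhds] at hf ⊢
      intro η hη
      have h1 := hf η hη
      rw [← Nat.cofinite_eq_atTop] at h1 ⊢
      rw [Filter.eventually_cofinite] at h1 ⊢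
      apply (h1.image nn).subset
      intro n hn
      by_cases h : ∃ k, nn k = n
      · obtain ⟨k, rfl⟩ := h
        refine ⟨k, ?_, rfl⟩
        simpa only [Set.mem_ofPred_eq, hnn.extend_apply] using hn
      · exfalso
        simp only [Set.mem_ofPred_eq, Function.extend_apply' _ _ _ h, Pi.zero_apply,
          dist_self] at hn
        exact hn hη
    have h1 := (hL.zero _ h0).comp hrr.tendsto_atTop
    have h2 := h1.const_mul sg
    rw [mul_zero] at h2
    exact h2
  · intro f M hM hf r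
    rw [abs_mul, habs, one_mul]
    exact hL.bdd _ M hM (extend_bdd hnn hM.le hf) _

theorem stepZ {L : (ℕ → ℝ) → ℕ → ℝ} {K : ℝ} (hL : Lift L K) (hK : 0 < K) (rr nn : ℕ → ℕ)
    (hrr : StrictMono rr) (hnn : Function.Injective nn) (sg κ : ℝ) (hsg : sg = 1 ∨ sg = -1)
    (hκ : 0 < κ)
    (hat : ∀ R : Set ℕ, ∀ᶠ k in atTop, k ∈ R → κ ≤ sg * L ((nn '' R).indicator 1) (rr k)) :
    ∃ B : Set ℕ, B.Infinite ∧ ∃ c : ℝ, c ≠ 0 ∧ ∀ f, Bdd f → (∀ n, f n ≠ 0 → n ∈ nn '' B) →
      Tendsto (fun k => L f (rr k) - c * f (nn k)) (atTop ⊓ 𝓟 B) (𝓝 0) := by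
  obtain ⟨B, hB, c, hc, h⟩ := stepZ_diag (lift_transport hL rr nn hrr hnn sg hsg) hK κ hκ (by
    intro R
    filter_upwards [hat R] with k hk hkR
    rw [extend_indicator hnn]
    exact hk hkR)
  have hsg2 : sg * sg = 1 := by
    rcases hsg with rfl | rfl
    · norm_num
    · norm_num
  have hsg0 : sg ≠ 0 := by
    rintro rfl
    norm_num at hsg2
  refine ⟨B, hB, sg * c, mul_ne_zero hsg0 hc, fun f hf hsupp => ?_⟩
  have hfb : Bdd (f ∘ nn) := by
    obtain ⟨M, hM⟩ := hf
    exact ⟨M, fun n => hM _⟩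
  have h1 := h (f ∘ nn) hfb (by
    intro n hn
    obtain ⟨l, hl, hln⟩ := hsupp _ hn
    exact hnn hln ▸ hl)
  have h2 : Function.extend nn (f ∘ nn) 0 = f := by
    funext n
    by_cases h : ∃ k, nn k = n
    · obtain ⟨k, rfl⟩ := h
      rw [hnn.extend_apply]
      rfl
    · rw [Function.extend_apply' _ _ _ h]
      by_contra h3
      obtain ⟨l, _, hl⟩ := hsupp n (fun h4 => h3 (by rw [h4]; rfl))
      exact h ⟨l, hl⟩
  have h3 := h1.const_mul sg
  rw [mul_zero] at h3
  refine h3.congr fun k => ?_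
  simp only [Function.comp_apply]
  rw [h2]
  linear_combination (L f (rr k)) * hsg2

end Pool.Agent.LC
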