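import Pool.Agent.LC.Oca1
import Pool.Agent.LC.Oca2
import Pool.Agent.LC.Stage1
import Pool.Agent.LC.Stage2
import Pool.Agent.LC.Stage3
import Pool.Agent.LC.Stage5
import Pool.Agent.LC.Stage6
import Pool.Agent.LC.Atom
import Pool.Agent.LC.StepZ
import Pool.Agent.LC.Lifting

open Filter Topology Set

namespace Pool.Agent.LC

theorem sys_to_atom (hO : OCA) {F : Phi → ℕ → ℝ} {m K : ℝ} (hm : 0 < m)
    (hF : Sys F m (m / 100000) K) :
    ∃ (rr nn : ℕ → ℕ) (sg : ℝ), StrictMono rr ∧ Function.Injective nn ∧ (sg = 1 ∨ sg = -1) ∧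
      ∀ R : Set ℕ, ∀ᶠ k in atTop, k ∈ R → m / 2 ≤ sg * F (ind (nn '' R)) (rr k) := by
  have hε : (0 : ℝ) < m / 100000 := by positivity
  obtain ⟨j1, hj1, U1, hU1, h1⟩ := oca1 hO hF hε ![46, 1018]
  obtain ⟨j2, hj2, U2, hU2, h2⟩ := stage1 hF hε ![46, 1018] j1 hj1 U1 hU1 h1
  have hF2 := hF.push hj2
  obtain ⟨j3, hj3, UU, hUU, h3⟩ := stage2 hF2 hε ![46, 1018] ![22, 508]
    (by intro i; fin_cases i <;> simp) U2 hU2 h2
  have hF3 := hF2.push hj3
  obtain ⟨j4, hj4, O, h4⟩ := stage3 hF3 hε ![22, 508]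
    (fun i => 2 * (![46, 1018] : Fin 2 → ℕ) i + (![22, 508] : Fin 2 → ℕ) i + 9) UU hUU
    (by simpa using h3)
  have hF4 := hF3.push hj4
  have hDa := h4 0
  have hDb := h4 1
  norm_num at hDa hDb
  obtain ⟨j5, hj5, Th, hTh, h5⟩ := oca2 hO hF4 hε 10 22 249 508 (by norm_num) (by norm_num)
    (by norm_num) (O 0) hDa
  obtain ⟨j6, hj6, Θ, O', hR⟩ := stage5 hF4 hε 10 4 508 5109 (by norm_num) (O 1) hDb j5 hj5 Th
    hTh h5
  have hF6 := hF4.push hj6
  obtain ⟨j7, hj7, ι, hι, h7⟩ := stage6 hF6 hε hR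
  have hF7 := hF6.push hj7
  obtain ⟨rr, nn, sg, hrr, hnn, hsg, h8⟩ := atom hF7 hε 20439 (by push_cast; linarith) ι hι
    (by simpa using h7)
  refine ⟨rr, fun n => j2 (j3 (j4 (j6 (j7 (nn n))))), sg, hrr, ?_, hsg, ?_⟩
  · exact fun a b hab => hnn (hj7 (hj6 (hj4 (hj3 (hj2 hab)))))
  · intro R
    filter_upwards [h8 R] with k hk hkR
    have := hk hkR
    simp only [Fp] at this
    rw [push_ind hj7, push_ind hj6, push_ind hj4, push_ind hj3, push_ind hj2] at this
    simpa [Set.image_image] using this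

theorem somewhere_trivial_of_bounded_below (hO : OCA) (T : Q →L[ℝ] Q) {δ : ℝ} (hδ : 0 < δ)
    (hT : ∀ x, δ * ‖x‖ ≤ ‖T x‖) : SomewhereTrivial T := by
  obtain ⟨L, K, c, hK, hc, hL, hlow, hrep⟩ := exists_lift T hδ hT
  obtain ⟨m, hm, hsys⟩ := exists_sys hL hK hc hlow
  obtain ⟨j, hj, hF⟩ := hsys (m / 100000) (by positivity)
  obtain ⟨rr, nn, sg, hrr, hnn, hsg, hat⟩ := sys_to_atom hO hm hF
  have hnj : Function.Injective (fun n => j (nn n)) := hj.comp hnn
  obtain ⟨B, hB, a, ha, hfin⟩ := stepZ hL hK rr (fun n => j (nn n)) hrr hnj sg (m / 2) hsg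
    (by positivity) (by
      intro R
      filter_upwards [hat R] with k hk hkR
      have h := hk hkR
      simp only [Fp] at h
      rw [push_ind hj] at h
      have e : (fun n => val (ind (j '' (nn '' R)) n)) =
          (((fun n => j (nn n)) '' R).indicator 1 : ℕ → ℝ) := by
        funext n
        rw [Set.image_image]
        by_cases hn : n ∈ (fun n => j (nn n)) '' R
        · simp [ind, hn, val]
        · simp only [ind, hn, Set.indicator_of_notMem, not_false_eq_true]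
          simp [val]
      rwa [e] at h)
  refine ⟨(fun n => j (nn n)) '' B, rr '' B, hB.image hnj.injOn, hB.image hrr.injective.injOn,
    ?_⟩
  let e1 : B ≃ (rr '' B : Set ℕ) := Equiv.Set.image rr B hrr.injective
  let e2 : B ≃ ((fun n => j (nn n)) '' B : Set ℕ) := Equiv.Set.image _ B hnj
  refine ⟨e1.symm.trans e2, a, ha, ?_⟩
  intro f hf g hg
  have h1 := hrep f g hg
  have hbdd : Bdd (fun n => f n) := ⟨‖f‖, fun n => by
    have := lp.norm_apply_le_norm (by simp : (⊤ : ENNReal) ≠ 0) f n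
    simpa [Real.norm_eq_abs] using this⟩
  have h2 := hfin (fun n => f n) hbdd (by
    intro n hn
    by_contra hcon
    exact hn (hf n hcon))
  -- combine
  have h3 : Tendsto (fun k => g (rr k) - L (fun n => f n) (rr k)) atTop (𝓝 0) :=
    h1.comp hrr.tendsto_atTop
  have h4 : Tendsto (fun k => g (rr k) - a * f (j (nn k))) (atTop ⊓ 𝓟 B) (𝓝 0) := by
    have := (h3.mono_left (inf_le_left : atTop ⊓ 𝓟 B ≤ atTop)).add h2
    simpa using this
  have h5 : Tendsto (fun b : B => g (rr b) - a * f (j (nn b))) cofinite (𝓝 0) := by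
    have hcoe : Tendsto (fun b : B => (b : ℕ)) cofinite (atTop ⊓ 𝓟 B) := by
      rw [tendsto_inf]
      refine ⟨?_, ?_⟩
      · rw [← Nat.cofinite_eq_atTop]
        exact Subtype.val_injective.tendsto_cofinite
      · exact tendsto_principal.2 (Eventually.of_forall fun b => b.2)
    exact h4.comp hcoe
  have h6 : (fun b : (rr '' B : Set ℕ) => g b - a * f ((e1.symm.trans e2) b)) =
      (fun b : B => g (rr b) - a * f (j (nn b))) ∘ e1.symm := by
    funext b
    obtain ⟨b', rfl⟩ := e1.surjective b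
    simp [e1, e2]
  rw [h6]
  exact h5.comp e1.symm.injective.tendsto_cofinite

/-- OCA implies that every automorphism is somewhere trivial. -/
theorem main (hO : OCA) (T : Q ≃L[ℝ] Q) : SomewhereTrivial T := by
  obtain ⟨δ, hδ, h⟩ : ∃ δ : ℝ, 0 < δ ∧ ∀ x, δ * ‖x‖ ≤ ‖T x‖ := by
    refine ⟨(‖(T.symm : Q →L[ℝ] Q)‖ + 1)⁻¹, by positivity, ?_⟩
    intro x
    have h1 : ‖x‖ ≤ ‖(T.symm : Q →L[ℝ] Q)‖ * ‖T x‖ := by
      simpa using (T.symm : Q →L[ℝ] Q).le_opNorm (T x)
    rw [inv_mul_le_iff₀ (by positivity)]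
    nlinarith [norm_nonneg (T x)]
  exact somewhere_trivial_of_bounded_below hO (T : Q →L[ℝ] Q) hδ h

end Pool.Agent.LC
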