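import Pool.Agent.LC.Gamma

open Filter Topology Set

namespace Pool.Agent.LC

theorem exists_nhd_finset {O : Set Phi} (hO : IsOpen O) {b : Phi} (hb : b ∈ O) :
    ∃ M : Finset ℕ, ∀ b' : Phi, (∀ n ∈ M, b' n = b n) → b' ∈ O := by
  obtain ⟨I, u, hu, hsub⟩ := isOpen_pi_iff.mp hO b hb
  refine ⟨I, fun b' h => hsub ?_⟩
  intro n hn
  rw [h n hn]
  exact (hu n hn).2

theorem finite_codes (i : ℕ) : {q : List (Fin 3) | Encodable.encode q < i}.Finite := by
  apply Set.Finite.of_injOn (f := fun q => Encodable.encode q) (t := {n | n < i}) ?_ ?_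
    (Set.finite_lt_nat i)
  · intro q hq
    exact hq
  · intro q _ q' _ h
    exact Encodable.encode_injective h

theorem finite_assign (N : Finset ℕ) : {σ : Phi | ∀ n, n ∉ N → σ n = 0}.Finite := by
  apply Set.Finite.of_injOn (f := fun (σ : Phi) => fun n : N => σ n) (t := Set.univ) ?_ ?_
    (Set.toFinite _)
  · intro σ _
    exact Set.mem_univ _
  · intro σ hσ σ' hσ' h
    funext n
    by_cases hn : n ∈ N
    · exact congrFun h ⟨n, hn⟩
    · rw [hσ n hn, hσ' n hn]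

/-- The first property for one task. -/
def Inv1 (C : ℕ) (Θ : ℕ → Set (Phi × Phi)) (O : List (Fin 3) → ℕ → ℤ → Set Phi)
    (P N : Finset ℕ) (ce cb : Phi) (k : ℕ) (t : List (Fin 3) × List (Fin 3) × Phi) : Prop :=
  ∃ p', t.2.1 <+: p' ∧
      ∀ e b b' g : Phi, (∀ n ∈ P, e n = ce n) → (∀ n ∈ N, e n = t.2.2 n) →
        (∀ n ∈ P, b n = cb n) → (∀ n, n ∉ N → b n = b' n) → g ∈ cyl p' →
        ∀ r ≥ k, (e, g) ∈ Θ r → ∀ v v' : ℤ, b ∈ O t.1 r v → b' ∈ O t.1 r v' →
          |v - v'| ≤ 2 * C + 1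

theorem Inv1.mono {C : ℕ} {Θ : ℕ → Set (Phi × Phi)} {O : List (Fin 3) → ℕ → ℤ → Set Phi}
    {P N P' : Finset ℕ} {ce cb ce' cb' : Phi} {k k' : ℕ} {t : List (Fin 3) × List (Fin 3) × Phi}
    (h : Inv1 C Θ O P N ce cb k t) (hP : P ⊆ P') (he : ∀ n ∈ P, ce' n = ce n)
    (hb : ∀ n ∈ P, cb' n = cb n) (hk : k ≤ k') : Inv1 C Θ O P' N ce' cb' k' t := by
  obtain ⟨p', hp', h⟩ := h
  refine ⟨p', hp', fun e b b' g h1 h2 h3 h4 h5 r hr => ?_⟩
  apply h e b b' g ?_ h2 ?_ h4 h5 r (le_trans hk hr)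
  · intro n hn
    rw [h1 n (hP hn), he n hn]
  · intro n hn
    rw [h3 n (hP hn), hb n hn]

theorem gamma_all {F : Phi → ℕ → ℝ} {m ε K : ℝ} (hF : Sys F m ε K) (hε : 0 < ε)
    {s C : ℕ} {Θ : ℕ → Set (Phi × Phi)} {O : List (Fin 3) → ℕ → ℤ → Set Phi}
    (hR : Reg F m ε s C Θ O) (P N : Finset ℕ) (hPN : Disjoint P N)
    (ce cb : Phi) (k0 : ℕ) (T : Set (List (Fin 3) × List (Fin 3) × Phi)) (hT : T.Finite) :
    ∃ P' : Finset ℕ, P ⊆ P' ∧ Disjoint P' N ∧ ∃ ce' cb' : Phi, (∀ n ∈ P, ce' n = ce n) ∧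
      (∀ n ∈ P, cb' n = cb n) ∧ ∃ k : ℕ, k0 ≤ k ∧ ∀ t ∈ T, Inv1 C Θ O P' N ce' cb' k t := by
  induction T, hT using Set.Finite.induction_on with
  | empty => exact ⟨P, subset_rfl, hPN, ce, cb, fun _ _ => rfl, fun _ _ => rfl, k0, le_rfl,
      fun t ht => absurd ht (Set.notMem_empty t)⟩
  | insert _ _ ih =>
    rename_i a S _ _
    obtain ⟨P1, hP1, hd1, ce1, cb1, he1, hb1, k1, hk1, h1⟩ := ih
    obtain ⟨P2, hP2, hd2, ce2, cb2, he2, hb2, p', hp', k2, h2⟩ :=
      gamma hF hε hR P1 N hd1 ce1 cb1 a.2.2 a.1 a.2.1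
    refine ⟨P2, hP1.trans hP2, hd2, ce2, cb2, fun n hn => ?_, fun n hn => ?_, max k1 k2,
      le_trans hk1 (le_max_left _ _), fun t ht => ?_⟩
    · rw [he2 n (hP1 hn), he1 n hn]
    · rw [hb2 n (hP1 hn), hb1 n hn]
    · rcases ht with rfl | ht
      · exact Inv1.mono ⟨p', hp', h2⟩ subset_rfl (fun _ _ => rfl) (fun _ _ => rfl)
          (le_max_right _ _)
      · exact Inv1.mono (h1 t ht) hP2 he2 hb2 (le_max_left _ _)

/-- The second property for one task. -/
def Dec (O : List (Fin 3) → ℕ → ℤ → Set Phi) (P N : Finset ℕ) (cb : Phi)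
    (t : List (Fin 3) × ℕ × ℤ × Phi) : Prop :=
  (∀ b : Phi, (∀ n ∈ P, b n = cb n) → (∀ n ∈ N, b n = t.2.2.2 n) → b ∈ O t.1 t.2.1 t.2.2.1) ∨
  (∀ b : Phi, (∀ n ∈ P, b n = cb n) → (∀ n ∈ N, b n = t.2.2.2 n) → b ∉ O t.1 t.2.1 t.2.2.1)

theorem Dec.mono {O : List (Fin 3) → ℕ → ℤ → Set Phi} {P N P' : Finset ℕ} {cb cb' : Phi}
    {t : List (Fin 3) × ℕ × ℤ × Phi} (h : Dec O P N cb t) (hP : P ⊆ P')
    (hb : ∀ n ∈ P, cb' n = cb n) : Dec O P' N cb' t := by
  rcases h with h | h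
  · left
    intro b h1 h2
    exact h b (fun n hn => by rw [h1 n (hP hn), hb n hn]) h2
  · right
    intro b h1 h2
    exact h b (fun n hn => by rw [h1 n (hP hn), hb n hn]) h2

theorem dec_all {O : List (Fin 3) → ℕ → ℤ → Set Phi} (hO : ∀ q r v, IsOpen (O q r v))
    (P N : Finset ℕ) (hPN : Disjoint P N) (cb : Phi) (T : Set (List (Fin 3) × ℕ × ℤ × Phi))
    (hT : T.Finite) : ∃ P' : Finset ℕ, P ⊆ P' ∧ Disjoint P' N ∧ ∃ cb' : Phi,
      (∀ n ∈ P, cb' n = cb n) ∧ ∀ t ∈ T, Dec O P' N cb' t := by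
  induction T, hT using Set.Finite.induction_on with
  | empty => exact ⟨P, subset_rfl, hPN, cb, fun _ _ => rfl,
      fun t ht => absurd ht (Set.notMem_empty t)⟩
  | insert _ _ ih =>
    rename_i a S _ _
    obtain ⟨P1, hP1, hd1, cb1, hb1, h1⟩ := ih
    by_cases hex : ∃ b : Phi, (∀ n ∈ P1, b n = cb1 n) ∧ (∀ n ∈ N, b n = a.2.2.2 n) ∧
        b ∈ O a.1 a.2.1 a.2.2.1
    · obtain ⟨b, hb, hbN, hbO⟩ := hex
      obtain ⟨M, hM⟩ := exists_nhd_finset (hO _ _ _) hbO
      refine ⟨P1 ∪ (M \ N), hP1.trans Finset.subset_union_left, ?_, b, fun n hn => ?_,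
        fun t ht => ?_⟩
      · rw [Finset.disjoint_union_left]
        exact ⟨hd1, Finset.sdiff_disjoint⟩
      · rw [hb n (hP1 hn), hb1 n hn]
      · rcases ht with rfl | ht
        · left
          intro b2 h2 h3
          apply hM
          intro n hn
          by_cases hnN : n ∈ N
          · rw [h3 n hnN, hbN n hnN]
          · exact h2 n (Finset.mem_union_right _ (Finset.mem_sdiff.mpr ⟨hn, hnN⟩))
        · exact Dec.mono (h1 t ht) Finset.subset_union_left hb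
    · refine ⟨P1, hP1, hd1, cb1, hb1, fun t ht => ?_⟩
      rcases ht with rfl | ht
      · right
        intro b h2 h3 h4
        exact hex ⟨b, h2, h3, h4⟩
      · exact h1 t ht

/-- The state of the fusion. -/
structure FSt where
  P : Finset ℕ
  N : Finset ℕ
  ce : Phi
  cb : Phi
  k : ℕ

/-- The invariant of the fusion. -/
structure FInv (C : ℕ) (Θ : ℕ → Set (Phi × Phi)) (O : List (Fin 3) → ℕ → ℤ → Set Phi) (V : ℤ)
    (i : ℕ) (S : FSt) : Prop where
  disj : Disjoint S.P S.N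
  one : ∀ q p : List (Fin 3), Encodable.encode q < i → Encodable.encode p < i → ∀ σ : Phi,
    Inv1 C Θ O S.P S.N S.ce S.cb S.k (q, p, σ)
  two : ∀ q : List (Fin 3), Encodable.encode q < i → ∀ r < S.k, ∀ v : ℤ, |v| ≤ V →
    ∀ b b' : Phi, (∀ n ∈ S.P, b n = S.cb n) → (∀ n ∈ S.P, b' n = S.cb n) →
      (∀ n ∈ S.N, b n = b' n) → b ∈ O q r v → b' ∈ O q r v

/-- The relation between consecutive states. -/
structure FRel (S S' : FSt) (j : ℕ) : Prop where
  sub : S.P ⊆ S'.P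
  ce : ∀ n ∈ S.P, S'.ce n = S.ce n
  cb : ∀ n ∈ S.P, S'.cb n = S.cb n
  N : S'.N = insert j S.N
  lt : ∀ n ∈ S.N, n < j
  k : S.k < S'.k

theorem fstep {F : Phi → ℕ → ℝ} {m ε K : ℝ} (hF : Sys F m ε K) (hε : 0 < ε)
    {s C : ℕ} {Θ : ℕ → Set (Phi × Phi)} {O : List (Fin 3) → ℕ → ℤ → Set Phi}
    (hR : Reg F m ε s C Θ O) (V : ℤ) (i : ℕ) (S : FSt) (hS : FInv C Θ O V i S) :
    ∃ (S' : FSt) (j : ℕ), FInv C Θ O V (i + 1) S' ∧ FRel S S' j := by
  obtain ⟨j, hj⟩ : ∃ j : ℕ, ∀ n ∈ S.P ∪ S.N, n < j :=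
    ⟨(S.P ∪ S.N).sup id + 1, fun n hn => Nat.lt_succ_of_le (Finset.le_sup (f := id) hn)⟩
  have hd : Disjoint S.P (insert j S.N) := by
    rw [Finset.disjoint_insert_right]
    refine ⟨fun h => ?_, hS.disj⟩
    exact lt_irrefl _ (hj j (Finset.mem_union_left _ h))
  obtain ⟨P1, hP1, hd1, ce1, cb1, he1, hb1, k1, hk1, h1⟩ := gamma_all hF hε hR S.P
    (insert j S.N) hd S.ce S.cb (S.k + 1)
    ({q : List (Fin 3) | Encodable.encode q < i + 1} ×ˢ
      ({q : List (Fin 3) | Encodable.encode q < i + 1} ×ˢ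
        {σ : Phi | ∀ n, n ∉ insert j S.N → σ n = 0}))
    ((finite_codes _).prod ((finite_codes _).prod (finite_assign _)))
  obtain ⟨P2, hP2, hd2, cb2, hb2, h2⟩ := dec_all hR.openO P1 (insert j S.N) hd1 cb1
    ({q : List (Fin 3) | Encodable.encode q < i + 1} ×ˢ
      ({r : ℕ | r < k1} ×ˢ ({v : ℤ | |v| ≤ V} ×ˢ
        {σ : Phi | ∀ n, n ∉ insert j S.N → σ n = 0})))
    ((finite_codes _).prod ((Set.finite_lt_nat _).prod (Set.Finite.prod
      (by
        apply (Set.finite_Icc (-V) V).subset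
        intro v hv
        exact abs_le.mp hv) (finite_assign _))))
  refine ⟨⟨P2, insert j S.N, ce1, cb2, k1⟩, j, ⟨hd2, ?_, ?_⟩, ⟨hP1.trans hP2, he1, ?_, rfl, ?_,
    hk1⟩⟩
  · intro q p hq hp σ
    obtain ⟨p', hp', h⟩ := Inv1.mono (h1 (q, p, res (insert j S.N : Finset ℕ) σ)
      ⟨hq, hp, fun n hn => by
        simp only [res]
        rw [if_neg]
        exact fun h => hn (Finset.mem_coe.mp h)⟩) hP2 (fun _ _ => rfl) hb2 le_rfl
    refine ⟨p', hp', fun e b b' g a1 a2 a3 a4 a5 r hr => ?_⟩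
    apply h e b b' g a1 ?_ a3 a4 a5 r hr
    intro n hn
    rw [a2 n hn]
    simp only [res]
    rw [if_pos (Finset.mem_coe.mpr hn)]
  · intro q hq r hr v hv b b' a1 a2 a3 a4
    rcases h2 (q, r, v, res (insert j S.N : Finset ℕ) b) ⟨hq, hr, hv, fun n hn => by
        simp only [res]
        rw [if_neg]
        exact fun h => hn (Finset.mem_coe.mp h)⟩ with h | h
    · apply h b' a2
      intro n hn
      rw [← a3 n hn]
      simp only [res]
      rw [if_pos (Finset.mem_coe.mpr hn)]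
    · exfalso
      apply h b a1 ?_ a4
      intro n hn
      simp only [res]
      rw [if_pos (Finset.mem_coe.mpr hn)]
  · intro n hn
    show cb2 n = S.cb n
    rw [hb2 n (hP1 hn), hb1 n hn]
  · intro n hn
    exact hj n (Finset.mem_union_right _ hn)

/-- The fusion. `k i` is the start of the `i`-th block; changes of the coordinates
`j 0, .., j (i-1)` do not matter from `k i` on; membership for `r < k (i+1)` depends only on
the coordinates `j 0, .., j i`. -/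
theorem fusion {F : Phi → ℕ → ℝ} {m ε K : ℝ} (hF : Sys F m ε K) (hε : 0 < ε)
    {s C : ℕ} {Θ : ℕ → Set (Phi × Phi)} {O : List (Fin 3) → ℕ → ℤ → Set Phi}
    (hR : Reg F m ε s C Θ O) (V : ℤ) :
    ∃ (j k : ℕ → ℕ) (ce cb : Phi), StrictMono j ∧ StrictMono k ∧ k 0 = 0 ∧
      (∀ i, ∀ q p : List (Fin 3), Encodable.encode q < i → Encodable.encode p < i → ∀ σ : Phi,
        ∃ p', p <+: p' ∧ ∀ e b b' g : Phi,
          (∀ n, n ∉ range j → e n = ce n) → (∀ l < i, e (j l) = σ l) →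
          (∀ n, n ∉ range j → b n = cb n) → (∀ n, n ∉ j '' {l | l < i} → b n = b' n) →
          g ∈ cyl p' → ∀ r ≥ k i, (e, g) ∈ Θ r → ∀ v v' : ℤ, b ∈ O q r v → b' ∈ O q r v' →
          |v - v'| ≤ 2 * C + 1) ∧
      (∀ i, ∀ q : List (Fin 3), Encodable.encode q < i → ∀ r < k (i + 1), ∀ v : ℤ, |v| ≤ V →
        ∀ b b' : Phi, (∀ n, n ∉ range j → b n = cb n) → (∀ n, n ∉ range j → b' n = cb n) →
          (∀ l ≤ i, b (j l) = b' (j l)) → b ∈ O q r v → b' ∈ O q r v) := by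
  have hex : ∀ (i : ℕ) (S : FSt), ∃ (S' : FSt) (j : ℕ), FInv C Θ O V i S →
      FInv C Θ O V (i + 1) S' ∧ FRel S S' j := by
    intro i S
    by_cases h : FInv C Θ O V i S
    · obtain ⟨S', j, h'⟩ := fstep hF hε hR V i S h
      exact ⟨S', j, fun _ => h'⟩
    · exact ⟨S, 0, fun h' => absurd h' h⟩
  choose nx jx hnx using hex
  let S0 : FSt := ⟨∅, ∅, fun _ => 0, fun _ => 0, 0⟩
  let S : ℕ → FSt := fun i => Nat.rec S0 (fun i s => nx i s) i
  have hS1 : ∀ i, S (i + 1) = nx i (S i) := fun i => rfl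
  have hinv : ∀ i, FInv C Θ O V i (S i) := by
    intro i
    induction i with
    | zero =>
      refine ⟨Finset.disjoint_empty_left _, fun q p hq => absurd hq (Nat.not_lt_zero _),
        fun q hq => absurd hq (Nat.not_lt_zero _)⟩
    | succ i ih =>
      rw [hS1]
      exact (hnx i (S i) ih).1
  have hrel : ∀ i, FRel (S i) (S (i + 1)) (jx i (S i)) := fun i => (hnx i (S i) (hinv i)).2
  set j : ℕ → ℕ := fun i => jx i (S i) with hjd
  have hN : ∀ i, ∀ n, n ∈ (S i).N ↔ ∃ l < i, n = j l := by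
    intro i
    induction i with
    | zero =>
      intro n
      constructor
      · intro h
        exact absurd h (Finset.notMem_empty n)
      · rintro ⟨l, hl, _⟩
        exact absurd hl (Nat.not_lt_zero _)
    | succ i ih =>
      intro n
      rw [(hrel i).N, Finset.mem_insert, ih]
      constructor
      · rintro (h | ⟨l, hl, h⟩)
        · exact ⟨i, Nat.lt_succ_self i, h⟩
        · exact ⟨l, Nat.lt_succ_of_lt hl, h⟩
      · rintro ⟨l, hl, h⟩
        rcases Nat.lt_succ_iff_lt_or_eq.mp hl with hl | rfl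
        · exact Or.inr ⟨l, hl, h⟩
        · exact Or.inl h
  have hjmono : StrictMono j := by
    apply strictMono_nat_of_lt_succ
    intro i
    exact (hrel (i + 1)).lt (j i) ((hN (i + 1) _).mpr ⟨i, Nat.lt_succ_self i, rfl⟩)
  have hkmono : StrictMono (fun i => (S i).k) := strictMono_nat_of_lt_succ fun i => (hrel i).k
  have hPmono : ∀ i l, i ≤ l → (S i).P ⊆ (S l).P ∧ (∀ n ∈ (S i).P, (S l).ce n = (S i).ce n) ∧
      (∀ n ∈ (S i).P, (S l).cb n = (S i).cb n) := by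
    intro i l hil
    induction l, hil using Nat.le_induction with
    | base => exact ⟨subset_rfl, fun _ _ => rfl, fun _ _ => rfl⟩
    | succ l hl ih =>
      obtain ⟨h1, h2, h3⟩ := ih
      refine ⟨h1.trans (hrel l).sub, fun n hn => ?_, fun n hn => ?_⟩
      · rw [(hrel l).ce n (h1 hn), h2 n hn]
      · rw [(hrel l).cb n (h1 hn), h3 n hn]
  have hPj : ∀ i n, n ∈ (S i).P → n ∉ range j := by
    rintro i n hn ⟨l, rfl⟩
    have h1 := (hPmono i (max i (l + 1)) (le_max_left _ _)).1 hn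
    have h2 : j l ∈ (S (max i (l + 1))).N :=
      (hN _ _).mpr ⟨l, lt_of_lt_of_le (Nat.lt_succ_self l) (le_max_right _ _), rfl⟩
    exact Finset.disjoint_left.mp (hinv _).disj h1 h2
  classical
  let ce : Phi := fun n => if h : ∃ i, n ∈ (S i).P then (S h.choose).ce n else 0
  let cb : Phi := fun n => if h : ∃ i, n ∈ (S i).P then (S h.choose).cb n else 0
  have hce : ∀ i n, n ∈ (S i).P → ce n = (S i).ce n := by
    intro i n hn
    have hex : ∃ i, n ∈ (S i).P := ⟨i, hn⟩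
    have h1 : ce n = (S hex.choose).ce n := dif_pos hex
    rw [h1]
    rcases le_total i hex.choose with h | h
    · exact (hPmono _ _ h).2.1 n hn
    · exact ((hPmono _ _ h).2.1 n hex.choose_spec).symm
  have hcb : ∀ i n, n ∈ (S i).P → cb n = (S i).cb n := by
    intro i n hn
    have hex : ∃ i, n ∈ (S i).P := ⟨i, hn⟩
    have h1 : cb n = (S hex.choose).cb n := dif_pos hex
    rw [h1]
    rcases le_total i hex.choose with h | h
    · exact (hPmono _ _ h).2.2 n hn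
    · exact ((hPmono _ _ h).2.2 n hex.choose_spec).symm
  refine ⟨j, fun i => (S i).k, ce, cb, hjmono, hkmono, rfl, ?_, ?_⟩
  · intro i q p hq hp σ
    -- the values of `σ` transported to the coordinates
    obtain ⟨p', hp', h⟩ := (hinv i).one q p hq hp (Function.extend j σ (fun _ => 0))
    refine ⟨p', hp', fun e b b' g h1 h2 h3 h4 h5 r hr => ?_⟩
    apply h e b b' g ?_ ?_ ?_ ?_ h5 r hr
    · intro n hn
      rw [h1 n (hPj i n hn), hce i n hn]
    · intro n hn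
      obtain ⟨l, hl, rfl⟩ := (hN i n).mp hn
      rw [h2 l hl]
      show σ l = Function.extend j σ (fun _ => 0) (j l)
      exact (hjmono.injective.extend_apply σ _ l).symm
    · intro n hn
      rw [h3 n (hPj i n hn), hcb i n hn]
    · intro n hn
      apply h4
      rintro ⟨l, hl, rfl⟩
      exact hn ((hN i _).mpr ⟨l, hl, rfl⟩)
  · intro i q hq r hr v hv b b' h1 h2 h3 h4
    apply (hinv (i + 1)).two q (Nat.lt_succ_of_lt hq) r hr v hv b b' ?_ ?_ ?_ h4
    · intro n hn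
      rw [h1 n (hPj (i + 1) n hn), hcb (i + 1) n hn]
    · intro n hn
      rw [h2 n (hPj (i + 1) n hn), hcb (i + 1) n hn]
    · intro n hn
      obtain ⟨l, hl, rfl⟩ := (hN (i + 1) n).mp hn
      exact h3 l (Nat.lt_succ_iff.mp hl)

end Pool.Agent.LC
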