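import Pool.Agent.LC.Basic

open Filter Topology Set

namespace Pool.Agent.LC

private lemma level {W : Set Phi} (hW : IsOpen W) {x : Phi} (hx : x ∈ W) :
    ∃ M : ℕ, ∀ y : Phi, (∀ n < M, y n = x n) → y ∈ W := by
  obtain ⟨I, u, h1, h2⟩ := isOpen_pi_iff.1 hW x hx
  refine ⟨I.sup id + 1, fun y hy => h2 fun n hn => ?_⟩
  rw [hy n (Nat.lt_succ_of_le (Finset.le_sup (f := id) hn))]
  exact (h1 n hn).2

/-- changes of `b` on `N` -/
private def ch (N : Finset ℕ) (τ b : Phi) : Phi := fun n => if n ∈ N then τ n else b n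

private lemma ch_on {N : Finset ℕ} (τ b : Phi) {n : ℕ} (h : n ∈ N) : ch N τ b n = τ n := by
  simp [ch, h]

private lemma ch_off {N : Finset ℕ} (τ b : Phi) {n : ℕ} (h : n ∉ N) : ch N τ b n = b n := by
  simp [ch, h]

private lemma continuous_ch (N : Finset ℕ) (τ : Phi) : Continuous (ch N τ) := by
  refine continuous_pi fun n => ?_
  by_cases h : n ∈ N
  · simp only [ch, h, if_true]
    exact continuous_const
  · simp only [ch, h, if_false]
    exact continuous_apply n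

private lemma open_on (P : Finset ℕ) (c : Phi) : IsOpen {x : Phi | ∀ n ∈ P, x n = c n} :=
  isOpen_set_pi (s := fun n => {c n}) P.finite_toSet fun _ _ => isOpen_discrete _

private lemma closed_on (P : Finset ℕ) (c : Phi) : IsClosed {x : Phi | ∀ n ∈ P, x n = c n} :=
  isClosed_set_pi (s := fun n => {c n}) fun _ _ => isClosed_discrete _

private lemma cyl_closed (p : List (Fin 3)) : IsClosed (cyl p) := by
  have : cyl p = ⋂ (i : ℕ), ⋂ (h : i < p.length), {g : Phi | g i = p[i]} := by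
    ext g
    simp [cyl]
  rw [this]
  exact isClosed_iInter fun i => isClosed_iInter fun h =>
    isClosed_eq (continuous_apply i) continuous_const

private lemma finite_changes (N : Finset ℕ) (b : Phi) :
    {b' : Phi | ∀ n, n ∉ N → b' n = b n}.Finite := by
  refine (Set.finite_range (fun τ : N → Fin 3 => (fun n => if h : n ∈ N then τ ⟨n, h⟩ else b n :
    Phi))).subset fun b' hb' => ⟨fun n => b' n, ?_⟩
  funext n
  by_cases h : n ∈ N
  · simp [h]
  · simp [h, hb' n h]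

/-- Uniform invariance under changes on a finite set, below a condition. -/
theorem gamma {F : Phi → ℕ → ℝ} {m ε K : ℝ} (hF : Sys F m ε K) (hε : 0 < ε)
    {s C : ℕ} {Θ : ℕ → Set (Phi × Phi)} {O : List (Fin 3) → ℕ → ℤ → Set Phi}
    (hR : Reg F m ε s C Θ O) (P N : Finset ℕ) (hPN : Disjoint P N)
    (ce cb σ : Phi) (q p : List (Fin 3)) :
    ∃ P' : Finset ℕ, P ⊆ P' ∧ Disjoint P' N ∧ ∃ ce' cb' : Phi, (∀ n ∈ P, ce' n = ce n) ∧
      (∀ n ∈ P, cb' n = cb n) ∧ ∃ p', p <+: p' ∧ ∃ k : ℕ,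
      ∀ e b b' g : Phi, (∀ n ∈ P', e n = ce' n) → (∀ n ∈ N, e n = σ n) →
        (∀ n ∈ P', b n = cb' n) → (∀ n, n ∉ N → b n = b' n) → g ∈ cyl p' →
        ∀ r ≥ k, (e, g) ∈ Θ r → ∀ v v' : ℤ, b ∈ O q r v → b' ∈ O q r v' →
          |v - v'| ≤ 2 * C + 1 := by
  classical
  by_contra hcon
  -- the box
  set box : Set (Phi × Phi) := {x | (∀ n ∈ P, x.1 n = ce n) ∧ (∀ n ∈ N, x.1 n = σ n) ∧
    (∀ n ∈ P, x.2 n = cb n)} with hbox
  have hbo : IsOpen box :=
    ((open_on P ce).preimage continuous_fst).inter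
      (((open_on N σ).preimage continuous_fst).inter ((open_on P cb).preimage continuous_snd))
  have hbc : IsClosed box :=
    ((closed_on P ce).preimage continuous_fst).inter
      (((closed_on N σ).preimage continuous_fst).inter
        ((closed_on P cb).preimage continuous_snd))
  have hbn : box.Nonempty := by
    refine ⟨(ch N σ ce, cb), fun n hn => ?_, fun n hn => ch_on _ _ hn, fun n _ => rfl⟩
    exact ch_off _ _ (Finset.disjoint_left.1 hPN hn)
  set Ω : ℕ → Set ((Phi × Phi) × Phi) := fun k => {x | x.1 ∉ box ∨ x.2 ∉ cyl p ∨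
    ∃ r ≥ k, (x.1.1, x.2) ∈ Θ r ∧ ∃ (τ τ' : Phi) (v v' : ℤ), ch N τ x.1.2 ∈ O q r v ∧
      ch N τ' x.1.2 ∈ O q r v' ∧ 2 * (C : ℤ) + 1 < |v - v'|} with hΩ
  have hΩo : ∀ k, IsOpen (Ω k) := by
    intro k
    rw [isOpen_iff_mem_nhds]
    intro x hx
    rcases hx with hx | hx | ⟨r, hr, hθ, τ, τ', v, v', h1, h2, h3⟩
    · have : {x : (Phi × Phi) × Phi | x.1 ∉ box} ∈ 𝓝 x :=
        (hbc.isOpen_compl.preimage continuous_fst).mem_nhds hx
      filter_upwards [this] with y hy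
      exact Or.inl hy
    · have : {x : (Phi × Phi) × Phi | x.2 ∉ cyl p} ∈ 𝓝 x :=
        ((cyl_closed p).isOpen_compl.preimage continuous_snd).mem_nhds hx
      filter_upwards [this] with y hy
      exact Or.inr (Or.inl hy)
    · have e1 : {x : (Phi × Phi) × Phi | (x.1.1, x.2) ∈ Θ r} ∈ 𝓝 x :=
        ((hR.openTh r).preimage (by fun_prop)).mem_nhds hθ
      have e2 : {x : (Phi × Phi) × Phi | ch N τ x.1.2 ∈ O q r v} ∈ 𝓝 x :=
        ((hR.openO q r v).preimage
          ((continuous_ch N τ).comp (continuous_snd.comp continuous_fst))).mem_nhds h1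
      have e3 : {x : (Phi × Phi) × Phi | ch N τ' x.1.2 ∈ O q r v'} ∈ 𝓝 x :=
        ((hR.openO q r v').preimage
          ((continuous_ch N τ').comp (continuous_snd.comp continuous_fst))).mem_nhds h2
      filter_upwards [e1, e2, e3] with y y1 y2 y3
      exact Or.inr (Or.inr ⟨r, hr, y1, τ, τ', v, v', y2, y3, h3⟩)
  have hΩd : ∀ k, Dense (Ω k) := by
    intro k
    rw [dense_iff_inter_open]
    intro W hW ⟨⟨⟨e0, b0⟩, g0⟩, hx⟩
    by_cases hxb : (e0, b0) ∈ box
    swap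
    · exact ⟨_, hx, Or.inl hxb⟩
    by_cases hxg : g0 ∈ cyl p
    swap
    · exact ⟨_, hx, Or.inr (Or.inl hxg)⟩
    obtain ⟨U, W3, hU, hW3, hxU, hx3, hsub⟩ := isOpen_prod_iff.1 hW _ _ hx
    obtain ⟨W1, W2, hW1, hW2, hx1, hx2, hsub'⟩ := isOpen_prod_iff.1 hU _ _ hxU
    obtain ⟨M1, hM1⟩ := level hW1 hx1
    obtain ⟨M2, hM2⟩ := level hW2 hx2
    obtain ⟨M3, hM3⟩ := level hW3 hx3
    set M := M1 + M2 + M3 + p.length with hM
    have hneg : ¬ ∃ k : ℕ,
      ∀ e b b' g : Phi, (∀ n ∈ P ∪ (Finset.range M \ N), e n = e0 n) → (∀ n ∈ N, e n = σ n) →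
        (∀ n ∈ P ∪ (Finset.range M \ N), b n = b0 n) → (∀ n, n ∉ N → b n = b' n) →
        g ∈ cyl (List.ofFn (fun i : Fin M => g0 i)) →
        ∀ r ≥ k, (e, g) ∈ Θ r → ∀ v v' : ℤ, b ∈ O q r v → b' ∈ O q r v' →
          |v - v'| ≤ 2 * C + 1 := by
      intro hk
      apply hcon
      refine ⟨P ∪ (Finset.range M \ N), Finset.subset_union_left, ?_, e0, b0, hxb.1, hxb.2.2,
        List.ofFn (fun i : Fin M => g0 i), ?_, hk⟩
      · rw [Finset.disjoint_union_left]
        exact ⟨hPN, Finset.sdiff_disjoint⟩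
      · rw [List.prefix_iff_eq_take]
        apply List.ext_getElem
        · simp [hM]
        · intro i h1 h2
          rw [List.getElem_take, List.getElem_ofFn]
          exact (hxg i h1).symm
    push Not at hneg
    obtain ⟨e, b, b', g, h1, h2, h3, h4, h5, r, hr, h6, v, v', h7, h8, h9⟩ := hneg k
    have hg : ∀ n < M, g n = g0 n := by
      intro n hn
      have := h5 n (by simpa using hn)
      rw [this, List.getElem_ofFn]
    have he : ∀ n < M, e n = e0 n := by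
      intro n hn
      by_cases hN : n ∈ N
      · exact (h2 n hN).trans (hxb.2.1 n hN).symm
      · exact h1 n (by simp [hN, hn])
    have hb : ∀ n < M, ch N b0 b n = b0 n := by
      intro n hn
      by_cases hN : n ∈ N
      · exact ch_on _ _ hN
      · rw [ch_off _ _ hN]
        exact h3 n (by simp [hN, hn])
    refine ⟨((e, ch N b0 b), g), hsub ⟨hsub' ⟨?_, ?_⟩, ?_⟩, ?_⟩
    · exact hM1 e fun n hn => he n (by omega)
    · exact hM2 _ fun n hn => hb n (by omega)
    · exact hM3 g fun n hn => hg n (by omega)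
    · refine Or.inr (Or.inr ⟨r, hr, h6, b, b', v, v', ?_, ?_, h9⟩)
      · have : ch N b (ch N b0 b) = b := by
          funext n
          by_cases hN : n ∈ N
          · exact ch_on _ _ hN
          · rw [ch_off _ _ hN, ch_off _ _ hN]
        change ch N b (ch N b0 b) ∈ O q r v
        rwa [this]
      · have : ch N b' (ch N b0 b) = b' := by
          funext n
          by_cases hN : n ∈ N
          · exact ch_on _ _ hN
          · rw [ch_off _ _ hN, ch_off _ _ hN, h4 n hN]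
        change ch N b' (ch N b0 b) ∈ O q r v'
        rwa [this]
  have hku : ∀ᶠ a in residual (Phi × Phi), ∀ k, ∀ᶠ g in residual Phi, (a, g) ∈ Ω k :=
    eventually_countable_forall.2 fun k => ku (Ω k) (hΩo k) (hΩd k)
  obtain ⟨⟨e, b⟩, heb, hk⟩ := (dense_iff_inter_open.1 (dense_of_mem_residual hku)) box hbo hbn
  have hk' : ∀ᶠ g in residual Phi, ∀ k, ((e, b), g) ∈ Ω k := eventually_countable_forall.2 hk
  have hmain : ∀ᶠ g in residual Phi, ∀ b1 ∈ {b' : Phi | ∀ n, n ∉ N → b' n = b n},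
      ∃ k, ∀ r ≥ k, (e, g) ∈ Θ r → ∀ v : ℤ, b1 ∈ O q r v → |F b1 r - v * ε| ≤ C * ε := by
    rw [eventually_all_finite (finite_changes N b)]
    intro b1 _
    filter_upwards [hR.main e b1] with g hg
    exact hg.2.1 q
  obtain ⟨g, hgp, hg1, hg2⟩ := exists_mem_cyl (D := {g | (∀ k, ((e, b), g) ∈ Ω k) ∧
    ∀ b1 ∈ {b' : Phi | ∀ n, n ∉ N → b' n = b n},
      ∃ k, ∀ r ≥ k, (e, g) ∈ Θ r → ∀ v : ℤ, b1 ∈ O q r v → |F b1 r - v * ε| ≤ C * ε})
      (hk'.and hmain) p
  have hev1 : ∀ᶠ r in atTop, ∀ b1 ∈ {b' : Phi | ∀ n, n ∉ N → b' n = b n},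
      (e, g) ∈ Θ r → ∀ v : ℤ, b1 ∈ O q r v → |F b1 r - v * ε| ≤ C * ε := by
    rw [eventually_all_finite (finite_changes N b)]
    intro b1 hb1
    obtain ⟨k, hk⟩ := hg2 b1 hb1
    exact eventually_atTop.2 ⟨k, hk⟩
  have hev2 : ∀ᶠ r in atTop, ∀ b1 ∈ {b' : Phi | ∀ n, n ∉ N → b' n = b n},
      |F b1 r - F b r| < ε / 2 := by
    rw [eventually_all_finite (finite_changes N b)]
    intro b1 hb1
    have hfin : {n | b1 n ≠ b n}.Finite := by
      refine N.finite_toSet.subset fun n hn => ?_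
      by_contra h
      exact hn (hb1 n h)
    have := hF.fin b1 b hfin
    rw [Metric.tendsto_nhds] at this
    filter_upwards [this (ε / 2) (by positivity)] with r hr
    simpa [Real.dist_eq] using hr
  obtain ⟨k, hk⟩ := eventually_atTop.1 (hev1.and hev2)
  rcases hg1 k with h | h | ⟨r, hr, hθ, τ, τ', v, v', h1, h2, h3⟩
  · exact h heb
  · exact h hgp
  have hτ : ∀ τ : Phi, ch N τ b ∈ {b' : Phi | ∀ n, n ∉ N → b' n = b n} :=
    fun τ n hn => ch_off _ _ hn
  obtain ⟨k1, k2⟩ := hk r hr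
  have a1 := abs_le.1 (k1 _ (hτ τ) hθ v h1)
  have a2 := abs_le.1 (k1 _ (hτ τ') hθ v' h2)
  have a3 := abs_lt.1 (k2 _ (hτ τ))
  have a4 := abs_lt.1 (k2 _ (hτ τ'))
  have h3' : (2 * (C : ℝ) + 1) < |(v : ℝ) - v'| := by exact_mod_cast h3
  have h4 : |(v : ℝ) - v'| * ε < (2 * (C : ℝ) + 1) * ε := by
    rw [← abs_of_pos hε, ← abs_mul, abs_of_pos hε, abs_lt]
    constructor <;> nlinarith [a1.1, a1.2, a2.1, a2.2, a3.1, a3.2, a4.1, a4.2]
  exact absurd (lt_of_mul_lt_mul_right h4 hε.le) (not_lt.2 h3'.le)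

end Pool.Agent.LC
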