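import Pool.Agent.LC.Final

/-!
The core of the theorem on configurations: a relative form of the main argument, for operators
which act like a composition on a closed set.
-/

open Filter Topology Set

namespace Pool.Agent.LC

/-- All stages together. -/
theorem stage_all (hO : OCA) {F : Phi → ℕ → ℝ} {m ε K : ℝ} (hε : 0 < ε)
    (hF : Sys F m ε K) :
    ∃ j : ℕ → ℕ, Function.Injective j ∧ ∃ ι : ℕ → ℕ, Tendsto ι atTop atTop ∧
      ∀ e b b' : Phi, ∀ᶠ r in atTop, r ∈ X (Fp F j) m ε 1 e → b (ι r) = b' (ι r) →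
        |Fp F j b r - Fp F j b' r| ≤ (20439 : ℕ) * ε := by
  obtain ⟨j1, hj1, U1, hU1, h1⟩ := oca1 hO hF hε ![46, 1018]
  obtain ⟨j2, hj2, U2, hU2, h2⟩ := stage1 hF hε ![46, 1018] j1 hj1 U1 hU1 h1
  have hF2 := hF.push hj2
  obtain ⟨j3, hj3, UU, hUU, h3⟩ := stage2 hF2 hε ![46, 1018] ![22, 508]
    (by intro i; fin_cases i <;> simp) U2 hU2 h2
  have hF3 := hF2.push hj3
  obtain ⟨j4, hj4, O, h4⟩ := stage3 hF3 hε ![22, 508]
    (fun i => 2 * (![46, 1018] : Fin 2 → ℕ) i + (![22, 508] : Fin 2 → ℕ) i + 9) UU hUU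
    (by simpa using h3)
  have hF4 := hF3.push hj4
  have hDa := h4 0
  have hDb := h4 1
  norm_num at hDa hDb
  obtain ⟨j5, hj5, Th, hTh, h5⟩ := oca2 hO hF4 hε 10 22 249 508 (by norm_num) (by norm_num)
    (by norm_num) (O 0) hDa
  obtain ⟨j6, hj6, Θ, O', hR⟩ := stage5 hF4 hε 10 4 508 5109 (by norm_num) (O 1) hDb j5 hj5 Th
    hTh h5
  have hF6 := hF4.push hj6
  obtain ⟨j7, hj7, ι, hι, h7⟩ := stage6 hF6 hε hR
  have e1 : ∀ f, Fp F (j2 ∘ j3 ∘ j4 ∘ j6 ∘ j7) f =
      Fp (Fp (Fp (Fp (Fp F j2) j3) j4) j6) j7 f := by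
    intro f
    simp only [Fp]
    rw [push_push hj6 hj7, push_push hj4 (hj6.comp hj7), push_push hj3 (hj4.comp (hj6.comp hj7)),
      push_push hj2 (hj3.comp (hj4.comp (hj6.comp hj7)))]
  have e2 : Fp F (j2 ∘ j3 ∘ j4 ∘ j6 ∘ j7) = Fp (Fp (Fp (Fp (Fp F j2) j3) j4) j6) j7 :=
    funext e1
  refine ⟨j2 ∘ j3 ∘ j4 ∘ j6 ∘ j7, hj2.comp (hj3.comp (hj4.comp (hj6.comp hj7))), ι, hι, ?_⟩
  rw [e2]
  intro e b b'
  exact h7 e b b'

/-- The constant function `1` is large on all the regions. -/
theorem one_large {F : Phi → ℕ → ℝ} {m ε K : ℝ} (hF : Sys F m ε K) (hε : 0 < ε) (C : ℕ)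
    (hm : (C + 2) * ε < m) (ι : ℕ → ℕ)
    (h : ∀ e b b' : Phi, ∀ᶠ r in atTop, r ∈ X F m ε 1 e → b (ι r) = b' (ι r) →
        |F b r - F b' r| ≤ C * ε) (e : Phi) :
    ∀ᶠ r in atTop, r ∈ X F m ε 1 e → m - (C + 2) * ε ≤ |F (fun _ => 1) r| := by
  have hCε : 0 ≤ (C : ℝ) * ε := mul_nonneg (Nat.cast_nonneg C) hε.le
  set one : Phi := fun _ => 1 with hone
  set two : Phi := fun n => neg3 (one n) with htwo
  have htwo2 : ∀ n, two n = 2 := by
    intro n
    rw [htwo, hone]
    rfl
  have hzero : ∀ᶠ r in atTop, |F (fun _ => 0) r| < ε := by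
    have := (Metric.tendsto_nhds.1 hF.zero) ε hε
    simpa [Real.dist_eq] using this
  have hneg : ∀ᶠ r in atTop, |F two r + F one r| < ε := by
    have := (Metric.tendsto_nhds.1 (hF.neg one)) ε hε
    simpa [Real.dist_eq] using this
  filter_upwards [h e e (fun _ => 0), h e e one, h e e two, hzero, hneg] with r h0 h1 h2 hz hn hr
  have hr' : m - ε < |F e r| := by
    have := hr
    simp only [X, mem_ofPred_eq, Nat.cast_one, one_mul] at this
    exact this
  have hcase : e (ι r) = 0 ∨ e (ι r) = 1 ∨ e (ι r) = 2 := by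
    generalize e (ι r) = x
    fin_cases x <;> simp
  rcases hcase with hc | hc | hc
  · exfalso
    have h3 := h0 hr hc
    have h4 : |F e r| ≤ |F e r - F (fun _ => 0) r| + |F (fun _ => 0) r| := by
      have := abs_add_le (F e r - F (fun _ => 0) r) (F (fun _ => 0) r)
      simpa using this
    nlinarith
  · have h3 := h1 hr hc
    have h4 : |F e r| ≤ |F e r - F one r| + |F one r| := by
      have := abs_add_le (F e r - F one r) (F one r)
      simpa using this
    nlinarith
  · have h3 := h2 hr (hc.trans (htwo2 (ι r)).symm)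
    have h4 : |F e r| ≤ |F e r - F two r| + |F two r| := by
      have := abs_add_le (F e r - F two r) (F two r)
      simpa using this
    have h5 : |F two r| ≤ |F two r + F one r| + |F one r| := by
      have := abs_sub (F two r + F one r) (F one r)
      simpa using this
    nlinarith

theorem ndc_abs_val_le (x : Fin 3) : |val x| ≤ 1 := by
  fin_cases x <;> simp [val]

theorem ndc_val_neg3 (x : Fin 3) : val (neg3 x) = -val x := by
  fin_cases x <;> simp [val, neg3]

theorem ndc_val_zero : val 0 = 0 := by simp [val]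

theorem ndc_bdd_val (f : Phi) : Bdd (fun n => val (f n)) := ⟨1, fun n => ndc_abs_val_le _⟩

/-- A lifting gives a system once upper and lower bounds are known. -/
theorem sys_of_lift {L : (ℕ → ℝ) → ℕ → ℝ} {K m ε : ℝ} (hL : Lift L K) {j : ℕ → ℕ}
    (hj : Function.Injective j)
    (hup : ∀ f : Phi, ∀ᶠ r in atTop, |L (fun n => val (push j f n)) r| < m + ε)
    (hlow : ∀ A : Set ℕ, A.Infinite → ∃ e : Phi, (∀ n, e n ≠ 0 → n ∈ A) ∧
      ∃ᶠ r in atTop, m - ε < |L (fun n => val (push j e n)) r|) :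
    Sys (Fp (fun f => L (fun n => val (f n))) j) m ε K := by
  refine ⟨?_, ?_, ?_, ?_, hup, hlow⟩
  · intro f g hfg
    have h1 : (fun n => val (push j (join f g) n)) =
        (fun n => val (push j f n)) + fun n => val (push j g n) := by
      funext n
      rw [Pi.add_apply]
      by_cases hn : n ∈ range j
      · obtain ⟨k, rfl⟩ := hn
        rw [push_apply hj, push_apply hj, push_apply hj, join]
        rcases hfg k with h | h
        · rw [if_pos h, h, ndc_val_zero, zero_add]
        · by_cases h' : f k = 0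
          · rw [if_pos h', h', ndc_val_zero, zero_add]
          · rw [if_neg h', h, ndc_val_zero, add_zero]
      · rw [push_off _ hn, push_off _ hn, push_off _ hn, ndc_val_zero, add_zero]
    have h2 := hL.add _ _ (ndc_bdd_val (push j f)) (ndc_bdd_val (push j g))
    rw [← h1] at h2
    exact h2
  · intro f
    have h1 : (fun n => val (push j (fun n => neg3 (f n)) n)) =
        (-1 : ℝ) • fun n => val (push j f n) := by
      funext n
      rw [Pi.smul_apply, smul_eq_mul, neg_one_mul]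
      by_cases hn : n ∈ range j
      · obtain ⟨k, rfl⟩ := hn
        rw [push_apply hj, push_apply hj, ndc_val_neg3]
      · rw [push_off _ hn, push_off _ hn, ndc_val_zero, neg_zero]
    have h2 := hL.smul (-1) _ (ndc_bdd_val (push j f))
    rw [← h1] at h2
    refine h2.congr fun r => ?_
    show _ = L (fun n => val (push j (fun n => neg3 (f n)) n)) r + L (fun n => val (push j f n)) r
    ring
  · intro f g hfg
    set a : ℕ → ℝ := fun n => val (push j f n) with ha
    set b : ℕ → ℝ := fun n => val (push j g n) with hb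
    have h0 : Tendsto (a - b) atTop (𝓝 0) := by
      have hfin : {n | a n ≠ b n}.Finite := by
        refine (hfg.image j).subset fun n hn => ?_
        by_cases hn' : n ∈ range j
        · obtain ⟨k, rfl⟩ := hn'
          refine ⟨k, fun h => hn ?_, rfl⟩
          rw [ha, hb]
          dsimp only
          rw [push_apply hj, push_apply hj, h]
        · exact absurd (by rw [ha, hb]; dsimp only; rw [push_off _ hn', push_off _ hn']) hn
      refine tendsto_const_nhds.congr' ?_
      have h1 : ∀ᶠ n in cofinite, n ∉ {n | a n ≠ b n} := hfin.eventually_cofinite_notMem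
      rw [Nat.cofinite_eq_atTop] at h1
      filter_upwards [h1] with n hn
      rw [Pi.sub_apply, not_not.1 hn, sub_self]
    have h1 := hL.zero _ h0
    have hab : Bdd (a - b) := by
      refine ⟨2, fun n => ?_⟩
      have e1 := ndc_abs_val_le (push j f n)
      have e2 := ndc_abs_val_le (push j g n)
      have e3 := abs_sub (a n) (b n)
      rw [Pi.sub_apply]
      calc |a n - b n| ≤ |a n| + |b n| := e3
        _ ≤ 2 := by
          rw [ha, hb]
          dsimp only
          linarith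
    have h2 := hL.add b (a - b) (ndc_bdd_val _) hab
    rw [add_sub_cancel] at h2
    have h3 := h2.add h1
    rw [add_zero] at h3
    refine h3.congr fun r => ?_
    show _ = L a r - L b r
    ring
  · intro f r
    have := hL.bdd (fun n => val (push j f n)) 1 one_pos (fun n => ndc_abs_val_le _) r
    rwa [mul_one] at this

open Classical in
/-- Restriction of a lifting to a set of coordinates. -/
noncomputable def cut (B : Set ℕ) (L : (ℕ → ℝ) → ℕ → ℝ) : (ℕ → ℝ) → ℕ → ℝ :=
  fun f r => if r ∈ B then L f r else 0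

theorem cut_of_mem {B : Set ℕ} {L : (ℕ → ℝ) → ℕ → ℝ} (f : ℕ → ℝ) {r : ℕ} (hr : r ∈ B) :
    cut B L f r = L f r := if_pos hr

theorem cut_of_not_mem {B : Set ℕ} {L : (ℕ → ℝ) → ℕ → ℝ} (f : ℕ → ℝ) {r : ℕ} (hr : r ∉ B) :
    cut B L f r = 0 := if_neg hr

theorem tendsto_zero_of_abs_le {a b : ℕ → ℝ} (hb : Tendsto b atTop (𝓝 0))
    (h : ∀ r, |a r| ≤ |b r|) : Tendsto a atTop (𝓝 0) := by
  have h1 : Tendsto (fun r => |b r|) atTop (𝓝 0) := by
    have := hb.abs
    rwa [abs_zero] at this
  exact squeeze_zero_norm (fun r => by simpa [Real.norm_eq_abs] using h r) h1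

theorem Lift.cut {L : (ℕ → ℝ) → ℕ → ℝ} {K : ℝ} (hL : Lift L K) (hK : 0 < K) (B : Set ℕ) :
    Lift (Pool.Agent.LC.cut B L) K := by
  refine ⟨?_, ?_, ?_, ?_⟩
  · intro f g hf hg
    refine tendsto_zero_of_abs_le (hL.add f g hf hg) fun r => ?_
    by_cases hr : r ∈ B
    · rw [cut_of_mem _ hr, cut_of_mem _ hr, cut_of_mem _ hr]
    · rw [cut_of_not_mem _ hr, cut_of_not_mem _ hr, cut_of_not_mem _ hr]
      simp
  · intro c f hf
    refine tendsto_zero_of_abs_le (hL.smul c f hf) fun r => ?_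
    by_cases hr : r ∈ B
    · rw [cut_of_mem _ hr, cut_of_mem _ hr]
    · rw [cut_of_not_mem _ hr, cut_of_not_mem _ hr]
      simp
  · intro f hf
    refine tendsto_zero_of_abs_le (hL.zero f hf) fun r => ?_
    by_cases hr : r ∈ B
    · rw [cut_of_mem _ hr]
    · rw [cut_of_not_mem _ hr]
      simp
  · intro f M hM hf r
    by_cases hr : r ∈ B
    · rw [cut_of_mem _ hr]
      exact hL.bdd f M hM hf r
    · rw [cut_of_not_mem _ hr]
      simp only [abs_zero]
      positivity

/-- The branches of the binary tree are almost disjoint. -/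
theorem br_inter_finite {x y : ℕ → Bool} (h : x ≠ y) :
    (range (br x) ∩ range (br y)).Finite := by
  obtain ⟨i, hi⟩ := Function.ne_iff.1 h
  refine ((Set.finite_Iic i).image (br x)).subset ?_
  rintro _ ⟨⟨n, rfl⟩, ⟨k, hk⟩⟩
  refine ⟨n, ?_, rfl⟩
  by_contra hcon
  have hlt : i < n := not_le.1 hcon
  exact hi (((br_eq_iff x y n k).1 hk.symm).2 i hlt)

/-- Additivity of a lifting on indicators of almost disjoint sets. -/
theorem Lift.indicator_union {L : (ℕ → ℝ) → ℕ → ℝ} {K : ℝ} (hL : Lift L K) {A B : Set ℕ}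
    (hAB : (A ∩ B).Finite) :
    Tendsto (fun r => L ((A ∪ B).indicator 1) r - L (A.indicator 1) r - L (B.indicator 1) r)
      atTop (𝓝 0) := by
  have hbi : ∀ S : Set ℕ, Bdd (S.indicator (1 : ℕ → ℝ)) := by
    intro S
    refine ⟨1, fun n => ?_⟩
    by_cases hn : n ∈ S <;> simp [hn]
  have h1 : (A ∪ B).indicator (1 : ℕ → ℝ) + (A ∩ B).indicator 1 = A.indicator 1 + B.indicator 1 :=
    Set.indicator_union_add_inter _ _ _
  have h2 : Tendsto ((A ∩ B).indicator (1 : ℕ → ℝ)) atTop (𝓝 0) := by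
    refine tendsto_const_nhds.congr' ?_
    have h3 : ∀ᶠ n in cofinite, n ∉ A ∩ B := hAB.eventually_cofinite_notMem
    rw [Nat.cofinite_eq_atTop] at h3
    filter_upwards [h3] with n hn
    exact (Set.indicator_of_notMem hn _).symm
  have h4 := hL.zero _ h2
  have h5 := hL.add _ _ (hbi (A ∪ B)) (hbi (A ∩ B))
  have h6 := hL.add _ _ (hbi A) (hbi B)
  rw [h1] at h5
  have h7 := (h6.sub h5).sub h4
  simp only [sub_zero] at h7
  refine h7.congr fun r => ?_
  ring

theorem val_ind_eq (S : Set ℕ) : (fun n => val (ind S n)) = (S.indicator 1 : ℕ → ℝ) := by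
  funext n
  by_cases hn : n ∈ S
  · simp [ind, hn, val]
  · simp [ind, hn, val]

/-- The combinatorial core. `P A' B'` expresses that the clopen set of `B'` meets the part of
the closed set over the clopen set of `A'`. -/
theorem ndc_core (hO : OCA) {L : (ℕ → ℝ) → ℕ → ℝ} {K : ℝ} (hL : Lift L K) (hK : 0 < K)
    (A : Set ℕ) (P : Set ℕ → Set ℕ → Prop)
    (h2 : ∀ A' B', A' ⊆ A → P A' B' → B'.Infinite)
    (h3 : ∀ A' B', A' ⊆ A → P A' B' → ∃ A'' ⊆ A', A''.Infinite ∧
      ∀ A''' ⊆ A'', A'''.Infinite → P A''' B')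
    (h4 : ∀ A' B' (δ : ℝ), A' ⊆ A → P A' B' → 0 < δ →
      P A' (B' ∩ {r | |L (A'.indicator 1) r - 1| < δ}))
    (h5 : P A univ) :
    ∃ (C Y : (ℕ → Bool) → Set ℕ), (∀ x, C x ⊆ A ∧ P (C x) (Y x)) ∧
      ∀ x y, x ≠ y → (Y x ∩ Y y).Finite := by
  classical
  set F0 : Phi → ℕ → ℝ := fun f => L (fun n => val (f n)) with hF0
  set S : Set ℝ := {c | ∃ A' B' : Set ℕ, A' ⊆ A ∧ P A' B' ∧
    ∀ e : Phi, (∀ n, e n ≠ 0 → n ∈ A') → ∀ᶠ r in atTop, r ∈ B' → |F0 e r| < c} with hS
  have hbd : ∀ f r, |F0 f r| ≤ K := by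
    intro f r
    have := hL.bdd (fun n => val (f n)) 1 one_pos (fun n => ndc_abs_val_le _) r
    rwa [mul_one] at this
  have hne : S.Nonempty :=
    ⟨K + 1, A, univ, subset_rfl, h5, fun e _ => Eventually.of_forall fun r _ => by
      have := hbd e r
      linarith⟩
  have hind : ∀ T : Set ℕ, F0 (ind T) = L (T.indicator 1) := by
    intro T
    rw [hF0]
    dsimp only
    rw [val_ind_eq]
  have hlb : ∀ c ∈ S, 1 ≤ c := by
    rintro c ⟨A', B', hA', hP, hc⟩
    by_contra hcon
    push Not at hcon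
    have e1 := h4 A' B' (1 - c) hA' hP (by linarith)
    have e2 := h2 A' _ hA' e1
    have e3 := hc (ind A') (fun n hn => by
      by_contra h
      exact hn (if_neg h))
    rw [hind] at e3
    have e4 : ∃ᶠ r in atTop, r ∈ B' ∩ {r | |L (A'.indicator 1) r - 1| < 1 - c} :=
      Nat.frequently_atTop_iff_infinite.2 e2
    obtain ⟨r, ⟨hr1, hr2⟩, hr3⟩ := (e4.and_eventually e3).exists
    have hr4 := hr3 hr1
    rw [mem_ofPred_eq, abs_lt] at hr2
    rw [abs_lt] at hr4
    linarith [hr2.1, hr4.2]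
  obtain ⟨m, hm⟩ : ∃ m : ℝ, m = sInf S := ⟨_, rfl⟩
  have hm1 : 1 ≤ m := by
    rw [hm]
    exact le_csInf hne hlb
  have hbddS : BddBelow S := ⟨1, hlb⟩
  obtain ⟨ε, hεdef⟩ : ∃ ε : ℝ, ε = 1 / 1000000 := ⟨_, rfl⟩
  have hε : 0 < ε := by
    rw [hεdef]
    norm_num
  obtain ⟨c, ⟨A1, B1, hA1, hP1, hc⟩, hcm⟩ :=
    exists_lt_of_csInf_lt hne (show sInf S < m + ε by linarith)
  obtain ⟨A0, hA0, hA0i, hA0P⟩ := h3 A1 B1 hA1 hP1
  have hA0A : A0 ⊆ A := hA0.trans hA1
  set j0 : ℕ → ℕ := Nat.nth (· ∈ A0) with hj0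
  have hj0inj : Function.Injective j0 := Nat.nth_injective hA0i
  have hj0A : ∀ n, j0 n ∈ A0 := fun n => Nat.nth_mem_of_infinite hA0i n
  -- upper bound
  have hupper : ∀ e : Phi, (∀ n, e n ≠ 0 → n ∈ A0) → ∀ᶠ r in atTop, r ∈ B1 →
      |F0 e r| < m + ε := by
    intro e he
    filter_upwards [hc e (fun n hn => hA0 (he n hn))] with r hr hrB
    exact (hr hrB).trans hcm
  -- lower bound
  have hlower : ∀ A' B' : Set ℕ, A' ⊆ A → P A' B' → ∃ e : Phi, (∀ n, e n ≠ 0 → n ∈ A') ∧
      ∃ᶠ r in atTop, r ∈ B' ∧ m - ε < |F0 e r| := by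
    intro A' B' hA' hP
    by_contra hcon
    push Not at hcon
    have hmem : m - ε / 2 ∈ S := by
      refine ⟨A', B', hA', hP, fun e he => ?_⟩
      filter_upwards [hcon e he] with r hr hrB
      have := hr hrB
      linarith
    have := csInf_le hbddS hmem
    rw [← hm] at this
    linarith
  have hpush : ∀ (j : ℕ → ℕ), Function.Injective j → ∀ e : Phi, (∀ n, e n ≠ 0 → n ∈ range j) →
      push j (fun n => e (j n)) = e := by
    intro j hj e he
    funext n
    by_cases hn : n ∈ range j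
    · obtain ⟨k, rfl⟩ := hn
      rw [push_apply hj]
    · rw [push_off _ hn]
      by_contra h
      exact hn (he n (Ne.symm h))
  set L1 := cut B1 L with hL1
  have hL1L : Lift L1 K := hL.cut hK B1
  have hSys : Sys (Fp (fun f => L1 (fun n => val (f n))) j0) m ε K := by
    refine sys_of_lift hL1L hj0inj ?_ ?_
    · intro f
      have e1 := hupper (push j0 f) (fun n hn => by
        by_contra h
        refine hn (push_off _ ?_)
        rintro ⟨k, rfl⟩
        exact h (hj0A k))
      filter_upwards [e1] with r hr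
      by_cases hrB : r ∈ B1
      · rw [hL1, cut_of_mem _ hrB]
        exact hr hrB
      · rw [hL1, cut_of_not_mem _ hrB, abs_zero]
        linarith
    · intro A' hA'
      have hsub : j0 '' A' ⊆ A0 := by
        rintro _ ⟨k, -, rfl⟩
        exact hj0A k
      obtain ⟨e, he, hfreq⟩ := hlower (j0 '' A') B1 (hsub.trans hA0A)
        (hA0P _ hsub (hA'.image hj0inj.injOn))
      refine ⟨fun n => e (j0 n), fun n hn => ?_, ?_⟩
      · obtain ⟨k, hk, hk2⟩ := he _ hn
        rwa [← hj0inj hk2]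
      · refine hfreq.mono ?_
        rintro r ⟨hrB, hr⟩
        rw [hpush j0 hj0inj e (fun n hn => by
          obtain ⟨k, -, hk2⟩ := he _ hn
          exact ⟨k, hk2⟩), hL1, cut_of_mem _ hrB]
        exact hr
  obtain ⟨j, hj, ι, -, hst⟩ := stage_all hO hε hSys
  have hSys2 := hSys.push hj
  have hbig := one_large hSys2 hε 20439 (by rw [hεdef]; push_cast; linarith) ι hst
  set jj : ℕ → ℕ := j0 ∘ j with hjj
  have hjjinj : Function.Injective jj := hj0inj.comp hj
  have hrsub : range jj ⊆ A0 := by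
    rintro _ ⟨k, rfl⟩
    exact hj0A _
  have hrinf : (range jj).Infinite := infinite_range_of_injective hjjinj
  -- the value m is at most 1 + small
  have hmle : m ≤ 1 + 20443 * ε := by
    have e1 := h4 (range jj) B1 ε (hrsub.trans hA0A) (hA0P _ hrsub hrinf) hε
    obtain ⟨e, he, hfreq⟩ := hlower (range jj) _ (hrsub.trans hA0A) e1
    obtain ⟨r, ⟨⟨hr1, hr2⟩, hr3⟩, hr4⟩ :=
      (hfreq.and_eventually (hbig (fun n => e (jj n)))).exists
    have e2 : Fp (Fp (fun f => L1 (fun n => val (f n))) j0) j (fun n => e (jj n)) r =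
        F0 e r := by
      simp only [Fp]
      rw [push_push hj0inj hj, hpush jj hjjinj e he, hL1, cut_of_mem _ hr1]
    have e3 : Fp (Fp (fun f => L1 (fun n => val (f n))) j0) j (fun _ => 1) r =
        L ((range jj).indicator 1) r := by
      simp only [Fp]
      rw [push_push hj0inj hj, hL1, cut_of_mem _ hr1, ← val_ind_eq]
      have e4 : push (j0 ∘ j) (fun _ => 1) = ind (range jj) := by
        have := push_ind hjjinj univ
        rw [image_univ] at this
        rw [← this]
        have e5 : ind univ = fun _ => 1 := by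
          funext n
          simp [ind]
        rw [e5]
      rw [e4]
    have e4 : r ∈ X (Fp (Fp (fun f => L1 (fun n => val (f n))) j0) j) m ε 1
        (fun n => e (jj n)) := by
      change m - ((1 : ℕ) : ℝ) * ε < |Fp (Fp (fun f => L1 (fun n => val (f n))) j0) j
        (fun n => e (jj n)) r|
      rw [e2]
      push_cast
      linarith
    have e5 := hr4 e4
    rw [e3] at e5
    rw [mem_ofPred_eq, abs_lt] at hr2
    have e6 : |L ((range jj).indicator 1) r| ≤ 1 + ε := by
      rw [abs_le]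
      constructor <;> linarith [hr2.1, hr2.2]
    push_cast at e5
    linarith
  have hm2 : m + ε < 3 / 2 - 1 / 4 := by
    rw [hεdef] at hmle ⊢
    linarith
  -- the almost disjoint family
  have hCsub : ∀ x : ℕ → Bool, j0 '' (range (br x)) ⊆ A0 := by
    rintro x _ ⟨k, -, rfl⟩
    exact hj0A k
  refine ⟨fun x => j0 '' (range (br x)),
    fun x => B1 ∩ {r | |L ((j0 '' (range (br x))).indicator 1) r - 1| < 1 / 4}, ?_, ?_⟩
  · intro x
    refine ⟨(hCsub x).trans hA0A, ?_⟩
    exact h4 _ _ _ ((hCsub x).trans hA0A) (hA0P _ (hCsub x)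
      ((infinite_range_of_injective (br_injective x)).image hj0inj.injOn)) (by norm_num)
  · intro x y hxy
    by_contra hinf
    have hinf' : ((B1 ∩ {r | |L ((j0 '' (range (br x))).indicator 1) r - 1| < 1 / 4}) ∩
      (B1 ∩ {r | |L ((j0 '' (range (br y))).indicator 1) r - 1| < 1 / 4})).Infinite := hinf
    have hfin : ((j0 '' (range (br x))) ∩ (j0 '' (range (br y)))).Finite := by
      rw [← image_inter hj0inj]
      exact (br_inter_finite hxy).image _
    have e1 := hL.indicator_union hfin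
    have e2 : ∀ᶠ r in atTop, |L ((j0 '' (range (br x)) ∪ j0 '' (range (br y))).indicator 1) r -
        L ((j0 '' (range (br x))).indicator 1) r - L ((j0 '' (range (br y))).indicator 1) r| <
        1 / 4 := by
      have := (Metric.tendsto_nhds.1 e1) (1 / 4) (by norm_num)
      simpa [Real.dist_eq] using this
    have e3 := hupper (ind (j0 '' (range (br x)) ∪ j0 '' (range (br y)))) (fun n hn => by
      by_contra h
      refine hn (if_neg ?_)
      rintro (h' | h')
      · exact h (hCsub x h')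
      · exact h (hCsub y h'))
    rw [hind] at e3
    have hinf2 : ∃ᶠ r in atTop,
        r ∈ ((B1 ∩ {r | |L ((j0 '' (range (br x))).indicator 1) r - 1| < 1 / 4}) ∩
        (B1 ∩ {r | |L ((j0 '' (range (br y))).indicator 1) r - 1| < 1 / 4})) :=
      Nat.frequently_atTop_iff_infinite.2 hinf'
    obtain ⟨r, ⟨⟨⟨hr1, hr2⟩, ⟨-, hr3⟩⟩, hr4⟩, hr5⟩ :=
      ((hinf2.and_eventually e2).and_eventually e3).exists
    have e4 := hr5 hr1
    rw [mem_ofPred_eq] at hr2 hr3
    rw [abs_lt] at hr2 hr3 hr4 e4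
    linarith [hr2.1, hr3.1, hr4.1, e4.2]

end Pool.Agent.LC
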