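import Pool.Agent.LC.Ndc
import Pool.Agent.LC.Beta

/-!
Under the open colouring axiom no closed set of a configuration is c.c.c. over Fin.
-/

open Filter Topology Set
open scoped BoundedContinuousFunction

namespace Pool.Agent.LC

theorem star_isClopen (A : Set ℕ) : IsClopen (star A) :=
  ⟨(clo_isClosed A).preimage continuous_subtype_val,
    (clo_isOpen A).preimage continuous_subtype_val⟩

/-- In the compact remainder, a point outside a closed set is separated from it by a clopen set
of the form `star B`. -/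
theorem exists_star_disjoint {E : Set Nstar} (hE : IsClosed E) {y : Nstar} (hy : y ∉ E) :
    ∃ B : Set ℕ, y ∈ star B ∧ Disjoint (star B) E := by
  have hE' : IsClosed (Subtype.val '' E : Set (StoneCech ℕ)) :=
    Nstar_isClosed.isClosedEmbedding_subtypeVal.isClosedMap _ hE
  have hy' : (y : StoneCech ℕ) ∈ (Subtype.val '' E : Set (StoneCech ℕ))ᶜ := by
    rintro ⟨z, hz, hzy⟩
    rw [Subtype.val_injective hzy] at hz
    exact hy hz
  obtain ⟨V, hyV, hV, hVE⟩ := exists_mem_nhds_isClosed_subset
    (hE'.isOpen_compl.mem_nhds hy')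
  obtain ⟨W, hWV, hW, hyW⟩ := mem_nhds_iff.1 hyV
  refine ⟨{n | stoneCechUnit n ∈ W}, mem_clo_of_open hW hyW, ?_⟩
  rw [Set.disjoint_left]
  intro z hz hzE
  have h1 : (z : StoneCech ℕ) ∈ V := by
    have : clo {n | stoneCechUnit n ∈ W} ⊆ V := by
      refine closure_minimal ?_ hV
      rintro _ ⟨n, hn, rfl⟩
      exact hWV hn
    exact this hz
  exact hVE h1 ⟨z, hzE, rfl⟩

/-- OCA: the closed set of a configuration is not c.c.c. over Fin. -/
theorem config_not_ccc (hO : OCA) (T : (Nstar →ᵇ ℝ) →L[ℝ] (Nstar →ᵇ ℝ)) (A : Set ℕ)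
    (F : Set Nstar) (ψ : F → Nstar) (h : Config T A F ψ) : ¬ CccOverFin F := by
  classical
  obtain ⟨L, K, hK, hL, hLT⟩ := exists_lift_beta T
  have hcompF : CompactSpace F := by
    have : CompactSpace Nstar := isCompact_iff_compactSpace.1 Nstar_isClosed.isCompact
    exact isCompact_iff_compactSpace.1 h.closed.isCompact
  -- the value of the image of an indicator
  have hone : ∀ A' : Set ℕ, A' ⊆ A → ∃ H : C(StoneCech ℕ, ℝ),
      (∀ r, L (A'.indicator 1) r = H (stoneCechUnit r)) ∧
      ∀ x : F, (ψ x) ∈ star A' → H x.1.1 = 1 := by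
    intro A' hA'
    have hb : Bdd (A'.indicator (1 : ℕ → ℝ)) := by
      refine ⟨1, fun n => ?_⟩
      by_cases hn : n ∈ A' <;> simp [hn]
    obtain ⟨G, hG⟩ := exists_ext hb
    obtain ⟨H, hH1, hH2⟩ := hLT G
    refine ⟨H, fun r => ?_, fun x hx => ?_⟩
    · rw [← hH2]
      congr 1
      funext n
      exact (hG n).symm
    · have e1 : rest H x.1 = T (rest G) x.1 := by rw [hH1]
      rw [h.comp G (fun n hn => by
        rw [hG, Set.indicator_of_notMem (fun hn' => hn (hA' hn'))]) x] at e1
      rw [rest_apply, rest_apply] at e1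
      rw [e1]
      have e2 := le_of_mem_clo (G := G) (A := A') (a := 1) (c := 0) (fun n hn => by
        rw [hG, Set.indicator_of_mem hn]
        simp) hx
      have e3 : G (ψ x).1 - 1 = 0 := abs_nonpos_iff.1 e2
      linarith
  obtain ⟨C, Y, hCY, hY⟩ := ndc_core hO hL hK A
    (fun A' B' => ∃ x : F, ψ x ∈ star A' ∧ x.1 ∈ star B')
    (by
      rintro A' B' - ⟨x, -, hx⟩ hfin
      exact not_mem_clo_of_finite (not_infinite.1 (by simpa using hfin)) x.1.2 hx)
    (by
      rintro A' B' hA' ⟨x, hx1, hx2⟩
      -- the complement of the relatively open set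
      let E : Set F := {z | ψ z ∈ star A' ∧ z.1 ∈ star B'}ᶜ
      have hE : IsClosed E := by
        refine IsOpen.isClosed_compl (IsOpen.inter ?_ ?_)
        · exact (star_isClopen A').2.preimage h.continuous
        · exact (star_isClopen B').2.preimage continuous_subtype_val
      have hEne : E ≠ univ := by
        intro hE'
        have : x ∈ E := by rw [hE']; trivial
        exact this ⟨hx1, hx2⟩
      have himg : ψ '' E ≠ star A := fun h' => hEne (h.irreducible E hE h')
      have hsub : ψ '' E ⊆ star A := by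
        rw [← h.range_eq]
        exact image_subset_range _ _
      obtain ⟨y, hyA, hyE⟩ := (ssubset_iff_of_subset hsub).1 (hsub.ssubset_of_ne himg)
      have hclosed : IsClosed (ψ '' E) := (hE.isCompact.image h.continuous).isClosed
      obtain ⟨B, hyB, hBE⟩ := exists_star_disjoint hclosed hyE
      have hyA' : y ∈ star A' := by
        rw [← h.range_eq] at hyA
        obtain ⟨z, rfl⟩ := hyA
        by_contra hcon
        exact hyE ⟨z, fun hz => hcon hz.1, rfl⟩
      refine ⟨A' ∩ B, inter_subset_left, ?_, ?_⟩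
      · intro hfin
        have : (y : StoneCech ℕ) ∈ clo (A' ∩ B) := by
          rw [← clo_inter]
          exact ⟨hyA', hyB⟩
        exact not_mem_clo_of_finite hfin y.2 this
      · intro A3 hA3 hinf
        obtain ⟨z, hz, hz3⟩ := exists_star hinf
        have hzA : (⟨z, hz⟩ : Nstar) ∈ star A := clo_mono ((hA3.trans inter_subset_left).trans hA') hz3
        rw [← h.range_eq] at hzA
        obtain ⟨w, hw⟩ := hzA
        refine ⟨w, by rw [hw]; exact hz3, ?_⟩
        by_contra hcon
        have hwE : w ∈ E := fun hw' => hcon hw'.2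
        have h1 : (⟨z, hz⟩ : Nstar) ∈ star B := clo_mono (hA3.trans inter_subset_right) hz3
        exact Set.disjoint_left.1 hBE h1 ⟨w, hwE, hw⟩)
    (by
      rintro A' B' δ hA' ⟨x, hx1, hx2⟩ hδ
      refine ⟨x, hx1, ?_⟩
      obtain ⟨H, hH1, hH2⟩ := hone A' hA'
      have e1 : (x.1.1 : StoneCech ℕ) ∈ clo {r | |L (A'.indicator 1) r - 1| < δ} := by
        have ho : IsOpen {y : StoneCech ℕ | |H y - 1| < δ} :=
          isOpen_lt (by fun_prop) continuous_const
        have hmem : (x.1.1 : StoneCech ℕ) ∈ {y : StoneCech ℕ | |H y - 1| < δ} := by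
          rw [mem_ofPred_eq, hH2 x hx1, sub_self, abs_zero]
          exact hδ
        refine clo_mono ?_ (mem_clo_of_open ho hmem)
        intro r hr
        rw [mem_ofPred_eq, hH1]
        exact hr
      change (x.1.1 : StoneCech ℕ) ∈ clo _
      rw [← clo_inter]
      exact ⟨hx2, e1⟩)
    (by
      obtain ⟨z, hz, hzA⟩ := exists_star h.infinite
      have hzA' : (⟨z, hz⟩ : Nstar) ∈ star A := hzA
      rw [← h.range_eq] at hzA'
      obtain ⟨w, hw⟩ := hzA'
      refine ⟨w, by rw [hw]; exact hzA, ?_⟩
      change (w.1.1 : StoneCech ℕ) ∈ clo univ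
      rw [clo_univ]
      trivial)
  -- the uncountable family
  intro hccc
  have hmeet : ∀ x, (star (Y x) ∩ F).Nonempty := by
    intro x
    obtain ⟨-, z, -, hz⟩ := hCY x
    exact ⟨z.1, hz, z.2⟩
  have hdisj : ∀ x y, x ≠ y → Disjoint (star (Y x)) (star (Y y)) := by
    intro x y hxy
    rw [Set.disjoint_left]
    intro z hz1 hz2
    have : (z : StoneCech ℕ) ∈ clo (Y x ∩ Y y) := by
      rw [← clo_inter]
      exact ⟨hz1, hz2⟩
    exact not_mem_clo_of_finite (hY x y hxy) z.2 this
  have hinj : Function.Injective (fun x => star (Y x)) := by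
    intro x y hxy
    by_contra hne
    have h1 := hdisj x y hne
    have hxy' : star (Y x) = star (Y y) := hxy
    rw [← hxy', disjoint_self] at h1
    obtain ⟨z, hz, -⟩ := hmeet x
    rw [h1] at hz
    exact hz
  have hunc : ¬ (range (fun x : ℕ → Bool => star (Y x))).Countable := by
    intro hc
    have h1 := hc.preimage_of_injOn (f := fun x : ℕ → Bool => star (Y x)) hinj.injOn
    rw [preimage_range] at h1
    obtain ⟨x, hx⟩ := OcaAux.exists_branch_not_mem h1
    exact hx trivial
  have h2 := hccc (range (fun x : ℕ → Bool => star (Y x))) hunc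
    (by
      rintro _ ⟨x, rfl⟩
      exact star_isClopen _)
    (by
      rintro _ ⟨x, rfl⟩ _ ⟨y, rfl⟩ hxy
      exact hdisj x y (fun h' => hxy (by rw [h'])))
  apply hunc
  refine h2.mono ?_
  rintro _ ⟨x, rfl⟩
  exact ⟨⟨x, rfl⟩, hmeet x⟩

end Pool.Agent.LC
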