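import Pool.Agent.LC.Oca1Cover
import Pool.Agent.LC.OcaAux

open Filter Topology Set

namespace Pool.Agent.LC

open OcaAux

open Classical in
theorem oca1 (hO : OCA) {F : Phi → ℕ → ℝ} {m ε K : ℝ} (hF : Sys F m ε K) (hε : 0 < ε)
    (t : Fin 2 → ℕ) :
    ∃ j : ℕ → ℕ, Function.Injective j ∧ ∃ U : ℕ → Fin 2 → ℕ → ℤ → Set Phi,
      (∀ n i r v, IsOpen (U n i r v)) ∧
      ∀ᶠ f in residual Phi, ∀ e, ∃ n, ∀ i, ∀ r ∈ X F m ε (t i) (push j e),
        (∃ v, f ∈ U n i r v) ∧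
        ∀ v : ℤ, f ∈ U n i r v → |F (push j f) r - v * ε| ≤ (2 * t i + 5) * ε := by
  obtain ⟨S, hS, hhom⟩ := oca1_cover hO hF hε t
  let G : ((ℕ → Bool) × Phi × Phi) → ((ℕ → Bool) × Phi × Phi) × (ℕ → ℝ) × (ℕ → ℝ) := fun p =>
    (p, F (push (br p.1) p.2.1), F (push (br p.1) p.2.2))
  choose D hDS hDc hDd using fun n => exists_dense_sub G (S n)
  obtain ⟨x0, hx0⟩ := exists_branch_not_mem
    (countable_iUnion fun n => (hDc n).image Prod.fst)
  have hne : ∀ n, ∀ d ∈ D n, x0 ≠ d.1 := fun n d hd h =>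
    hx0 (mem_iUnion.2 ⟨n, ⟨d, hd, h.symm⟩⟩)
  let U : ℕ → Fin 2 → ℕ → ℤ → Set Phi := fun n i r v =>
    {f | ∃ d ∈ D n, (∀ l, br x0 l = br d.1 l → f l = d.2.2 l) ∧
      r ∈ X F m ε (t i) (push (br d.1) d.2.1) ∧ ⌊F (push (br d.1) d.2.2) r / ε⌋ = v}
  have hU : ∀ n i r v, IsOpen (U n i r v) := fun n i r v => by
    have heq : U n i r v = ⋃ d ∈ D n, {f | (∀ l, br x0 l = br d.1 l → f l = d.2.2 l)} ∩
        {_f | r ∈ X F m ε (t i) (push (br d.1) d.2.1) ∧
          ⌊F (push (br d.1) d.2.2) r / ε⌋ = v} := by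
      ext f
      simp only [U, mem_ofPred_eq, mem_iUnion, mem_inter_iff, exists_prop]
    rw [heq]
    exact isOpen_biUnion fun d hd => (isOpen_agree (hne n d hd) d.2.2).inter isOpen_const
  refine ⟨br x0, br_injective x0, U, hU, ?_⟩
  have hres : ∀ᶠ f in residual Phi, ∀ n i r,
      f ∈ closure (⋃ v, U n i r v) → f ∈ ⋃ v, U n i r v := by
    refine eventually_countable_forall.2 fun n => eventually_countable_forall.2 fun i =>
      eventually_countable_forall.2 fun r => closure_imp _ (isOpen_iUnion fun v => hU n i r v)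
  filter_upwards [hres] with f hf e
  obtain ⟨n, hn⟩ := hS (x0, e, f)
  refine ⟨n, fun i r hr => ⟨?_, fun v hv => ?_⟩⟩
  · have hmem : f ∈ ⋃ v, U n i r v := by
      refine hf n i r ?_
      rw [mem_closure_iff]
      intro W hW hfW
      obtain ⟨l0, hl0⟩ := exists_level hW hfW
      -- the open set in the second countable space
      let O : Set (((ℕ → Bool) × Phi × Phi) × (ℕ → ℝ) × (ℕ → ℝ)) :=
        {q | (∀ l < l0, q.1.2.2 l = f l) ∧ m - t i * ε < |q.2.1 r|}
      have hOo : IsOpen O := by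
        have h1 : IsOpen {q : ((ℕ → Bool) × Phi × Phi) × (ℕ → ℝ) × (ℕ → ℝ) |
            ∀ l < l0, q.1.2.2 l = f l} :=
          (isOpen_level f l0).preimage
            (f := fun q : ((ℕ → Bool) × Phi × Phi) × (ℕ → ℝ) × (ℕ → ℝ) => q.1.2.2)
            (by fun_prop)
        have h2 : IsOpen {q : ((ℕ → Bool) × Phi × Phi) × (ℕ → ℝ) × (ℕ → ℝ) |
            m - t i * ε < |q.2.1 r|} :=
          isOpen_lt continuous_const (by fun_prop)
        exact h1.inter h2
      obtain ⟨d, hd, hdO⟩ := hDd n (x0, e, f) hn O hOo ⟨fun _ _ => rfl, hr⟩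
      let f1 : Phi := fun l => if br x0 l = br d.1 l then d.2.2 l else f l
      have hf1 : ∀ l < l0, f1 l = f l := fun l hl => by
        simp only [f1]
        split_ifs with h
        · exact hdO.1 l hl
        · rfl
      refine ⟨f1, hl0 f1 hf1, mem_iUnion.2 ⟨⌊F (push (br d.1) d.2.2) r / ε⌋, d, hd, ?_, hdO.2,
        rfl⟩⟩
      intro l hl
      simp only [f1, if_pos hl]
    exact mem_iUnion.1 hmem
  · obtain ⟨d, hd, hag, hrd, hfl⟩ := hv
    have h1 := hhom n (x0, e, f) hn d (hDS n hd) (hne n d hd) hag i r hr hrd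
    have h2 := floor_close hε (F (push (br d.1) d.2.2) r)
    rw [hfl] at h2
    have h3 : |F (push (br x0) f) r - v * ε| ≤ |F (push (br x0) f) r - F (push (br d.1) d.2.2) r|
        + |F (push (br d.1) d.2.2) r - v * ε| := abs_sub_le _ _ _
    calc |F (push (br x0) f) r - v * ε| ≤ 2 * (t i + 2) * ε + ε := h3.trans (add_le_add h1 h2)
      _ = (2 * t i + 5) * ε := by ring

end Pool.Agent.LC
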