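import Pool.Agent.LC.Basic

open Filter Topology Set

namespace Pool.Agent.LC

/-- pigeonhole for uncountable sets and maps into countable types -/
theorem exists_uncountable_fiber {α β : Type*} [Countable β] {Y : Set α} (hY : ¬ Y.Countable)
    (f : α → β) : ∃ b, ¬ {a ∈ Y | f a = b}.Countable := by
  by_contra hcon
  push Not at hcon
  apply hY
  have : Y = ⋃ b, {a ∈ Y | f a = b} := by
    ext a
    simp
  rw [this]
  exact countable_iUnion hcon

/-- uncountable sets contain two distinct points -/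
theorem exists_pair_of_uncountable {α : Type*} {Y : Set α} (hY : ¬ Y.Countable) :
    ∃ a ∈ Y, ∃ b ∈ Y, a ≠ b := by
  by_contra hcon
  push Not at hcon
  apply hY
  have : Y.Subsingleton := fun a ha b hb => hcon a ha b hb
  exact this.countable

/-- Vectors of floors below `k`. -/
theorem abs_sub_le_of_floor_eq {ε a b : ℝ} (hε : 0 < ε) (h : ⌊a / ε⌋ = ⌊b / ε⌋) :
    |a - b| ≤ ε := by
  have h1 := Int.abs_sub_lt_one_of_floor_eq_floor h
  have h2 : a / ε - b / ε = (a - b) / ε := by ring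
  rw [h2, abs_div, abs_of_pos hε, div_lt_one hε] at h1
  exact h1.le

/-- The space of points of the first colouring (with the two values refined). -/
abbrev Y1 : Type := (ℕ → Bool) × Phi × Phi × (ℕ → ℝ) × (ℕ → ℝ)

/-- The set of points of the first colouring. -/
def Z1 (F : Phi → ℕ → ℝ) : Set Y1 := {p | p.2.2.2.1 = F (push (br p.1) p.2.1) ∧
    p.2.2.2.2 = F (push (br p.1) p.2.2.1)}

/-- First application of OCA: the countable cover by homogeneous sets. -/
theorem oca1_cover (hO : OCA) {F : Phi → ℕ → ℝ} {m ε K : ℝ} (hF : Sys F m ε K) (hε : 0 < ε)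
    (t : Fin 2 → ℕ) :
    ∃ S : ℕ → Set ((ℕ → Bool) × Phi × Phi), (∀ p, ∃ n, p ∈ S n) ∧
      ∀ n, ∀ p ∈ S n, ∀ p' ∈ S n, p.1 ≠ p'.1 →
        (∀ l, br p.1 l = br p'.1 l → p.2.2 l = p'.2.2 l) →
        ∀ i r, r ∈ X F m ε (t i) (push (br p.1) p.2.1) →
          r ∈ X F m ε (t i) (push (br p'.1) p'.2.1) →
          |F (push (br p.1) p.2.2) r - F (push (br p'.1) p'.2.2) r| ≤ 2 * (t i + 2) * ε := by
  classical
  have : TopologicalSpace.MetrizableSpace (Z1 F) :=
    TopologicalSpace.metrizableSpace_of_t3_secondCountable (Z1 F)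
  let Kc : Set (Z1 F × Z1 F) := {pq | (pq.1.1.1 ≠ pq.2.1.1 ∧
      ∀ l, br pq.1.1.1 l = br pq.2.1.1 l → pq.1.1.2.2.1 l = pq.2.1.2.2.1 l) ∧
      ∃ i r, m - t i * ε < |pq.1.1.2.2.2.1 r| ∧ m - t i * ε < |pq.2.1.2.2.2.1 r| ∧
        2 * (t i + 2) * ε < |pq.1.1.2.2.2.2 r - pq.2.1.2.2.2.2 r|}
  have hopen : IsOpen Kc := by
    apply IsOpen.inter
    · have hc : Continuous (fun pq : Z1 F × Z1 F =>
        (((pq.1.1.1, pq.1.1.2.2.1), (pq.2.1.1, pq.2.1.2.2.1)) :
          ((ℕ → Bool) × Phi) × ((ℕ → Bool) × Phi))) := by fun_prop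
      exact isOpen_coh.preimage hc
    · have : {pq : Z1 F × Z1 F | ∃ i r, m - t i * ε < |pq.1.1.2.2.2.1 r| ∧
          m - t i * ε < |pq.2.1.2.2.2.1 r| ∧
          2 * (t i + 2) * ε < |pq.1.1.2.2.2.2 r - pq.2.1.2.2.2.2 r|} =
          ⋃ i, ⋃ r, {pq : Z1 F × Z1 F | m - t i * ε < |pq.1.1.2.2.2.1 r| ∧
          m - t i * ε < |pq.2.1.2.2.2.1 r| ∧
          2 * (t i + 2) * ε < |pq.1.1.2.2.2.2 r - pq.2.1.2.2.2.2 r|} := by
        ext pq
        simp
      change IsOpen {pq : Z1 F × Z1 F | ∃ i r, m - t i * ε < |pq.1.1.2.2.2.1 r| ∧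
          m - t i * ε < |pq.2.1.2.2.2.1 r| ∧
          2 * (t i + 2) * ε < |pq.1.1.2.2.2.2 r - pq.2.1.2.2.2.2 r|}
      rw [this]
      refine isOpen_iUnion fun i => isOpen_iUnion fun r => ?_
      have c1 : Continuous (fun pq : Z1 F × Z1 F => |pq.1.1.2.2.2.1 r|) := by fun_prop
      have c2 : Continuous (fun pq : Z1 F × Z1 F => |pq.2.1.2.2.2.1 r|) := by fun_prop
      have c3 : Continuous (fun pq : Z1 F × Z1 F =>
        |pq.1.1.2.2.2.2 r - pq.2.1.2.2.2.2 r|) := by fun_prop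
      exact IsOpen.inter (isOpen_lt continuous_const c1)
        (IsOpen.inter (isOpen_lt continuous_const c2) (isOpen_lt continuous_const c3))
  have hsymm : ∀ x y : Z1 F, (x, y) ∈ Kc → (y, x) ∈ Kc := by
    rintro x y ⟨⟨h1, h2⟩, i, r, h3, h4, h5⟩
    refine ⟨⟨h1.symm, fun l hl => (h2 l hl.symm).symm⟩, i, r, h4, h3, ?_⟩
    rw [abs_sub_comm]
    exact h5
  rcases hO (Z1 F) Kc hopen hsymm with ⟨H, hH, hHK⟩ | ⟨S, hS1, hS2⟩
  · exfalso
    -- the amalgam
    have hdist : ∀ p ∈ H, ∀ p' ∈ H, ∀ n, br p.1.1 n = br p'.1.1 n →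
        p.1.2.2.1 n = p'.1.2.2.1 n := by
      intro p hp p' hp' n hn
      by_cases hpp : p = p'
      · rw [hpp]
      · exact (hHK p hp p' hp' hpp).1.2 n hn
    obtain ⟨h, hh⟩ := amalgam (ι := H) (fun p => p.1.1.1) (fun p => p.1.1.2.2.1)
      (fun p p' n hn => hdist p.1 p.2 p'.1 p'.2 n hn)
    have hk : ∀ p : Z1 F, ∃ k : ℕ, p ∈ H → ∀ r ≥ k, ∀ i, r ∈ X F m ε (t i) (push (br p.1.1) p.1.2.1) →
        |F h r - F (push (br p.1.1) p.1.2.2.1) r| ≤ (t i + 2) * ε := by
      intro p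
      by_cases hp : p ∈ H
      · have hres : res (range (br p.1.1)) h = push (br p.1.1) p.1.2.2.1 :=
          res_range_of_eq (br_injective _) h _ (fun n => hh ⟨p, hp⟩ n)
        have h1 : ∀ i, ∀ᶠ r in atTop, r ∈ X F m ε (t i) (push (br p.1.1) p.1.2.1) →
            |F h r - F (push (br p.1.1) p.1.2.2.1) r| ≤ (t i + 2) * ε := by
          intro i
          have := hF.res_close hε (range (br p.1.1)) h (push (br p.1.1) p.1.2.1) (t i)
            (by
              intro n hn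
              by_contra hcon
              exact hn (push_off _ hcon))
          rw [hres] at this
          exact this
        have h2 := eventually_all.2 h1
        obtain ⟨k, hk⟩ := eventually_atTop.1 h2
        exact ⟨k, fun _ r hr i => hk r hr i⟩
      · exact ⟨0, fun h => absurd h hp⟩
    choose kk hkk using hk
    -- pigeonhole
    obtain ⟨k, hk1⟩ := exists_uncountable_fiber hH kk
    obtain ⟨v, hv1⟩ := exists_uncountable_fiber hk1
      (fun p => (fun r : Fin k => ⌊F (push (br p.1.1) p.1.2.2.1) r / ε⌋ : Fin k → ℤ))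
    obtain ⟨p, hp, p', hp', hne⟩ := exists_pair_of_uncountable hv1
    obtain ⟨⟨hpH, hpk⟩, hpv⟩ := hp
    obtain ⟨⟨hpH', hpk'⟩, hpv'⟩ := hp'
    obtain ⟨-, i, r, hr1, hr2, hr3⟩ := hHK p hpH p' hpH' hne
    rw [p.2.1] at hr1
    rw [p'.2.1] at hr2
    rw [p.2.2, p'.2.2] at hr3
    by_cases hrk : k ≤ r
    · have e1 := hkk p hpH r (by rw [hpk]; exact hrk) i hr1
      have e2 := hkk p' hpH' r (by rw [hpk']; exact hrk) i hr2
      have e3 : |F (push (br p.1.1) p.1.2.2.1) r - F (push (br p'.1.1) p'.1.2.2.1) r| ≤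
          (t i + 2) * ε + (t i + 2) * ε := by
        have := abs_sub_le (F (push (br p.1.1) p.1.2.2.1) r) (F h r)
          (F (push (br p'.1.1) p'.1.2.2.1) r)
        rw [abs_sub_comm] at e1
        linarith
      have e4 : 2 * ((t i : ℝ) + 2) * ε = (t i + 2) * ε + (t i + 2) * ε := by ring
      linarith
    · push Not at hrk
      have e1 : ⌊F (push (br p.1.1) p.1.2.2.1) r / ε⌋ =
          ⌊F (push (br p'.1.1) p'.1.2.2.1) r / ε⌋ := by
        have := congrFun (hpv.trans hpv'.symm) ⟨r, hrk⟩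
        simpa using this
      have e2 := abs_sub_le_of_floor_eq hε e1
      have e3 : (0 : ℝ) ≤ t i := by positivity
      nlinarith
  · -- the cover
    let ζ : (ℕ → Bool) × Phi × Phi → Z1 F := fun p =>
      ⟨(p.1, p.2.1, p.2.2, F (push (br p.1) p.2.1), F (push (br p.1) p.2.2)), rfl, rfl⟩
    refine ⟨fun n => {p | ζ p ∈ S n}, fun p => hS1 (ζ p), ?_⟩
    intro n p hp p' hp' hne hcoh i r hr1 hr2
    by_contra hcon
    push Not at hcon
    refine hS2 n (ζ p) hp (ζ p') hp' ?_ ⟨⟨hne, hcoh⟩, i, r, hr1, hr2, hcon⟩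
    intro h
    apply hne
    have := congrArg (fun z : Z1 F => z.1.1) h
    exact this

end Pool.Agent.LC
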