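import Pool.Agent.LC.Basic

open Filter Topology Set

namespace Pool.Agent.LC

/-- The underlying space for the second application of OCA. -/
abbrev Sp2 (F : Phi → ℕ → ℝ) : Type :=
  ({p | p.2.2 = F (push (br p.1) p.2.1)} : Set ((ℕ → Bool) × Phi × (ℕ → ℝ)))

/-- The colouring for the second application of OCA. -/
def K2 (F : Phi → ℕ → ℝ) (m ε : ℝ) (s C : ℕ) (O : ℕ → ℤ → Set Phi) :
    Set (Sp2 F × Sp2 F) :=
  {w | (w.1.1.1 ≠ w.2.1.1 ∧ ∀ l, br w.1.1.1 l = br w.2.1.1 l → w.1.1.2.1 l = w.2.1.2.1 l) ∧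
    ∃ r v, (m - s * ε < |w.1.1.2.2 r| ∨ m - s * ε < |w.2.1.2.2 r|) ∧
      push (br w.1.1.1) w.1.1.2.1 ∈ O r v ∧ push (br w.2.1.1) w.2.1.2.1 ∈ O r v ∧
      2 * C * ε < |w.1.1.2.2 r - w.2.1.2.2 r|}

theorem isOpen_K2 (F : Phi → ℕ → ℝ) (m ε : ℝ) (s C : ℕ) (O : ℕ → ℤ → Set Phi)
    (hO : ∀ r v, IsOpen (O r v)) : IsOpen (K2 F m ε s C O) := by
  have c1 : Continuous (fun w : Sp2 F × Sp2 F => w.1.1) := continuous_subtype_val.comp continuous_fst
  have c2 : Continuous (fun w : Sp2 F × Sp2 F => w.2.1) := continuous_subtype_val.comp continuous_snd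
  have a1 : Continuous (fun w : Sp2 F × Sp2 F => ((w.1.1.1, w.1.1.2.1) : (ℕ → Bool) × Phi)) :=
    (continuous_fst.comp c1).prodMk (continuous_fst.comp (continuous_snd.comp c1))
  have a2 : Continuous (fun w : Sp2 F × Sp2 F => ((w.2.1.1, w.2.1.2.1) : (ℕ → Bool) × Phi)) :=
    (continuous_fst.comp c2).prodMk (continuous_fst.comp (continuous_snd.comp c2))
  have y1 : ∀ r, Continuous (fun w : Sp2 F × Sp2 F => w.1.1.2.2 r) := fun r =>
    (continuous_apply r).comp (continuous_snd.comp (continuous_snd.comp c1))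
  have y2 : ∀ r, Continuous (fun w : Sp2 F × Sp2 F => w.2.1.2.2 r) := fun r =>
    (continuous_apply r).comp (continuous_snd.comp (continuous_snd.comp c2))
  have h1 : IsOpen {w : Sp2 F × Sp2 F | w.1.1.1 ≠ w.2.1.1 ∧
      ∀ l, br w.1.1.1 l = br w.2.1.1 l → w.1.1.2.1 l = w.2.1.2.1 l} :=
    isOpen_coh.preimage (a1.prodMk a2)
  have h2 : IsOpen {w : Sp2 F × Sp2 F |
      ∃ r v, (m - s * ε < |w.1.1.2.2 r| ∨ m - s * ε < |w.2.1.2.2 r|) ∧
      push (br w.1.1.1) w.1.1.2.1 ∈ O r v ∧ push (br w.2.1.1) w.2.1.2.1 ∈ O r v ∧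
      2 * C * ε < |w.1.1.2.2 r - w.2.1.2.2 r|} := by
    simp only [Set.ofPred_exists]
    refine isOpen_iUnion fun r => isOpen_iUnion fun v => ?_
    refine IsOpen.inter ?_ (IsOpen.inter ?_ (IsOpen.inter ?_ ?_))
    · exact (isOpen_lt continuous_const (y1 r).abs).union (isOpen_lt continuous_const (y2 r).abs)
    · exact (hO r v).preimage (continuous_push_br.comp a1)
    · exact (hO r v).preimage (continuous_push_br.comp a2)
    · exact isOpen_lt continuous_const ((y1 r).sub (y2 r)).abs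
  exact h1.inter h2

theorem K2_symm (F : Phi → ℕ → ℝ) (m ε : ℝ) (s C : ℕ) (O : ℕ → ℤ → Set Phi) :
    ∀ x y, (x, y) ∈ K2 F m ε s C O → (y, x) ∈ K2 F m ε s C O := by
  rintro x y ⟨⟨h1, h2⟩, r, v, h3, h4, h5, h6⟩
  refine ⟨⟨fun h => h1 h.symm, fun l hl => (h2 l hl.symm).symm⟩, r, v, h3.symm, h5, h4, ?_⟩
  simpa [abs_sub_comm] using h6

/-- Second application of OCA: the cover. -/
theorem oca2_cover (hO : OCA) {F : Phi → ℕ → ℝ} {m ε K : ℝ} (hF : Sys F m ε K) (hε : 0 < ε)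
    (s t C : ℕ) (hs : 2 * s + 2 ≤ t) (hC : 1 ≤ C) (O : List (Fin 3) → ℕ → ℤ → Set Phi)
    (hD : Desc F m ε t C O) (q : List (Fin 3)) :
    ∃ S : ℕ → Set ((ℕ → Bool) × Phi), (∀ p, ∃ n, p ∈ S n) ∧
      ∀ n, ∀ p ∈ S n, ∀ p' ∈ S n, p.1 ≠ p'.1 →
        (∀ l, br p.1 l = br p'.1 l → p.2 l = p'.2 l) →
        ∀ r v, r ∈ X F m ε s (push (br p.1) p.2) →
          push (br p.1) p.2 ∈ O q r v → push (br p'.1) p'.2 ∈ O q r v →
          |F (push (br p.1) p.2) r - F (push (br p'.1) p'.2) r| ≤ 2 * C * ε := by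
  rcases hO (Sp2 F) (K2 F m ε s C (O q)) (isOpen_K2 F m ε s C (O q) (hD.isOpen q))
    (K2_symm F m ε s C (O q)) with ⟨Y, hY, hYK⟩ | ⟨S, hS, hSK⟩
  · exfalso
    obtain ⟨h, hh⟩ := amalgam (ι := Y) (fun i => i.1.1.1) (fun i => i.1.1.2.1) (by
      intro i i' n hn
      by_cases hii : (i : Sp2 F) = i'
      · rw [hii]
      · exact (hYK i i.2 i' i'.2 hii).1.2 n hn)
    have key : ∀ i : Y, ∃ k, ∀ r ≥ k,
        (r ∈ X F m ε s (push (br i.1.1.1) i.1.1.2.1) → r ∈ X F m ε t h) ∧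
        (r ∈ X F m ε t h → ∀ v : ℤ, push (br i.1.1.1) i.1.1.2.1 ∈ O q r v →
          |F (push (br i.1.1.1) i.1.1.2.1) r - v * ε| ≤ C * ε) := by
      intro i
      have e1 : res (range (br i.1.1.1)) h = push (br i.1.1.1) i.1.1.2.1 :=
        res_range_of_eq (br_injective _) h _ (hh i)
      have e2 := hF.X_up hε (range (br i.1.1.1)) h s
      rw [e1] at e2
      obtain ⟨k1, hk1⟩ := eventually_atTop.1 e2
      obtain ⟨k2, hk2⟩ := hD.correct h (push (br i.1.1.1) i.1.1.2.1) q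
      refine ⟨max k1 k2, fun r hr => ⟨fun hx => ?_, fun hx v hv => ?_⟩⟩
      · exact X_mono F hε.le hs h (hk1 r (le_trans (le_max_left _ _) hr) hx)
      · exact hk2 r (le_trans (le_max_right _ _) hr) hx v hv
    choose k hk using key
    let col : Y → (Σ k : ℕ, Fin k → ℤ) := fun i =>
      ⟨k i, fun r => ⌊F (push (br i.1.1.1) i.1.1.2.1) r / ε⌋⟩
    have hinj : ¬ Function.Injective col := by
      intro hc
      exact hY (hc.countable.to_set)
    simp only [Function.Injective, not_forall] at hinj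
    obtain ⟨i, i', hcol, hne⟩ := hinj
    have hne' : (i : Sp2 F) ≠ i' := fun hx => hne (Subtype.ext hx)
    obtain ⟨⟨hx, hcoh⟩, r, v, h3, h4, h5, h6⟩ := hYK i i.2 i' i'.2 hne'
    have e1 : (i : Sp2 F).1.2.2 r = F (push (br i.1.1.1) i.1.1.2.1) r := congrFun i.1.2 r
    have e2 : (i' : Sp2 F).1.2.2 r = F (push (br i'.1.1.1) i'.1.1.2.1) r := congrFun i'.1.2 r
    simp only at h3 h4 h5 h6
    rw [e1, e2] at h3 h6
    have hkk : k i = k i' := congrArg Sigma.fst hcol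
    by_cases hr : k i ≤ r
    · have hrh : r ∈ X F m ε t h := by
        rcases h3 with h3 | h3
        · exact (hk i r hr).1 h3
        · exact (hk i' r (hkk ▸ hr)).1 h3
      have b1 := (hk i r hr).2 hrh v h4
      have b2 := (hk i' r (hkk ▸ hr)).2 hrh v h5
      have := abs_sub_le (F (push (br i.1.1.1) i.1.1.2.1) r) (v * ε)
        (F (push (br i'.1.1.1) i'.1.1.2.1) r)
      rw [abs_sub_comm (v * ε)] at this
      linarith
    · have hfl : ⌊F (push (br i.1.1.1) i.1.1.2.1) r / ε⌋ =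
          ⌊F (push (br i'.1.1.1) i'.1.1.2.1) r / ε⌋ := by
        have hgen : ∀ a b : (Σ k : ℕ, Fin k → ℤ), a = b → ∀ (h1 : r < a.1) (h2 : r < b.1),
            a.2 ⟨r, h1⟩ = b.2 ⟨r, h2⟩ := by
          rintro a b rfl h1 h2
          rfl
        exact hgen _ _ hcol (not_le.1 hr) (lt_of_lt_of_eq (not_le.1 hr) hkk)
      have h7 := Int.abs_sub_lt_one_of_floor_eq_floor hfl
      rw [← sub_div, abs_div, abs_of_pos hε, div_lt_one hε] at h7
      have : (1 : ℝ) ≤ C := by exact_mod_cast hC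
      nlinarith
  · refine ⟨fun n => {p | (⟨(p.1, p.2, F (push (br p.1) p.2)), rfl⟩ : Sp2 F) ∈ S n},
      fun p => hS _, ?_⟩
    intro n p hp p' hp' hne hcoh r v hr h4 h5
    by_contra hcon
    refine hSK n _ hp _ hp' ?_ ⟨⟨hne, hcoh⟩, r, v, Or.inl hr, h4, h5, not_le.1 hcon⟩
    intro hx
    exact hne (congrArg (fun w : Sp2 F => w.1.1) hx)

end Pool.Agent.LC
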