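import Pool.Agent.LC.Pattern

open Filter Topology Set

namespace Pool.Agent.LC

/-- A Baire measurable set which is not residual misses almost all points of some open set. -/
theorem exists_open_of_not_residual {G : Set Phi} (hG : BaireMeasurableSet G)
    (hn : ¬ ∀ᶠ g in residual Phi, g ∈ G) :
    ∃ W : Set Phi, IsOpen W ∧ W.Nonempty ∧ ∀ᶠ g in residual Phi, g ∈ W → g ∉ G := by
  obtain ⟨W, hWo, hW⟩ := (hG.compl).residualEq_isOpen
  have hiff : ∀ᶠ g in residual Phi, (g ∈ Gᶜ ↔ g ∈ W) := by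
    filter_upwards [hW] with g hg
    exact hg.to_iff
  refine ⟨W, hWo, ?_, ?_⟩
  · rw [nonempty_iff_ne_empty]
    rintro rfl
    refine hn ?_
    filter_upwards [hiff] with g hg
    by_contra hgG
    exact absurd (hg.1 hgG) (notMem_empty g)
  · filter_upwards [hiff] with g hg hgW
    exact hg.2 hgW

/-- Single-index lemma. -/
theorem single_index (Good : ℕ → Set ℕ → Phi → Phi → Prop)
    (hB : ∀ n R Z u b a, BaireMeasurableSet {g : Phi | Good n R (mix R b (mix Z g u)) a})
    (hT : ∀ (f : Phi) (R : ℕ → Set ℕ) (a : ℕ → Phi), (∀ n, (R n).Infinite) →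
      Pairwise (fun i i' => Disjoint (R i) (R i')) → (∀ n l, a n l ≠ 0 → l ∈ R n) →
      ∃ n, Good n (R n) f (a n)) :
    ∃ n R Z u, R.Infinite ∧ Z.Infinite ∧ Disjoint R Z ∧
      ∀ b a : Phi, (∀ l, a l ≠ 0 → l ∈ R) →
        ∀ᶠ g in residual Phi, Good n R (mix R b (mix Z g u)) a := by
  by_contra hcon
  -- the step
  have hstep : ∀ (n : ℕ) (s : {p : (ℕ → Set ℕ) × Phi // (∀ i, (p.1 i).Infinite) ∧
      Pairwise (fun i i' => Disjoint (p.1 i) (p.1 i'))}),
      ∃ (b a : Phi) (E : Set ℕ) (c : Phi), (∀ l, a l ≠ 0 → l ∈ s.1.1 0) ∧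
        (∀ i, (s.1.1 (i + 1) \ E).Infinite) ∧
        ∀ g, ¬ Good n (s.1.1 0)
          (mix (s.1.1 0) b (mix (⋃ i, s.1.1 (i + 1)) (mix E c g) s.1.2)) a := by
    rintro n ⟨⟨S, u⟩, hS, hdis⟩
    simp only at hS hdis ⊢
    have h1 : ∃ b a : Phi, (∀ l, a l ≠ 0 → l ∈ S 0) ∧
        ¬ ∀ᶠ g in residual Phi, Good n (S 0) (mix (S 0) b (mix (⋃ i, S (i + 1)) g u)) a := by
      by_contra h
      push Not at h
      refine hcon ⟨n, S 0, ⋃ i, S (i + 1), u, hS 0, ?_, ?_, fun b a ha => h b a ha⟩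
      · exact (hS 1).mono (subset_iUnion (fun i => S (i + 1)) 0)
      · rw [disjoint_iUnion_right]
        exact fun i => hdis (by omega)
    obtain ⟨b, a, ha, hba⟩ := h1
    obtain ⟨W, hWo, hWne, hW⟩ := exists_open_of_not_residual (hB n (S 0) (⋃ i, S (i + 1)) u b a) hba
    obtain ⟨E, c, hE, hg⟩ := pattern
      {g : Phi | ¬ Good n (S 0) (mix (S 0) b (mix (⋃ i, S (i + 1)) g u)) a} W hWo hWne hW
      (fun i => S (i + 1)) (fun i => hS (i + 1))
    exact ⟨b, a, E, c, ha, hE, hg⟩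
  choose b a E c ha hE hbad using hstep
  let nx : ∀ (n : ℕ) (s : {p : (ℕ → Set ℕ) × Phi // (∀ i, (p.1 i).Infinite) ∧
      Pairwise (fun i i' => Disjoint (p.1 i) (p.1 i'))}),
      {p : (ℕ → Set ℕ) × Phi // (∀ i, (p.1 i).Infinite) ∧
      Pairwise (fun i i' => Disjoint (p.1 i) (p.1 i'))} := fun n s =>
    ⟨(fun i => s.1.1 (i + 1) \ E n s,
      mix (s.1.1 0) (b n s) (mix ((⋃ i, s.1.1 (i + 1)) ∩ E n s) (c n s) s.1.2)),
      hE n s, fun i i' hii => (s.2.2 (by omega : i + 1 ≠ i' + 1)).mono sdiff_subset sdiff_subset⟩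
  let s0 : {p : (ℕ → Set ℕ) × Phi // (∀ i, (p.1 i).Infinite) ∧
      Pairwise (fun i i' => Disjoint (p.1 i) (p.1 i'))} :=
    ⟨(fun i => {l | (Nat.unpair l).1 = i}, fun _ => 0), by
      intro i
      refine Set.infinite_of_injective_forall_mem (f := fun k => Nat.pair i k) ?_ ?_
      · intro k k' hkk
        have := congrArg (fun t => (Nat.unpair t).2) hkk
        simpa using this
      · intro k
        simp, by
      intro i i' hii
      rw [Set.disjoint_left]
      intro l hl hl'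
      exact hii (hl.symm.trans hl')⟩
  let st : ℕ → {p : (ℕ → Set ℕ) × Phi // (∀ i, (p.1 i).Infinite) ∧
      Pairwise (fun i i' => Disjoint (p.1 i) (p.1 i'))} := fun n => Nat.rec s0 (fun j s => nx j s) n
  have stS : ∀ j, st (j + 1) = nx j (st j) := fun j => rfl
  -- the undetermined coordinates
  let F : ℕ → Set ℕ := fun n => ⋃ i, (st n).1.1 i
  have hsub : ∀ n i, (st (n + 1)).1.1 i ⊆ (st n).1.1 (i + 1) := by
    intro n i
    rw [stS]
    exact sdiff_subset
  have hsub' : ∀ k n i, (st (n + k)).1.1 i ⊆ (st n).1.1 (i + k) := by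
    intro k
    induction k with
    | zero => exact fun n i => Subset.rfl
    | succ k ih =>
      intro n i
      have h1 := hsub (n + k) i
      have h2 := ih n (i + 1)
      rw [← add_assoc]
      refine (h1.trans h2).trans ?_
      rw [show i + 1 + k = i + (k + 1) by omega]
  have hFanti : ∀ k n, F (n + k) ⊆ F n := by
    intro k n l hl
    obtain ⟨i, hi⟩ := mem_iUnion.1 hl
    exact mem_iUnion.2 ⟨_, hsub' k n i hi⟩
  have hF0 : ∀ k n l, l ∈ (st n).1.1 0 → l ∉ F (n + 1 + k) := by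
    intro k n l hl hF
    obtain ⟨i, hi⟩ := mem_iUnion.1 (hFanti k (n + 1) hF)
    have h1 := hsub n i hi
    exact Set.disjoint_left.1 ((st n).2.2 (by omega : 0 ≠ i + 1)) hl h1
  have hFout : ∀ l, ∃ n, l ∉ F n := by
    intro l
    by_cases h : l ∈ F 0
    · obtain ⟨i, hi⟩ := mem_iUnion.1 h
      refine ⟨0 + (i + 1), fun hF => ?_⟩
      obtain ⟨k, hk⟩ := mem_iUnion.1 hF
      have h1 := hsub' (i + 1) 0 k hk
      exact Set.disjoint_left.1 ((st 0).2.2 (by omega : i ≠ k + (i + 1))) hi h1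
    · exact ⟨0, h⟩
  -- stability
  have hst1 : ∀ n l, l ∉ F n → (st (n + 1)).1.2 l = (st n).1.2 l := by
    intro n l hl
    rw [stS]
    have h0 : l ∉ (st n).1.1 0 := fun h => hl (mem_iUnion.2 ⟨0, h⟩)
    have h1 : l ∉ (⋃ i, (st n).1.1 (i + 1)) ∩ E n (st n) := by
      rintro ⟨h, _⟩
      obtain ⟨i, hi⟩ := mem_iUnion.1 h
      exact hl (mem_iUnion.2 ⟨_, hi⟩)
    simp only [nx, mix]
    rw [if_neg h0, if_neg h1]
  have hst2 : ∀ k n l, l ∉ F n → (st (n + k)).1.2 l = (st n).1.2 l := by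
    intro k
    induction k with
    | zero => exact fun n l _ => rfl
    | succ k ih =>
      intro n l hl
      rw [← add_assoc, hst1 (n + k) l (fun h => hl (hFanti k n h)), ih n l hl]
  choose t ht using hFout
  let f : Phi := fun l => (st (t l)).1.2 l
  have hf : ∀ n l, l ∉ F n → f l = (st n).1.2 l := by
    intro n l hl
    rcases le_total n (t l) with h | h
    · obtain ⟨d, hd⟩ := Nat.exists_eq_add_of_le h
      simp only [f]
      rw [hd]
      exact hst2 d n l hl
    · obtain ⟨d, hd⟩ := Nat.exists_eq_add_of_le h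
      rw [hd]
      exact (hst2 d (t l) l (ht l)).symm
  have hfeq : ∀ n, mix ((st n).1.1 0) (b n (st n)) (mix (⋃ i, (st n).1.1 (i + 1))
      (mix (E n (st n)) (c n (st n)) f) (st n).1.2) = f := by
    intro n
    funext l
    by_cases h0 : l ∈ (st n).1.1 0
    · have h1 : f l = (st (n + 1)).1.2 l := hf (n + 1) l (hF0 0 n l h0)
      rw [h1, stS]
      simp only [nx, mix]
      rw [if_pos h0, if_pos h0]
    · by_cases hZ : l ∈ ⋃ i, (st n).1.1 (i + 1)
      · by_cases hlE : l ∈ E n (st n)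
        · have hF1 : l ∉ F (n + 1) := by
            intro hl
            obtain ⟨i, hi⟩ := mem_iUnion.1 hl
            rw [stS] at hi
            exact hi.2 hlE
          rw [hf (n + 1) l hF1, stS]
          simp only [nx, mix]
          rw [if_neg h0, if_neg h0, if_pos hZ, if_pos hlE, if_pos ⟨hZ, hlE⟩]
        · simp only [mix]
          rw [if_neg h0, if_pos hZ, if_neg hlE]
      · have hF1 : l ∉ F n := by
          intro hl
          obtain ⟨i, hi⟩ := mem_iUnion.1 hl
          rcases i with _ | i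
          · exact h0 hi
          · exact hZ (mem_iUnion.2 ⟨i, hi⟩)
        rw [hf n l hF1]
        simp only [mix]
        rw [if_neg h0, if_neg hZ]
  obtain ⟨n, hn⟩ := hT f (fun n => (st n).1.1 0) (fun n => a n (st n)) (fun n => (st n).2.1 0)
    (by
      have aux : ∀ n k l, l ∈ (st n).1.1 0 → l ∈ (st (n + 1 + k)).1.1 0 → False := by
        intro n k l h1 h2
        exact hF0 k n l h1 (mem_iUnion.2 ⟨0, h2⟩)
      intro i i' hii
      rw [Set.disjoint_left]
      intro l hl hl'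
      rcases lt_or_gt_of_ne hii with h | h
      · obtain ⟨d, rfl⟩ := Nat.exists_eq_add_of_lt h
        exact aux i d l hl (by rwa [show i + 1 + d = i + d + 1 by omega])
      · obtain ⟨d, rfl⟩ := Nat.exists_eq_add_of_lt h
        exact aux i' d l hl' (by rwa [show i' + 1 + d = i' + d + 1 by omega]))
    (fun n => ha n (st n))
  have := hbad n (st n) f
  rw [hfeq n] at this
  exact this hn

end Pool.Agent.LC
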