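import Pool.Agent.LC.Final

/-!
The Banach space of bounded real sequences, the subspace of null sequences and the quotient,
with short names, and the final theorem in terms of them.
-/

open Filter Topology Set

namespace Pool.Agent.LC

/-- The Banach space of bounded real sequences with the supremum norm. -/
def LInfty : Type := lp (fun _ : ℕ => ℝ) ⊤

noncomputable instance instNormedAddCommGroupLInfty : NormedAddCommGroup LInfty :=
  lp.normedAddCommGroup (E := fun _ : ℕ => ℝ) (p := ⊤)

noncomputable instance instNormedSpaceLInfty : NormedSpace ℝ LInfty :=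
  lp.instNormedSpace (𝕜 := ℝ) (E := fun _ : ℕ => ℝ) (p := ⊤)

/-- The `n`-th term of a bounded sequence. -/
def LInfty.term (f : LInfty) (n : ℕ) : ℝ := (show lp (fun _ : ℕ => ℝ) ⊤ from f) n

theorem LInfty.add_null {f g : LInfty} (hf : Tendsto f.term atTop (𝓝 0))
    (hg : Tendsto g.term atTop (𝓝 0)) : Tendsto (f + g).term atTop (𝓝 0) := by
  have := hf.add hg
  rw [add_zero] at this
  exact this

theorem LInfty.zero_null : Tendsto (0 : LInfty).term atTop (𝓝 0) := tendsto_const_nhds

theorem LInfty.smul_null (c : ℝ) {f : LInfty} (hf : Tendsto f.term atTop (𝓝 0)) :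
    Tendsto (c • f).term atTop (𝓝 0) := by
  have := hf.const_mul c
  rw [mul_zero] at this
  exact this

/-- The subspace of sequences tending to zero. -/
def CNull : Submodule ℝ LInfty where
  carrier := {f | Tendsto f.term atTop (𝓝 0)}
  add_mem' := LInfty.add_null
  zero_mem' := LInfty.zero_null
  smul_mem' := LInfty.smul_null

/-- The quotient of the bounded sequences by the null sequences. -/
def Quo : Type := LInfty ⧸ CNull

noncomputable instance instSeminormedAddCommGroupQuo : SeminormedAddCommGroup Quo :=
  Submodule.Quotient.seminormedAddCommGroup CNull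

noncomputable instance instNormedSpaceQuo : NormedSpace ℝ Quo :=
  Submodule.Quotient.normedSpace CNull ℝ

/-- The class of a bounded sequence. -/
noncomputable def Quo.mk (f : LInfty) : Quo := (Submodule.Quotient.mk f : LInfty ⧸ CNull)

/-- `T` is somewhere trivial: there are infinite sets `A`, `B`, a bijection `σ` of `B` onto `A`
and a real `c ≠ 0` such that for every bounded `f` supported in `A` and every `g` with
`T [f] = [g]` one has `g b - c * f (σ b) → 0` along `B`. -/
def SomewhereTriv (T : Quo → Quo) : Prop :=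
  ∃ (A B : Set ℕ), A.Infinite ∧ B.Infinite ∧ ∃ (σ : B ≃ A) (c : ℝ), c ≠ 0 ∧
    ∀ f : LInfty, (∀ n, n ∉ A → f.term n = 0) → ∀ g : LInfty, T (Quo.mk f) = Quo.mk g →
      Tendsto (fun b : B => g.term b - c * f.term (σ b)) cofinite (𝓝 0)

theorem main_quo (hO : OCA) (T : Quo ≃L[ℝ] Quo) : SomewhereTriv T := by
  let T' : Q ≃L[ℝ] Q := T
  exact main hO T'

theorem main_quo_embedding (hO : OCA) (T : Quo →L[ℝ] Quo) {δ : ℝ} (hδ : 0 < δ)
    (hT : ∀ x, δ * ‖x‖ ≤ ‖T x‖) : SomewhereTriv T := by
  let T' : Q →L[ℝ] Q := T
  exact somewhere_trivial_of_bounded_below hO T' hδ hT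

end Pool.Agent.LC
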