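import Pool.Agent.LC.Defs

open Filter Topology Set

namespace Pool.Agent.LC

theorem ev_small {u : ℕ → ℝ} (h : Tendsto u atTop (𝓝 0)) {η : ℝ} (hη : 0 < η) :
    ∀ᶠ k in atTop, |u k| < η := by
  have := h.abs
  rw [abs_zero] at this
  exact this.eventually (gt_mem_nhds hη)

/-- A function `e` which is almost norming for all restrictions on an infinite set `B`. -/
theorem z_norming {S : (ℕ → ℝ) → ℕ → ℝ} {K : ℝ} (hS : Lift S K) (hK : 0 < K) (B0 : Set ℕ)
    (hB0 : B0.Infinite) (δ : ℝ) (hδ : 0 < δ) :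
    ∃ e : ℕ → ℝ, (∀ n, |e n| ≤ 1) ∧ ∃ B ⊆ B0, B.Infinite ∧
      ∀ (C : Set ℕ) (f : ℕ → ℝ), (∀ n, |f n| ≤ 1) → (∀ n, f n ≠ 0 → n ∈ C) →
        ∀ᶠ k in atTop, k ∈ B → |S f k| ≤ |S (C.indicator e) k| + δ := by
  classical
  let A : Set ℕ → ℝ → Prop := fun B c => ∀ f : ℕ → ℝ, (∀ n, |f n| ≤ 1) →
    ∀ᶠ k in atTop, k ∈ B → |S f k| ≤ c
  let P : Set ℝ := {c | ∃ B ⊆ B0, B.Infinite ∧ A B c}
  have hPne : P.Nonempty := ⟨K, B0, subset_rfl, hB0, fun f hf => by
    filter_upwards with k _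
    have := hS.bdd f 1 one_pos hf k
    linarith⟩
  have hPb : BddBelow P := by
    refine ⟨0, ?_⟩
    rintro c ⟨B, _, hB, hA⟩
    have h1 := hA (fun _ => 0) (by simp)
    have h2 : ∃ᶠ k in atTop, k ∈ B := Nat.frequently_atTop_iff_infinite.2 hB
    obtain ⟨k, hk1, hk2⟩ := (h2.and_eventually h1).exists
    exact le_trans (abs_nonneg _) (hk2 hk1)
  obtain ⟨c1, ⟨B1, hB1, hB1i, hA1⟩, hc1⟩ := exists_lt_of_csInf_lt hPne
    (show sInf P < sInf P + δ / 4 by linarith)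
  have hnot : ¬ A B1 (sInf P - δ / 4) := by
    intro hA
    have := csInf_le hPb (show sInf P - δ / 4 ∈ P from ⟨B1, hB1, hB1i, hA⟩)
    linarith
  simp only [A, not_forall, not_eventually] at hnot
  obtain ⟨e, he, hfr⟩ := hnot
  refine ⟨e, he, {k | k ∈ B1 ∧ sInf P - δ / 4 < |S e k|}, fun k hk => hB1 hk.1, ?_, ?_⟩
  · rw [← Nat.frequently_atTop_iff_infinite]
    refine hfr.mono fun k hk => ?_
    simp only [exists_prop, not_le] at hk
    exact hk
  · intro C f hf hfC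
    set e1 : ℕ → ℝ := C.indicator e with he1
    set e2 : ℕ → ℝ := Cᶜ.indicator e with he2
    have he2b : ∀ n, |e2 n| ≤ 1 := by
      intro n
      by_cases hn : n ∈ Cᶜ
      · simpa [he2, Set.indicator_of_mem hn] using he n
      · simp [he2, Set.indicator_of_notMem hn]
    have he1b : ∀ n, |e1 n| ≤ 1 := by
      intro n
      by_cases hn : n ∈ C
      · simpa [he1, Set.indicator_of_mem hn] using he n
      · simp [he1, Set.indicator_of_notMem hn]
    have hdis : ∀ n, f n = 0 ∨ e2 n = 0 := by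
      intro n
      by_cases hn : n ∈ C
      · right
        simp [he2, hn]
      · left
        by_contra h0
        exact hn (hfC n h0)
    have hp : ∀ n, |(f + e2) n| ≤ 1 := by
      intro n
      rcases hdis n with h | h
      · simpa [h] using he2b n
      · simpa [h] using hf n
    have hm : ∀ n, |(f + (-1 : ℝ) • e2) n| ≤ 1 := by
      intro n
      rcases hdis n with h | h
      · simpa [h] using he2b n
      · simpa [h] using hf n
    have hes : e = e1 + e2 := by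
      simp [he1, he2]
    have hη : 0 < δ / 16 := by linarith
    have hm2 : ∀ n, |((-1 : ℝ) • e2) n| ≤ 1 := by
      intro n
      simpa using he2b n
    filter_upwards [hA1 _ hp, hA1 _ hm, ev_small (hS.add f e2 ⟨1, hf⟩ ⟨1, he2b⟩) hη,
      ev_small (hS.add f ((-1 : ℝ) • e2) ⟨1, hf⟩ ⟨1, hm2⟩) hη,
      ev_small (hS.smul (-1) e2 ⟨1, he2b⟩) hη,
      ev_small (hS.add e1 e2 ⟨1, he1b⟩ ⟨1, he2b⟩) hη] with k h1 h2 h3 h4 h5 h6 hk
    rw [← hes] at h6
    have h1' := h1 hk.1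
    have h2' := h2 hk.1
    have h7 := hk.2
    rw [abs_lt] at h3 h4 h5 h6
    rw [abs_le] at h1' h2'
    rcases abs_cases (S f k) with ⟨ha, _⟩ | ⟨ha, _⟩ <;>
    rcases abs_cases (S e k) with ⟨hb, _⟩ | ⟨hb, _⟩ <;>
    rcases abs_cases (S e1 k) with ⟨hc, _⟩ | ⟨hc, _⟩ <;>
    · rw [ha, hc]
      rw [hb] at h7
      linarith [h3.1, h3.2, h4.1, h4.2, h5.1, h5.2, h6.1, h6.2, h1'.1, h1'.2, h2'.1, h2'.2]

end Pool.Agent.LC
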