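import Pool.Agent.LC.StepZA

open Filter Topology Set

namespace Pool.Agent.LC

private theorem zb_add {S : (ℕ → ℝ) → ℕ → ℝ} {K : ℝ} (hS : Lift S K) {f g : ℕ → ℝ}
    (hf : Bdd f) (hg : Bdd g) {η : ℝ} (hη : 0 < η) :
    ∀ᶠ k in atTop, |S (f + g) k - S f k - S g k| < η := by
  have h := Metric.tendsto_nhds.1 (hS.add f g hf hg) η hη
  filter_upwards [h] with k hk
  simpa [Real.dist_eq] using hk

private theorem zb_smul {S : (ℕ → ℝ) → ℕ → ℝ} {K : ℝ} (hS : Lift S K) {f : ℕ → ℝ}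
    (hf : Bdd f) (c : ℝ) {η : ℝ} (hη : 0 < η) :
    ∀ᶠ k in atTop, |S (c • f) k - c * S f k| < η := by
  have h := Metric.tendsto_nhds.1 (hS.smul c f hf) η hη
  filter_upwards [h] with k hk
  simpa [Real.dist_eq] using hk

private theorem zb_sub {S : (ℕ → ℝ) → ℕ → ℝ} {K : ℝ} (hS : Lift S K) {f g : ℕ → ℝ}
    (hf : Bdd f) (hg : Bdd g) {η : ℝ} (hη : 0 < η) :
    ∀ᶠ k in atTop, |S (f - g) k - S f k + S g k| < η := by
  have hη2 : 0 < η / 2 := by positivity
  have hg' : Bdd ((-1 : ℝ) • g) := by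
    obtain ⟨M, hM⟩ := hg
    exact ⟨M, fun n => by simpa using hM n⟩
  have e : f - g = f + (-1 : ℝ) • g := by
    funext n; simp [sub_eq_add_neg]
  filter_upwards [zb_add hS hf hg' hη2, zb_smul hS hg (-1) hη2] with k h1 h2
  rw [e]
  rw [abs_lt] at h1 h2 ⊢
  constructor <;> linarith [h1.1, h1.2, h2.1, h2.2]

private theorem zb_bdd1 {f : ℕ → ℝ} (hf : ∀ n, |f n| ≤ 1) : Bdd f := ⟨1, hf⟩

private theorem zb_ind {e : ℕ → ℝ} (he : ∀ n, |e n| ≤ 1) (A : Set ℕ) (n : ℕ) :
    |A.indicator e n| ≤ 1 := by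
  by_cases h : n ∈ A
  · simpa [h] using he n
  · simp [h]

private theorem zb_ind_supp {e : ℕ → ℝ} (A : Set ℕ) (n : ℕ) (h : A.indicator e n ≠ 0) :
    n ∈ A := by
  by_contra hn
  exact h (by simp [hn])

/-- Almost vanishing off the diagonal. -/
theorem z_offdiag {S : (ℕ → ℝ) → ℕ → ℝ} {K : ℝ} (hS : Lift S K) (hK : 0 < K)
    (B0 : Set ℕ) (hB0 : B0.Infinite) (δ : ℝ) (hδ : 0 < δ) :
    ∃ B ⊆ B0, B.Infinite ∧
      ∀ (D : Set ℕ) (f : ℕ → ℝ), D ⊆ B → (∀ n, |f n| ≤ 1) → (∀ n, f n ≠ 0 → n ∈ D) →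
        ∀ᶠ k in atTop, k ∈ B \ D → |S f k| ≤ δ := by
  obtain ⟨d, hd0, hd⟩ : ∃ d : ℝ, 0 < d ∧ 7 * d = δ := ⟨δ / 7, by positivity, by ring⟩
  obtain ⟨e, he, B1, hB1, hB1i, hN⟩ := z_norming hS hK B0 hB0 d hd0
  let T : Set ℝ := {c | ∃ B' ⊆ B1, B'.Infinite ∧
    ∀ᶠ k in atTop, k ∈ B' → |S (B'.indicator e) k| ≤ c}
  have hT0 : ∀ c ∈ T, 0 ≤ c := by
    rintro c ⟨B', -, hB'i, hB'⟩
    obtain ⟨k, hk, hk'⟩ := ((Nat.frequently_atTop_iff_infinite.2 hB'i).and_eventually hB').exists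
    exact (abs_nonneg _).trans (hk' hk)
  have hTne : T.Nonempty := ⟨K * 1, B1, subset_rfl, hB1i,
    Eventually.of_forall fun k _ => hS.bdd _ 1 one_pos (zb_ind he B1) k⟩
  have hTb : BddBelow T := ⟨0, fun c hc => hT0 c hc⟩
  obtain ⟨c, ⟨B, hB, hBi, hBc⟩, hc⟩ := exists_lt_of_csInf_lt hTne
    (lt_add_of_pos_right (sInf T) hd0)
  refine ⟨B, hB.trans hB1, hBi, ?_⟩
  intro D f hD hf hfD
  by_cases hfin : (B \ D).Infinite
  swap
  · rw [Set.not_infinite] at hfin
    have h := hfin.compl_mem_cofinite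
    rw [Nat.cofinite_eq_atTop] at h
    filter_upwards [h] with k hk hk'
    exact absurd hk' hk
  -- the two pieces
  have hball : ∀ g : ℕ → ℝ, (∀ n, |g n| ≤ 1) → (∀ n, g n ≠ 0 → n ∈ B) →
      ∀ᶠ k in atTop, k ∈ B → |S g k| ≤ sInf T + 2 * d := by
    intro g hg hgB
    filter_upwards [hN B g hg hgB, hBc] with k h1 h2 hk
    have := h1 (hB hk)
    have := h2 hk
    linarith
  have hb1 : Bdd ((B \ D).indicator e) := zb_bdd1 (zb_ind he _)
  have hb2 : Bdd (D.indicator e) := zb_bdd1 (zb_ind he _)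
  have hsum : ∀ᶠ k in atTop, k ∈ B →
      |S ((B \ D).indicator e) k| + |S (D.indicator e) k| ≤ sInf T + 3 * d := by
    have hp : ∀ᶠ k in atTop, k ∈ B →
        |S ((B \ D).indicator e + D.indicator e) k| ≤ sInf T + 2 * d := by
      apply hball
      · intro n
        by_cases h1 : n ∈ D
        · simpa [h1] using he n
        · by_cases h2 : n ∈ B
          · simpa [h1, h2] using he n
          · simp [h1, h2]
      · intro n hn
        by_contra hnB
        have : n ∉ D := fun h => hnB (hD h)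
        exact hn (by simp [hnB, this])
    have hm : ∀ᶠ k in atTop, k ∈ B →
        |S ((B \ D).indicator e - D.indicator e) k| ≤ sInf T + 2 * d := by
      apply hball
      · intro n
        by_cases h1 : n ∈ D
        · simpa [h1] using he n
        · by_cases h2 : n ∈ B
          · simpa [h1, h2] using he n
          · simp [h1, h2]
      · intro n hn
        by_contra hnB
        have : n ∉ D := fun h => hnB (hD h)
        exact hn (by simp [hnB, this])
    filter_upwards [hp, hm, zb_add hS hb1 hb2 hd0, zb_sub hS hb1 hb2 hd0] with k h1 h2 h3 h4 hk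
    have h1' := abs_le.1 (h1 hk)
    have h2' := abs_le.1 (h2 hk)
    have h3' := abs_lt.1 h3
    have h4' := abs_lt.1 h4
    rcases abs_cases (S ((B \ D).indicator e) k) with ⟨ha, _⟩ | ⟨ha, _⟩ <;>
    rcases abs_cases (S (D.indicator e) k) with ⟨hb, _⟩ | ⟨hb, _⟩ <;>
    rw [ha, hb] <;> linarith [h1'.1, h1'.2, h2'.1, h2'.2, h3'.1, h3'.2, h4'.1, h4'.2]
  have hlow : ∀ᶠ k in atTop, k ∈ B \ D → sInf T - 3 * d ≤ |S ((B \ D).indicator e) k| := by
    by_contra hcon
    have hfr : ∃ᶠ k in atTop, k ∈ {k | k ∈ B \ D ∧ |S ((B \ D).indicator e) k| < sInf T - 3 * d} := by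
      refine (not_eventually.1 hcon).mono ?_
      intro k hk
      push Not at hk
      exact hk
    have hinf : {k | k ∈ B \ D ∧ |S ((B \ D).indicator e) k| < sInf T - 3 * d}.Infinite :=
      Nat.frequently_atTop_iff_infinite.1 hfr
    set D' := {k | k ∈ B \ D ∧ |S ((B \ D).indicator e) k| < sInf T - 3 * d} with hD'
    have hmem : sInf T - 2 * d ∈ T := by
      refine ⟨D', fun k hk => hB hk.1.1, hinf, ?_⟩
      filter_upwards [hN (B \ D) (D'.indicator e) (zb_ind he _)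
        (fun n hn => (zb_ind_supp _ n hn).1)] with k h1 hk
      have h2 := h1 (hB hk.1.1)
      have h3 := hk.2
      linarith
    have := csInf_le hTb hmem
    linarith
  filter_upwards [hsum, hlow, hN D f hf hfD] with k h1 h2 h3 hk
  have h1' := h1 hk.1
  have h2' := h2 hk
  have h3' := h3 (hB hk.1)
  linarith

theorem z_near {S : (ℕ → ℝ) → ℕ → ℝ} {K : ℝ} (hS : Lift S K) (hK : 0 < K) (κ : ℝ)
    (hat : ∀ R : Set ℕ, ∀ᶠ k in atTop, k ∈ R → κ ≤ S (R.indicator 1) k)
    (B0 : Set ℕ) (hB0 : B0.Infinite) (δ : ℝ) (hδ : 0 < δ) :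
    ∃ B ⊆ B0, B.Infinite ∧ ∃ c ≥ κ, ∀ f : ℕ → ℝ, (∀ n, |f n| ≤ 1) → (∀ n, f n ≠ 0 → n ∈ B) →
        ∀ᶠ k in atTop, k ∈ B → |S f k - c * f k| ≤ δ := by
  obtain ⟨d, hd0, hd⟩ : ∃ d : ℝ, 0 < d ∧ 10 * d = δ := ⟨δ / 10, by positivity, by ring⟩
  obtain ⟨B1, hB1, hB1i, hO⟩ := z_offdiag hS hK B0 hB0 d hd0
  have hone : ∀ A : Set ℕ, ∀ n, |A.indicator (1 : ℕ → ℝ) n| ≤ 1 := fun A n =>
    zb_ind (e := 1) (fun n => by simp) A n
  have hφ : ∀ k, |S (B1.indicator 1) k| ≤ K := fun k => by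
    have := hS.bdd _ 1 one_pos (hone B1) k
    simpa using this
  -- pigeonhole: an interval of length d
  obtain ⟨j, hj⟩ : ∃ j : ℤ, {k | k ∈ B1 ∧ ⌊S (B1.indicator 1) k / d⌋ = j}.Infinite := by
    by_contra hcon
    push Not at hcon
    refine hB1i (((Set.finite_Icc (⌊-K / d⌋) (⌊K / d⌋)).biUnion
      (fun j _ => hcon j)).subset ?_)
    intro k hk
    have := abs_le.1 (hφ k)
    simp only [Set.mem_iUnion]
    exact ⟨⌊S (B1.indicator 1) k / d⌋,
      ⟨Int.floor_le_floor (div_le_div_of_nonneg_right this.1 hd0.le),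
        Int.floor_le_floor (div_le_div_of_nonneg_right this.2 hd0.le)⟩, hk, rfl⟩
  set B := {k | k ∈ B1 ∧ ⌊S (B1.indicator 1) k / d⌋ = j} with hB
  have hBB1 : B ⊆ B1 := fun k hk => hk.1
  set c := max κ (j * d) with hc
  -- the value on the diagonal
  have hφc : ∀ᶠ k in atTop, k ∈ B → |S (B1.indicator 1) k - c| ≤ d := by
    filter_upwards [hat B1] with k h1 hk
    have h2 := h1 (hBB1 hk)
    have h3 := hk.2
    rw [Int.floor_eq_iff] at h3
    have h4 : (j : ℝ) * d ≤ S (B1.indicator 1) k := by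
      have := (le_div_iff₀ hd0).1 h3.1
      linarith
    have h5 : S (B1.indicator 1) k < (j + 1) * d := by
      have := (div_lt_iff₀ hd0).1 h3.2
      linarith
    rw [abs_le]
    rcases le_total κ (j * d) with h | h
    · rw [hc, max_eq_right h]
      constructor <;> linarith
    · rw [hc, max_eq_left h]
      constructor <;> linarith
  have hcK : |c| ≤ K + d := by
    obtain ⟨k, hk, hk'⟩ := ((Nat.frequently_atTop_iff_infinite.2 hj).and_eventually hφc).exists
    have h1 := abs_le.1 (hk' hk)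
    have h2 := abs_le.1 (hφ k)
    rw [abs_le]
    constructor <;> linarith [h1.1, h1.2, h2.1, h2.2]
  refine ⟨B, hBB1.trans hB1, hj, c, le_max_left _ _, ?_⟩
  intro f hf hfB
  -- discretisation
  obtain ⟨N, hN⟩ := exists_nat_gt ((K + d) / d)
  have hN0 : (0 : ℝ) < N := lt_trans (by positivity) hN
  have hKN : (K + d) * (1 / N) ≤ d := by
    rw [div_lt_iff₀ hd0] at hN
    rw [mul_one_div, div_le_iff₀ hN0]
    linarith
  have hpiece : ∀ l ∈ Set.Icc (-(N : ℤ)) N, ∀ᶠ k in atTop,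
      k ∈ B → ⌊f k * N⌋ = l → |S f k - c * f k| ≤ δ := by
    intro l hl
    set D : Set ℕ := {k | k ∈ B ∧ ⌊f k * N⌋ = l} with hD
    have hDB : D ⊆ B := fun k hk => hk.1
    set cl : ℝ := l / N with hcl
    have hclb : |cl| ≤ 1 := by
      rw [hcl, abs_div, Nat.abs_cast, div_le_one hN0]
      have h1 : |l| ≤ (N : ℤ) := abs_le.2 hl
      exact_mod_cast h1
    have hclose : ∀ k ∈ D, |f k - cl| ≤ 1 / N := by
      intro k hk
      have h3 := hk.2
      rw [Int.floor_eq_iff] at h3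
      have e1 : f k - cl = (f k * N - l) / N := by
        rw [hcl]; field_simp
      rw [e1, abs_div, Nat.abs_cast]
      apply div_le_div_of_nonneg_right _ hN0.le
      rw [abs_le]
      constructor <;> linarith [h3.1, h3.2]
    -- the functions
    have hfd : ∀ A : Set ℕ, ∀ n, |A.indicator f n| ≤ 1 := fun A => zb_ind hf A
    have hb1 : Bdd (D.indicator f) := zb_bdd1 (hfd _)
    have hb2 : Bdd ((B \ D).indicator f) := zb_bdd1 (hfd _)
    have hb3 : Bdd (D.indicator (1 : ℕ → ℝ)) := zb_bdd1 (hone _)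
    have hb4 : Bdd (cl • D.indicator (1 : ℕ → ℝ)) := by
      refine ⟨1, fun n => ?_⟩
      have := hone D n
      simp only [Pi.smul_apply, smul_eq_mul, abs_mul]
      calc |cl| * |D.indicator (1 : ℕ → ℝ) n| ≤ 1 * 1 :=
            mul_le_mul hclb this (abs_nonneg _) zero_le_one
        _ = 1 := one_mul 1
    have hres : ∀ n, |(D.indicator f - cl • D.indicator (1 : ℕ → ℝ)) n| ≤ 1 / N := by
      intro n
      by_cases hn : n ∈ D
      · simpa [hn] using hclose n hn
      · simp only [Pi.sub_apply, Pi.smul_apply, Set.indicator_of_notMem hn, smul_zero, sub_zero,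
          abs_zero]
        positivity
    have hb5 : Bdd ((B1 \ D).indicator (1 : ℕ → ℝ)) := zb_bdd1 (hone _)
    have e1 : f = D.indicator f + (B \ D).indicator f := by
      funext n
      by_cases h1 : n ∈ D
      · simp [h1]
      · by_cases h2 : n ∈ B
        · simp [h1, h2]
        · have : f n = 0 := by
            by_contra h
            exact h2 (hfB n h)
          simp [h1, h2, this]
    have e2 : B1.indicator (1 : ℕ → ℝ) = D.indicator (1 : ℕ → ℝ) + (B1 \ D).indicator 1 := by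
      funext n
      by_cases h1 : n ∈ D
      · simp [h1, hBB1 (hDB h1)]
      · by_cases h2 : n ∈ B1
        · simp [h1, h2]
        · simp [h1, h2]
    have h1 := zb_add hS hb1 hb2 hd0
    have h2 := zb_add hS hb3 hb5 hd0
    have h3 := zb_sub hS hb1 hb4 hd0
    have h4 := zb_smul hS hb3 cl hd0
    have h5 : ∀ k, |S (D.indicator f - cl • D.indicator (1 : ℕ → ℝ)) k| ≤ K * (1 / N) :=
      fun k => hS.bdd _ _ (by positivity) hres k
    have h6 := hO (B \ D) ((B \ D).indicator f) (fun k hk => hBB1 hk.1) (hfd _)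
      (fun n hn => zb_ind_supp _ n hn)
    have h7 := hO (B1 \ D) ((B1 \ D).indicator 1) (fun k hk => hk.1) (hone _)
      (fun n hn => zb_ind_supp _ n hn)
    filter_upwards [h1, h2, h3, h4, h6, h7, hφc] with k g1 g2 g3 g4 g6 g7 g8 hkB hkl
    have hkD : k ∈ D := ⟨hkB, hkl⟩
    have q6 := g6 ⟨hBB1 hkB, fun h => h.2 hkD⟩
    have q7 := g7 ⟨hBB1 hkB, fun h => h.2 hkD⟩
    have q8 := g8 hkB
    have q5 := h5 k
    rw [← e1] at g1
    rw [← e2] at g2
    have q9 := hclose k hkD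
    -- S f k - c f k
    set a := S (D.indicator f) k
    set b := S ((B \ D).indicator f) k
    set p := S (D.indicator 1) k
    set q := S ((B1 \ D).indicator 1) k
    set φ := S (B1.indicator 1) k
    set w := S (cl • D.indicator 1) k
    set z := S (D.indicator f - cl • D.indicator 1) k
    have key : S f k - c * f k = (S f k - a - b) + b + (-(z - a + w)) + z + (w - cl * p)
        + cl * (-(φ - p - q) - q + (φ - c)) + c * (cl - f k) := by ring
    have hcl1 : |cl * (-(φ - p - q) - q + (φ - c))| ≤ 3 * d := by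
      rw [abs_mul]
      have : |(-(φ - p - q) - q + (φ - c))| ≤ 3 * d := by
        have t1 := abs_lt.1 g2
        have t2 := abs_le.1 q7
        have t3 := abs_le.1 q8
        rw [abs_le]
        constructor <;> linarith [t1.1, t1.2, t2.1, t2.2, t3.1, t3.2]
      calc |cl| * |(-(φ - p - q) - q + (φ - c))| ≤ 1 * (3 * d) :=
            mul_le_mul hclb this (abs_nonneg _) zero_le_one
        _ = 3 * d := one_mul _
    have hc1 : |c * (cl - f k)| ≤ d := by
      rw [abs_mul, abs_sub_comm]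
      calc |c| * |f k - cl| ≤ (K + d) * (1 / N) :=
            mul_le_mul hcK q9 (abs_nonneg _) (by positivity)
        _ ≤ d := hKN
    have hz : |z| ≤ d := by
      refine q5.trans (le_trans ?_ hKN)
      exact mul_le_mul_of_nonneg_right (by linarith) (by positivity)
    rw [key, ← hd]
    have t1 := abs_lt.1 g1
    have t3 := abs_lt.1 g3
    have t4 := abs_lt.1 g4
    have t6 := abs_le.1 q6
    have t7 := abs_le.1 hz
    have t8 := abs_le.1 hcl1
    have t9 := abs_le.1 hc1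
    rw [abs_le]
    constructor <;> linarith [t1.1, t1.2, t3.1, t3.2, t4.1, t4.2, t6.1, t6.2, t7.1, t7.2, t8.1,
      t8.2, t9.1, t9.2]
  have hall : ∀ᶠ k in atTop, ∀ l ∈ Set.Icc (-(N : ℤ)) N, k ∈ B → ⌊f k * N⌋ = l →
      |S f k - c * f k| ≤ δ :=
    (Set.finite_Icc _ _).eventually_all.2 hpiece
  filter_upwards [hall] with k hk hkB
  refine hk ⌊f k * N⌋ ?_ hkB rfl
  have h1 := abs_le.1 (hf k)
  constructor
  · rw [Int.le_floor]
    push_cast
    nlinarith [h1.1]
  · have : (⌊f k * N⌋ : ℝ) ≤ (N : ℝ) := (Int.floor_le _).trans (by nlinarith [h1.2])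
    exact_mod_cast this

end Pool.Agent.LC
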